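import Pool.Agent.N748.OL.Stm
import Pool.Agent.N748.MG.TMC
import Pool.Agent.H388LH.ZG

set_option autoImplicit false

/-!
# (AVG) the mean over the Poisson kernel
-/

namespace Pool.Agent.N748.OL.AVG

open Finset Filter MeasureTheory Topology Complex
open Pool.Agent.N748.MG Pool.Agent.N748.MO Pool.Agent.N748.OL

/-! ### the Poisson kernel -/

theorem PK_pos {δ : ℝ} (hδ : 0 < δ) (v : ℝ) : 0 < PK δ v := by
  unfold PK
  have := Real.pi_pos
  positivity

theorem PK_eq {δ : ℝ} (hδ : 0 < δ) (v : ℝ) :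
    PK δ v = (Real.pi * δ)⁻¹ * (1 + (v / δ) ^ 2)⁻¹ := by
  unfold PK
  have := Real.pi_pos
  field_simp

theorem PK_meas (δ : ℝ) : Measurable (PK δ) := by
  unfold PK
  fun_prop

theorem PK_int {δ : ℝ} (hδ : 0 < δ) : Integrable (PK δ) ∧ ∫ v, PK δ v = 1 := by
  have h1 : PK δ = fun v => (Real.pi * δ)⁻¹ * (1 + (v / δ) ^ 2)⁻¹ := funext (PK_eq hδ)
  have hpi := Real.pi_pos
  rw [h1]
  refine ⟨(integrable_inv_one_add_sq.comp_div hδ.ne').const_mul _, ?_⟩
  rw [integral_const_mul, Measure.integral_comp_div (fun x : ℝ => (1 + x ^ 2)⁻¹) δ,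
    integral_univ_inv_one_add_sq, abs_of_pos hδ, smul_eq_mul]
  field_simp

theorem PK_lint {δ : ℝ} (hδ : 0 < δ) : ∫⁻ v, ENNReal.ofReal (PK δ v) = 1 := by
  rw [← ofReal_integral_eq_lintegral_ofReal (PK_int hδ).1
    (ae_of_all _ fun v => (PK_pos hδ v).le), (PK_int hδ).2, ENNReal.ofReal_one]

theorem scale {δ : ℝ} (hδ : 0 < δ) (F : ℝ → ENNReal) (hF : Measurable F) :
    ENNReal.ofReal δ * ∫⁻ x, F (δ * x) = ∫⁻ v, F v := by
  have h1 := Real.smul_map_volume_mul_left hδ.ne'
  calc ENNReal.ofReal δ * ∫⁻ x, F (δ * x)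
      = ENNReal.ofReal |δ| * ∫⁻ v, F v ∂(Measure.map (δ * ·) volume) := by
        rw [lintegral_map hF (measurable_const_mul δ), abs_of_pos hδ]
    _ = ∫⁻ v, F v ∂(ENNReal.ofReal |δ| • Measure.map (δ * ·) volume) := by
        rw [lintegral_smul_measure, smul_eq_mul]
    _ = _ := by rw [h1]

/-- the mean over `[-1, 1]` is bounded by the mean over the Poisson kernel -/
theorem change {δ : ℝ} (hδ : 0 < δ) (h : ℝ → ℝ) (hh : Measurable h) (h0 : ∀ v, 0 ≤ h v) :
    ∫⁻ x in Set.Icc (-1:ℝ) 1, ENNReal.ofReal (h (δ * x)) ≤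
      ENNReal.ofReal (2 * Real.pi) * ∫⁻ v, ENNReal.ofReal (PK δ v * h v) := by
  have hpi := Real.pi_pos
  have hm : Measurable fun v => ENNReal.ofReal (PK δ v * h v) :=
    ((PK_meas δ).mul hh).ennreal_ofReal
  rw [← scale hδ _ hm, ← mul_assoc, ← ENNReal.ofReal_mul (by positivity),
    ← lintegral_const_mul _ (show Measurable fun x : ℝ => ENNReal.ofReal (PK δ (δ * x) * h (δ * x))
      from hm.comp (measurable_const_mul δ))]
  refine le_trans ?_ (setLIntegral_le_lintegral (Set.Icc (-1:ℝ) 1) _)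
  refine setLIntegral_mono' measurableSet_Icc fun x hx => ?_
  rw [← ENNReal.ofReal_mul (by positivity)]
  refine ENNReal.ofReal_le_ofReal ?_
  have h1 : x ^ 2 ≤ 1 := by nlinarith [hx.1, hx.2]
  have h2 : 1 ≤ 2 * Real.pi * δ * PK δ (δ * x) := by
    unfold PK
    have e : 2 * Real.pi * δ * (δ / (Real.pi * (δ ^ 2 + (δ * x) ^ 2))) = 2 / (1 + x ^ 2) := by
      field_simp
    rw [e, le_div_iff₀ (by positivity)]
    linarith
  calc h (δ * x) = 1 * h (δ * x) := (one_mul _).symm
    _ ≤ (2 * Real.pi * δ * PK δ (δ * x)) * h (δ * x) := mul_le_mul_of_nonneg_right h2 (h0 _)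
    _ = _ := by ring

/-- the mean of the absolute value is bounded by the mean of the positive part -/
theorem abs_le_pos (g : ℝ → ℝ) (hg : Integrable g) (c : ℝ) (h : -c ≤ ∫ v, g v) :
    ∫⁻ v, ENNReal.ofReal |g v| ≤ 2 * (∫⁻ v, ENNReal.ofReal (g v)) + ENNReal.ofReal c := by
  have hp : Integrable fun v => max (g v) 0 := hg.pos_part
  have e1 : ∀ v, |g v| = 2 * max (g v) 0 - g v := by
    intro v
    rcases le_total 0 (g v) with h | h
    · rw [abs_of_nonneg h, max_eq_left h]; ring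
    · rw [abs_of_nonpos h, max_eq_right h]; ring
  have h1 : ∫ v, |g v| ≤ 2 * (∫ v, max (g v) 0) + c := by
    simp_rw [e1]
    rw [integral_sub (hp.const_mul 2) hg, integral_const_mul]
    linarith
  rw [← ofReal_integral_eq_lintegral_ofReal hg.abs (ae_of_all _ fun v => abs_nonneg _)]
  refine (ENNReal.ofReal_le_ofReal h1).trans ?_
  refine ENNReal.ofReal_add_le.trans ?_
  rw [ENNReal.ofReal_mul (by norm_num), ofReal_integral_eq_lintegral_ofReal hp
    (ae_of_all _ fun v => le_max_right _ _)]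
  have e2 : ∀ v, ENNReal.ofReal (max (g v) 0) = ENNReal.ofReal (g v) := by
    intro v
    rcases le_total 0 (g v) with h | h
    · rw [max_eq_left h]
    · rw [max_eq_right h, ENNReal.ofReal_zero, ENNReal.ofReal_of_nonpos h]
  simp_rw [e2]
  norm_num

/-! ### zeta on the line -/

theorem zh_eq (t : ℝ) : zh t = mz 0 t := by
  unfold zh mz pw
  norm_num

theorem zh_nn (t : ℝ) : 0 ≤ zh t := norm_nonneg _

theorem zh_cont : Continuous zh := by
  have h : zh = fun t => ‖riemannZeta (pw 0 t)‖ := funext zh_eq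
  rw [h]
  exact (TMC.zc (by norm_num)).norm

theorem zh_ae (t : ℝ) : ∀ᵐ v : ℝ, zh (t + v) ≠ 0 := by
  have h1 : ∀ᵐ u : ℝ, zh u ≠ 0 := by
    filter_upwards [TMC.ae_ne (δ := 0) (by norm_num)] with u hu
    rw [zh_eq]
    exact hu
  exact (measurePreserving_add_left volume t).quasiMeasurePreserving.ae h1

theorem zh_bd (u : ℝ) : zh u ≤ 9 * (1 + |u|) := by
  have h := Pool.Agent.H388LH.zeta_growth' (s := 1 / 2 + (u:ℂ) * I) (by norm_num) (by norm_num)
  have e : (1 / 2 + (u:ℂ) * I).im = u := by simp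
  rw [e] at h
  exact h

/-- the inequality for the logarithm of a ratio -/
theorem log_ratio {a z A : ℝ} (ha : 0 < a) (hz : 0 < z) (hA : 0 ≤ A) :
    Real.log a - Real.log z ≤ 1 / 2 * (Real.log (1 + A) + a ^ 2 / z ^ 2 / (1 + A)) := by
  have h1 : Real.log a - Real.log z = 1 / 2 * Real.log (a ^ 2 / z ^ 2) := by
    rw [Real.log_div (by positivity) (by positivity), Real.log_pow, Real.log_pow]
    push_cast
    ring
  have h2 : Real.log (a ^ 2 / z ^ 2) - Real.log (1 + A) ≤ a ^ 2 / z ^ 2 / (1 + A) := by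
    rw [← Real.log_div (by positivity) (by positivity)]
    have := Real.log_le_sub_one_of_pos (show 0 < a ^ 2 / z ^ 2 / (1 + A) by positivity)
    linarith
  rw [h1]
  linarith

/-- the tails of the Poisson kernel -/
theorem tail_bd {δ t v : ℝ} (hδ : 0 < δ) (hδ1 : δ ≤ 1 / 4) (ht : |t| ≤ |v| ^ 4) (hv : 1 ≤ |v|) :
    PK δ v * Real.log (9 * (1 + |t + v|)) ≤ 11 * (1 + ‖v‖) ^ (-(3 / 2 : ℝ)) := by
  have hpi := Real.pi_gt_three
  set w : ℝ := |v| with hw
  have hw1 : 0 < 1 + w := by linarith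
  have h1 : PK δ v ≤ (1 + w) ^ (-(2:ℝ)) := by
    unfold PK
    rw [Real.rpow_neg hw1.le, ← one_div, show ((2:ℝ)) = ((2:ℕ):ℝ) by norm_num, Real.rpow_natCast,
      div_le_div_iff₀ (by positivity) (by positivity), ← sq_abs v, ← hw]
    have e1 : (1 + w) ^ 2 ≤ 4 * w ^ 2 := by nlinarith
    have e2 : δ * (1 + w) ^ 2 ≤ 1 / 4 * (4 * w ^ 2) :=
      mul_le_mul hδ1 e1 (by positivity) (by norm_num)
    have e3 : w ^ 2 ≤ 1 * (Real.pi * (δ ^ 2 + w ^ 2)) := by nlinarith [sq_nonneg w, sq_nonneg δ]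
    linarith
  have h2 : Real.log (9 * (1 + |t + v|)) ≤ 11 * (1 + w) ^ ((1:ℝ) / 2) := by
    have e1 : 1 + |t + v| ≤ (1 + w) ^ 4 := by
      have := abs_add_le t v
      have e : (1 + w) ^ 4 = 1 + 4 * w + 6 * w ^ 2 + 4 * w ^ 3 + w ^ 4 := by ring
      rw [e]
      have : 0 ≤ w ^ 2 := by positivity
      have : 0 ≤ w ^ 3 := by positivity
      linarith
    have e2 : Real.log (9 * (1 + |t + v|)) ≤ Real.log (9 * (1 + w) ^ 4) :=
      Real.log_le_log (by positivity) (by linarith)
    have e2' : Real.log (9 * (1 + w) ^ 4) = Real.log 9 + 4 * Real.log (1 + w) := by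
      rw [Real.log_mul (by norm_num) (by positivity), Real.log_pow]
      push_cast
      ring
    rw [e2'] at e2
    have e3 : Real.log 9 ≤ 3 := by
      rw [show (9:ℝ) = 3 ^ 2 by norm_num, Real.log_pow]
      have := Real.log_le_sub_one_of_pos (show (0:ℝ) < 3 / Real.exp 1 by positivity)
      rw [Real.log_div (by norm_num) (by positivity), Real.log_exp] at this
      have h5 : 3 / Real.exp 1 ≤ 3 / 2 := by
        have := Real.exp_one_gt_d9
        gcongr
        linarith
      push_cast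
      linarith
    have e4 : Real.log (1 + w) ≤ 2 * (1 + w) ^ ((1:ℝ) / 2) := by
      have h5 := Real.log_le_sub_one_of_pos (show (0:ℝ) < (1 + w) ^ ((1:ℝ) / 2) by positivity)
      rw [Real.log_rpow hw1] at h5
      linarith
    have e5 : (1:ℝ) ≤ (1 + w) ^ ((1:ℝ) / 2) := Real.one_le_rpow (by linarith) (by norm_num)
    linarith
  have h3 : 0 ≤ Real.log (9 * (1 + |t + v|)) := Real.log_nonneg (by
    have := abs_nonneg (t + v)
    linarith)
  calc PK δ v * Real.log (9 * (1 + |t + v|))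
      ≤ (1 + w) ^ (-(2:ℝ)) * (11 * (1 + w) ^ ((1:ℝ) / 2)) :=
        mul_le_mul h1 h2 h3 (by positivity)
    _ = 11 * ((1 + w) ^ (-(2:ℝ)) * (1 + w) ^ ((1:ℝ) / 2)) := by ring
    _ = _ := by
        rw [← Real.rpow_add hw1, Real.norm_eq_abs, ← hw]
        norm_num

/-- the constant for the tails -/
noncomputable def JJ : ENNReal := ∫⁻ v : ℝ, ENNReal.ofReal (11 * (1 + ‖v‖) ^ (-(3 / 2 : ℝ)))

theorem JJ_fin : JJ ≠ ⊤ := by
  have h1 : Integrable (fun v : ℝ => (11:ℝ) * (1 + ‖v‖) ^ (-(3 / 2 : ℝ))) :=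
    (integrable_one_add_norm (by norm_num)).const_mul 11
  exact (h1.lintegral_lt_top).ne

/-- the bound at one point -/
theorem point {δ t z A R c : ℝ} (hδ : 0 < δ) (hδ1 : δ ≤ 1 / 4) (hz : 0 < z) (hA : 0 ≤ A)
    (hR : 1 ≤ R) (ht : |t| ≤ R ^ 4)
    (hint : Integrable (fun v : ℝ => PK δ v * Real.log (zh (t + v))))
    (hle : Real.log z ≤ (∫ v : ℝ, PK δ v * Real.log (zh (t + v))) + c) :
    ∫⁻ v, ENNReal.ofReal (PK δ v * |Real.log (zh (t + v)) - Real.log z|) ≤
      ENNReal.ofReal (Real.log (1 + A)) + 2 * JJ + ENNReal.ofReal c +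
        2 * ENNReal.ofReal (-Real.log z) +
        ∫⁻ v in Set.Icc (-R) R, ENNReal.ofReal (PK δ v) *
          ENNReal.ofReal (zh (t + v) ^ 2 / z ^ 2 / (1 + A)) := by
  obtain ⟨p1, p2⟩ := PK_int hδ
  have hg : Integrable fun v : ℝ => PK δ v * (Real.log (zh (t + v)) - Real.log z) := by
    have h1 := hint.sub (p1.mul_const (Real.log z))
    refine h1.congr (ae_of_all _ fun v => ?_)
    simp only [Pi.sub_apply]
    ring
  have hgi : -c ≤ ∫ v : ℝ, PK δ v * (Real.log (zh (t + v)) - Real.log z) := by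
    have h1 : ∫ v : ℝ, PK δ v * (Real.log (zh (t + v)) - Real.log z) =
        (∫ v : ℝ, PK δ v * Real.log (zh (t + v))) - Real.log z := by
      have h2 : (fun v : ℝ => PK δ v * (Real.log (zh (t + v)) - Real.log z)) = fun v : ℝ =>
          PK δ v * Real.log (zh (t + v)) - PK δ v * Real.log z := by
        funext v
        ring
      rw [h2, integral_sub hint (p1.mul_const _), integral_mul_const, p2, one_mul]
    rw [h1]
    linarith
  have h1 := abs_le_pos _ hg c hgi
  have e1 : ∀ v : ℝ, |PK δ v * (Real.log (zh (t + v)) - Real.log z)| =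
      PK δ v * |Real.log (zh (t + v)) - Real.log z| := fun v => by
    rw [abs_mul, abs_of_pos (PK_pos hδ v)]
  simp_rw [e1] at h1
  refine h1.trans ?_
  rw [← lintegral_add_compl (fun v : ℝ => ENNReal.ofReal (PK δ v *
    (Real.log (zh (t + v)) - Real.log z))) (measurableSet_Icc (a := -R) (b := R)), mul_add]
  -- the middle part
  have h2 : 2 * ∫⁻ v in Set.Icc (-R) R, ENNReal.ofReal (PK δ v *
      (Real.log (zh (t + v)) - Real.log z)) ≤ ENNReal.ofReal (Real.log (1 + A)) +
        ∫⁻ v in Set.Icc (-R) R, ENNReal.ofReal (PK δ v) *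
          ENNReal.ofReal (zh (t + v) ^ 2 / z ^ 2 / (1 + A)) := by
    rw [← lintegral_const_mul' _ _ (by norm_num)]
    have h3 : ∫⁻ v in Set.Icc (-R) R, 2 * ENNReal.ofReal (PK δ v *
        (Real.log (zh (t + v)) - Real.log z)) ≤ ∫⁻ v in Set.Icc (-R) R,
        (ENNReal.ofReal (PK δ v) * ENNReal.ofReal (Real.log (1 + A)) + ENNReal.ofReal (PK δ v) *
          ENNReal.ofReal (zh (t + v) ^ 2 / z ^ 2 / (1 + A))) := by
      refine lintegral_mono_ae ?_
      filter_upwards [ae_restrict_of_ae (zh_ae t)] with v hv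
      have hzh : 0 < zh (t + v) := lt_of_le_of_ne (zh_nn _) (Ne.symm hv)
      have hp := PK_pos hδ v
      rw [← ENNReal.ofReal_mul hp.le, ← ENNReal.ofReal_mul hp.le, ← ENNReal.ofReal_add
        (mul_nonneg hp.le (Real.log_nonneg (by linarith))) (by positivity),
        show (2:ENNReal) = ENNReal.ofReal 2 by norm_num, ← ENNReal.ofReal_mul (by norm_num)]
      refine ENNReal.ofReal_le_ofReal ?_
      have h4 := mul_le_mul_of_nonneg_left (log_ratio hzh hz hA) hp.le
      linarith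
    refine h3.trans ?_
    rw [lintegral_add_left ((PK_meas δ).ennreal_ofReal.mul_const _), lintegral_mul_const _
      (PK_meas δ).ennreal_ofReal]
    refine add_le_add ?_ le_rfl
    calc (∫⁻ v in Set.Icc (-R) R, ENNReal.ofReal (PK δ v)) * ENNReal.ofReal (Real.log (1 + A))
        ≤ 1 * ENNReal.ofReal (Real.log (1 + A)) := by
          refine mul_le_mul' ?_ le_rfl
          rw [← PK_lint hδ]
          exact setLIntegral_le_lintegral _ _
      _ = _ := one_mul _
  -- the tails
  have h3 : ∫⁻ v in (Set.Icc (-R) R)ᶜ, ENNReal.ofReal (PK δ v *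
      (Real.log (zh (t + v)) - Real.log z)) ≤ JJ + ENNReal.ofReal (-Real.log z) := by
    have h4 : ∫⁻ v in (Set.Icc (-R) R)ᶜ, ENNReal.ofReal (PK δ v *
        (Real.log (zh (t + v)) - Real.log z)) ≤ ∫⁻ v in (Set.Icc (-R) R)ᶜ,
        (ENNReal.ofReal (PK δ v) * ENNReal.ofReal (-Real.log z) +
          ENNReal.ofReal (11 * (1 + ‖v‖) ^ (-(3 / 2 : ℝ)))) := by
      refine setLIntegral_mono' measurableSet_Icc.compl fun v hv => ?_
      have hv1 : R < |v| := by
        by_contra hno
        exact hv (abs_le.1 (not_lt.1 hno))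
      have hv2 : 1 ≤ |v| := by linarith
      have hv3 : |t| ≤ |v| ^ 4 := ht.trans (pow_le_pow_left₀ (by linarith) hv1.le 4)
      have hp := PK_pos hδ v
      rw [← ENNReal.ofReal_mul hp.le]
      refine le_trans (ENNReal.ofReal_le_ofReal ?_) ENNReal.ofReal_add_le
      have h5 := tail_bd hδ hδ1 hv3 hv2
      have h6 : Real.log (zh (t + v)) ≤ Real.log (9 * (1 + |t + v|)) := by
        rcases (zh_nn (t + v)).eq_or_lt with h7 | h7
        · rw [← h7, Real.log_zero]
          exact Real.log_nonneg (by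
            have := abs_nonneg (t + v)
            linarith)
        · exact Real.log_le_log h7 (zh_bd _)
      have h7 := mul_le_mul_of_nonneg_left h6 hp.le
      linarith
    refine h4.trans ?_
    rw [lintegral_add_left ((PK_meas δ).ennreal_ofReal.mul_const _), lintegral_mul_const _
      (PK_meas δ).ennreal_ofReal, add_comm]
    refine add_le_add (setLIntegral_le_lintegral _ _) ?_
    calc (∫⁻ v in (Set.Icc (-R) R)ᶜ, ENNReal.ofReal (PK δ v)) * ENNReal.ofReal (-Real.log z)
        ≤ 1 * ENNReal.ofReal (-Real.log z) := by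
          refine mul_le_mul' ?_ le_rfl
          rw [← PK_lint hδ]
          exact setLIntegral_le_lintegral _ _
      _ = _ := one_mul _
  calc 2 * (∫⁻ v in Set.Icc (-R) R, ENNReal.ofReal (PK δ v *
        (Real.log (zh (t + v)) - Real.log z))) +
        2 * (∫⁻ v in (Set.Icc (-R) R)ᶜ, ENNReal.ofReal (PK δ v *
        (Real.log (zh (t + v)) - Real.log z))) + ENNReal.ofReal c
      ≤ (ENNReal.ofReal (Real.log (1 + A)) +
        ∫⁻ v in Set.Icc (-R) R, ENNReal.ofReal (PK δ v) *
          ENNReal.ofReal (zh (t + v) ^ 2 / z ^ 2 / (1 + A))) +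
        2 * (JJ + ENNReal.ofReal (-Real.log z)) + ENNReal.ofReal c :=
        add_le_add (add_le_add h2 (mul_le_mul' le_rfl h3)) le_rfl
    _ = _ := by ring

theorem small_log {z k : ℝ} (hz : 0 < z) (hk : 1 ≤ k) :
    ENNReal.ofReal (z ^ (2 * k)) * ENNReal.ofReal (-Real.log z) ≤ 1 := by
  rw [← ENNReal.ofReal_mul (by positivity), ENNReal.ofReal_le_one]
  rcases le_total 1 z with h | h
  · have h1 := Real.log_nonneg h
    have h2 : 0 ≤ z ^ (2 * k) := by positivity
    nlinarith
  · have h1 : z ^ (2 * k) ≤ z := by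
      calc z ^ (2 * k) ≤ z ^ (1:ℝ) := Real.rpow_le_rpow_of_exponent_ge hz h (by linarith)
        _ = z := Real.rpow_one z
    have h2 : -Real.log z ≤ 1 / z := by
      have := Real.log_le_sub_one_of_pos (show 0 < 1 / z by positivity)
      rw [one_div, Real.log_inv] at this
      rw [one_div]
      linarith
    have h3 : 0 ≤ -Real.log z := by
      have := Real.log_nonpos hz.le h
      linarith
    calc z ^ (2 * k) * -Real.log z ≤ z * (1 / z) := mul_le_mul h1 h2 h3 hz.le
      _ = 1 := by field_simp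

/-- the bound after integration over the heights -/
theorem total {δ T A R k c W1 W2 : ℝ} (hδ : 0 < δ) (hδ1 : δ ≤ 1 / 4) (hA : 0 ≤ A) (hR : 1 ≤ R)
    (hTR : T ≤ R ^ 4) (hk : 1 ≤ k) (_hW2 : 0 ≤ W2) (S : Set ℝ) (hS : MeasurableSet S)
    (hST : S ⊆ Set.Icc 0 T)
    (hpj : ∀ t ∈ S, mz δ t ≠ 0 → Integrable (fun v : ℝ => PK δ v * Real.log (zh (t + v))) ∧
      Real.log (mz δ t) ≤ (∫ v : ℝ, PK δ v * Real.log (zh (t + v))) + c)
    (M1 : ∫⁻ t in S, ENNReal.ofReal (mz δ t ^ (2 * k)) ≤ ENNReal.ofReal W1)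
    (M2 : ∀ v : ℝ, |v| ≤ R →
      ∫⁻ t in S, ENNReal.ofReal (mz δ t ^ (2 * k - 2) * zh (t + v) ^ 2) ≤ ENNReal.ofReal W2) :
    ∫⁻ t in S, ENNReal.ofReal (mz δ t ^ (2 * k)) *
      ∫⁻ x in Set.Icc (-1:ℝ) 1, ENNReal.ofReal |Real.log (zh (t + δ * x)) - Real.log (mz δ t)| ≤
    ENNReal.ofReal (2 * Real.pi) * (ENNReal.ofReal W1 * (ENNReal.ofReal (Real.log (1 + A)) +
      2 * JJ + ENNReal.ofReal c) + (2 * ENNReal.ofReal T + ENNReal.ofReal (W2 / (1 + A)))) := by
  have hpi := Real.pi_pos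
  have hmz : Measurable (mz δ) := TMC.mz_meas (by linarith)
  set K : ENNReal := ENNReal.ofReal (Real.log (1 + A)) + 2 * JJ + ENNReal.ofReal c with hK
  have hpt : ∀ t ∈ S, ENNReal.ofReal (mz δ t ^ (2 * k)) *
      ∫⁻ x in Set.Icc (-1:ℝ) 1, ENNReal.ofReal |Real.log (zh (t + δ * x)) - Real.log (mz δ t)| ≤
      ENNReal.ofReal (2 * Real.pi) * (ENNReal.ofReal (mz δ t ^ (2 * k)) * K + (2 +
        ∫⁻ v in Set.Icc (-R) R, ENNReal.ofReal (PK δ v) * (ENNReal.ofReal (1 / (1 + A)) *
          ENNReal.ofReal (mz δ t ^ (2 * k - 2) * zh (t + v) ^ 2)))) := by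
    intro t ht
    by_cases hz0 : mz δ t = 0
    · rw [hz0, Real.zero_rpow (by linarith), ENNReal.ofReal_zero, zero_mul]
      exact bot_le
    have hz : 0 < mz δ t := lt_of_le_of_ne (norm_nonneg _) (Ne.symm hz0)
    obtain ⟨i1, i2⟩ := hpj t ht hz0
    have ht4 : |t| ≤ R ^ 4 := by
      rw [abs_of_nonneg (hST ht).1]
      exact (hST ht).2.trans hTR
    have h1 := point hδ hδ1 hz hA hR ht4 i1 i2
    have hm : Measurable fun v : ℝ => |Real.log (zh (t + v)) - Real.log (mz δ t)| := by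
      have := zh_cont.measurable
      fun_prop
    have h2 := change hδ _ hm (fun v => abs_nonneg _)
    calc ENNReal.ofReal (mz δ t ^ (2 * k)) *
        ∫⁻ x in Set.Icc (-1:ℝ) 1, ENNReal.ofReal |Real.log (zh (t + δ * x)) - Real.log (mz δ t)|
        ≤ ENNReal.ofReal (mz δ t ^ (2 * k)) * (ENNReal.ofReal (2 * Real.pi) *
          (K + 2 * ENNReal.ofReal (-Real.log (mz δ t)) +
          ∫⁻ v in Set.Icc (-R) R, ENNReal.ofReal (PK δ v) *
          ENNReal.ofReal (zh (t + v) ^ 2 / mz δ t ^ 2 / (1 + A)))) :=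
          mul_le_mul' le_rfl (h2.trans (mul_le_mul' le_rfl h1))
      _ = ENNReal.ofReal (2 * Real.pi) * (ENNReal.ofReal (mz δ t ^ (2 * k)) * K +
          (2 * (ENNReal.ofReal (mz δ t ^ (2 * k)) * ENNReal.ofReal (-Real.log (mz δ t))) +
          ENNReal.ofReal (mz δ t ^ (2 * k)) * ∫⁻ v in Set.Icc (-R) R, ENNReal.ofReal (PK δ v) *
          ENNReal.ofReal (zh (t + v) ^ 2 / mz δ t ^ 2 / (1 + A)))) := by ring
      _ ≤ _ := by
          refine mul_le_mul' le_rfl (add_le_add le_rfl (add_le_add ?_ ?_))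
          · calc 2 * (ENNReal.ofReal (mz δ t ^ (2 * k)) * ENNReal.ofReal (-Real.log (mz δ t)))
                ≤ 2 * 1 := mul_le_mul' le_rfl (small_log hz hk)
              _ = 2 := mul_one _
          · rw [← lintegral_const_mul' _ _ ENNReal.ofReal_ne_top]
            refine lintegral_mono fun v => ?_
            have e2 : mz δ t ^ (2 * k) = mz δ t ^ (2 * k - 2) * mz δ t ^ 2 := by
              rw [← Real.rpow_natCast, ← Real.rpow_add hz]
              congr 1
              push_cast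
              ring
            have e3 : ENNReal.ofReal (mz δ t ^ (2 * k)) *
                ENNReal.ofReal (zh (t + v) ^ 2 / mz δ t ^ 2 / (1 + A)) =
                ENNReal.ofReal (1 / (1 + A)) *
                ENNReal.ofReal (mz δ t ^ (2 * k - 2) * zh (t + v) ^ 2) := by
              rw [← ENNReal.ofReal_mul (by positivity), ← ENNReal.ofReal_mul (by positivity), e2]
              congr 1
              field_simp
            calc ENNReal.ofReal (mz δ t ^ (2 * k)) * (ENNReal.ofReal (PK δ v) *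
                  ENNReal.ofReal (zh (t + v) ^ 2 / mz δ t ^ 2 / (1 + A)))
                = ENNReal.ofReal (PK δ v) * (ENNReal.ofReal (mz δ t ^ (2 * k)) *
                  ENNReal.ofReal (zh (t + v) ^ 2 / mz δ t ^ 2 / (1 + A))) := by ring
              _ ≤ _ := by rw [e3]
  refine (setLIntegral_mono' hS hpt).trans ?_
  rw [lintegral_const_mul' _ _ ENNReal.ofReal_ne_top]
  refine mul_le_mul' le_rfl ?_
  rw [lintegral_add_left ((hmz.pow_const _).ennreal_ofReal.mul_const _),
    lintegral_mul_const _ (hmz.pow_const _).ennreal_ofReal]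
  refine add_le_add (mul_le_mul' M1 le_rfl) ?_
  rw [lintegral_add_left measurable_const]
  refine add_le_add ?_ ?_
  · rw [setLIntegral_const]
    refine mul_le_mul' le_rfl ?_
    calc volume S ≤ volume (Set.Icc 0 T) := measure_mono hST
      _ = ENNReal.ofReal T := by rw [Real.volume_Icc, sub_zero]
  · have hjm : Measurable (Function.uncurry fun (t v : ℝ) => ENNReal.ofReal (PK δ v) *
        (ENNReal.ofReal (1 / (1 + A)) *
          ENNReal.ofReal (mz δ t ^ (2 * k - 2) * zh (t + v) ^ 2))) := by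
      have h1 := zh_cont.measurable
      have h2 := PK_meas δ
      refine Measurable.mul (h2.comp measurable_snd).ennreal_ofReal (Measurable.mul
        measurable_const (Measurable.ennreal_ofReal (Measurable.mul ?_ ?_)))
      · exact (hmz.comp measurable_fst).pow_const _
      · exact (h1.comp (measurable_fst.add measurable_snd)).pow_const _
    rw [lintegral_lintegral_swap hjm.aemeasurable]
    have h3 : ∀ v ∈ Set.Icc (-R) R, ∫⁻ t in S, ENNReal.ofReal (PK δ v) *
        (ENNReal.ofReal (1 / (1 + A)) *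
          ENNReal.ofReal (mz δ t ^ (2 * k - 2) * zh (t + v) ^ 2)) ≤
        ENNReal.ofReal (PK δ v) * ENNReal.ofReal (W2 / (1 + A)) := by
      intro v hv
      rw [lintegral_const_mul' _ _ ENNReal.ofReal_ne_top,
        lintegral_const_mul' _ _ ENNReal.ofReal_ne_top]
      refine mul_le_mul' le_rfl ?_
      refine (mul_le_mul' le_rfl (M2 v (abs_le.2 hv))).trans ?_
      rw [← ENNReal.ofReal_mul (by positivity)]
      refine le_of_eq ?_
      congr 1
      ring
    refine (setLIntegral_mono' measurableSet_Icc h3).trans ?_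
    rw [lintegral_mul_const _ (PK_meas δ).ennreal_ofReal]
    calc (∫⁻ v in Set.Icc (-R) R, ENNReal.ofReal (PK δ v)) * ENNReal.ofReal (W2 / (1 + A))
        ≤ 1 * ENNReal.ofReal (W2 / (1 + A)) := by
          refine mul_le_mul' ?_ le_rfl
          rw [← PK_lint hδ]
          exact setLIntegral_le_lintegral _ _
      _ = _ := one_mul _

/-- (AVG) the mean over the Poisson kernel -/
theorem main (g1 : S_PJZ) (g2 : S_SH2) (g3 : S_TM1) (_g4 : S_CON) : S_AVG := by
  intro c d hd k V hk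
  obtain ⟨C0, hC0, hpj⟩ := g1
  obtain ⟨C2, hC2, hsh⟩ := g2 c d hd k V hk
  have hpi := Real.pi_pos
  have htm := g3 d hd.toAd k (max V (k + 1)) (by linarith)
    (lt_of_lt_of_le (by linarith) (le_max_right _ _))
  have hr : (aC k).re < |(aC k).re| + 1 := by
    have := le_abs_self (aC k).re
    linarith
  set r : ℝ := |(aC k).re| + 1 with hrdef
  have hr0 : 0 < r := by positivity
  set Jr : ℝ := JJ.toReal with hJr
  have hJ : JJ = ENNReal.ofReal Jr := (ENNReal.ofReal_toReal JJ_fin).symm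
  have hJ0 : 0 ≤ Jr := ENNReal.toReal_nonneg
  refine ⟨2 * Real.pi * (r * (1 + 2 * (2 * Jr + C0)) + 4 + 2 * C2), by positivity, ?_⟩
  filter_upwards [htm.eventually_le_const hr, hsh, hd.pos,
    hd.t0.eventually_le_const (show (0:ℝ) < 1 / 4 by norm_num), eventually_ge_atTop (100:ℝ)]
    with T t1 t2 hδ hδ1 hT
  set δ : ℝ := d T with hδdef
  have hT0 : 0 < T := by linarith
  have hlT : 0 ≤ Real.log T := Real.log_nonneg (by linarith)
  have hA : 0 ≤ δ * Real.log T := by positivity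
  have hs10 : (10:ℝ) ≤ T ^ ((1:ℝ) / 2) := by
    rw [← Real.sqrt_eq_rpow]
    exact Real.le_sqrt_of_sq_le (by linarith)
  have hsT : T ^ ((1:ℝ) / 2) ≤ T := by
    calc T ^ ((1:ℝ) / 2) ≤ T ^ (1:ℝ) := Real.rpow_le_rpow_of_exponent_le (by linarith) (by norm_num)
      _ = T := Real.rpow_one T
  have hmc : Continuous (mz δ) := (TMC.zc (δ := δ) (by linarith)).norm
  have hzc := zh_cont
  have hGm : MeasurableSet (GT V δ T) :=
    measurableSet_Icc.inter (hmc.measurable measurableSet_Iic)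
  have hSm : MeasurableSet (GT V δ T \ Set.Icc 0 (T ^ ((1:ℝ) / 2))) := hGm.diff measurableSet_Icc
  have hST : GT V δ T \ Set.Icc 0 (T ^ ((1:ℝ) / 2)) ⊆ Set.Icc 0 T := fun t ht => ht.1.1
  have hSgt : ∀ t ∈ GT V δ T \ Set.Icc 0 (T ^ ((1:ℝ) / 2)), T ^ ((1:ℝ) / 2) < t := by
    intro t ht
    by_contra hno
    exact ht.2 ⟨ht.1.1.1, not_lt.1 hno⟩
  have hW1 : 1 ≤ (2 * δ) ^ (-(k ^ 2)) :=
    Real.one_le_rpow_of_pos_of_le_one_of_nonpos (by positivity) (by linarith) (by nlinarith)
  set P : ℝ := (2 * δ) ^ (-(k ^ 2)) with hP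
  have hP0 : 0 < P := by positivity
  -- the measure of the heights
  have M1 : ∫⁻ t in GT V δ T \ Set.Icc 0 (T ^ ((1:ℝ) / 2)), ENNReal.ofReal (mz δ t ^ (2 * k)) ≤
      ENNReal.ofReal (r * P * T) := by
    set Q : Set ℝ := {t : ℝ | t ∈ Set.Icc 0 T ∧ mz δ t ≤ (2 * δ) ^ (-(max V (k + 1)))} with hQ
    have hsub : GT V δ T \ Set.Icc 0 (T ^ ((1:ℝ) / 2)) ⊆ Q := by
      intro t ht
      refine ⟨ht.1.1, ht.1.2.trans ?_⟩
      exact Real.rpow_le_rpow_of_exponent_ge (by positivity) (by linarith)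
        (by have := le_max_left V (k + 1); linarith)
    have hint : IntegrableOn (fun t => mz δ t ^ (2 * k)) Q := by
      have h1 : Continuous fun t => mz δ t ^ (2 * k) :=
        hmc.rpow_const fun t => Or.inr (by linarith)
      exact (h1.integrableOn_Icc (a := 0) (b := T)).mono_set fun t ht => ht.1
    refine (lintegral_mono_set hsub).trans ?_
    rw [← ofReal_integral_eq_lintegral_ofReal hint (ae_of_all _ fun t => by
      have : 0 ≤ mz δ t := norm_nonneg _
      positivity)]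
    refine ENNReal.ofReal_le_ofReal ?_
    have h2 : ML k ((2 * δ) ^ (-(max V (k + 1)))) δ T = (1 / T) * ∫ t in Q, mz δ t ^ (2 * k) := rfl
    rw [h2] at t1
    have h3 : (2 * δ) ^ (k ^ 2) * P = 1 := by
      rw [hP, ← Real.rpow_add (by positivity), add_neg_cancel, Real.rpow_zero]
    have h4 := mul_le_mul_of_nonneg_right t1 (show 0 ≤ P * T by positivity)
    have h5 : (2 * δ) ^ (k ^ 2) * (1 / T * ∫ t in Q, mz δ t ^ (2 * k)) * (P * T) =
        ((2 * δ) ^ (k ^ 2) * P) * (∫ t in Q, mz δ t ^ (2 * k)) := by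
      field_simp
    rw [h5, h3, one_mul] at h4
    linarith
  -- the second moment
  have M2 : ∀ v : ℝ, |v| ≤ T ^ ((1:ℝ) / 4) →
      ∫⁻ t in GT V δ T \ Set.Icc 0 (T ^ ((1:ℝ) / 2)),
        ENNReal.ofReal (mz δ t ^ (2 * k - 2) * zh (t + v) ^ 2) ≤
      ENNReal.ofReal (C2 * (δ * Real.log T * P * T)) := by
    intro v hv
    have hsub : GT V δ T \ Set.Icc 0 (T ^ ((1:ℝ) / 2)) ⊆ GT V δ T ∩ Set.Ici (T ^ ((1:ℝ) / 2)) :=
      fun t ht => ⟨ht.1, (hSgt t ht).le⟩
    have hint : IntegrableOn (fun t => mz δ t ^ (2 * k - 2) * zh (t + v) ^ 2)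
        (GT V δ T ∩ Set.Ici (T ^ ((1:ℝ) / 2))) := by
      have h1 : Continuous fun t => mz δ t ^ (2 * k - 2) * zh (t + v) ^ 2 :=
        (hmc.rpow_const fun t => Or.inr (by linarith)).mul
          ((hzc.comp (continuous_add_const v)).pow 2)
      exact (h1.integrableOn_Icc (a := 0) (b := T)).mono_set fun t ht => ht.1.1
    refine (lintegral_mono_set hsub).trans ?_
    rw [← ofReal_integral_eq_lintegral_ofReal hint (ae_of_all _ fun t => by
      have : 0 ≤ mz δ t := norm_nonneg _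
      positivity)]
    exact ENNReal.ofReal_le_ofReal (t2 v hv)
  refine ⟨Set.Icc 0 (T ^ ((1:ℝ) / 2)), measurableSet_Icc, Set.Icc_subset_Icc_right hsT, ?_, ?_⟩
  · rw [Real.volume_Icc, sub_zero]
    exact ENNReal.ofReal_le_ofReal
      (Real.rpow_le_rpow_of_exponent_le (by linarith) (by norm_num))
  have hR4 : (T ^ ((1:ℝ) / 4)) ^ 4 = T := by
    rw [← Real.rpow_natCast, ← Real.rpow_mul hT0.le]
    norm_num
  refine (total (c := C0) (R := T ^ ((1:ℝ) / 4)) hδ hδ1 hA
    (Real.one_le_rpow (by linarith) (by norm_num)) hR4.ge hk (by positivity) _ hSm hST ?_ M1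
    M2).trans ?_
  · intro t ht hz
    have h1 := hSgt t ht
    obtain ⟨i1, i2⟩ := hpj δ t hδ hδ1 (by linarith) hz
    refine ⟨i1, i2.trans ?_⟩
    have h2 : C0 / t ≤ C0 := div_le_self hC0.le (by linarith)
    linarith
  · have hl1 : Real.log (1 + δ * Real.log T) ≤ Real.log (2 + δ * Real.log T) :=
      Real.log_le_log (by positivity) (by linarith)
    have hl0 : 0 ≤ Real.log (1 + δ * Real.log T) := Real.log_nonneg (by linarith)
    have hl2 : 1 / 2 ≤ Real.log (2 + δ * Real.log T) := by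
      have h1 : Real.log 2 ≤ Real.log (2 + δ * Real.log T) :=
        Real.log_le_log (by norm_num) (by linarith)
      have h2 := Real.log_two_gt_d9
      linarith
    set A : ℝ := δ * Real.log T with hAdef
    set lam : ℝ := Real.log (2 + A) with hlam
    rw [hJ, show (2:ENNReal) = ENNReal.ofReal 2 by norm_num, ← ENNReal.ofReal_mul (by norm_num),
      ← ENNReal.ofReal_add hl0 (by positivity), ← ENNReal.ofReal_add (by positivity) hC0.le,
      ← ENNReal.ofReal_mul (by positivity), ← ENNReal.ofReal_mul (by norm_num),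
      ← ENNReal.ofReal_add (by positivity) (by positivity),
      ← ENNReal.ofReal_add (by positivity) (by positivity), ← ENNReal.ofReal_mul (by positivity)]
    refine ENNReal.ofReal_le_ofReal ?_
    have e1 : C2 * (A * P * T) / (1 + A) ≤ C2 * (P * T) * (2 * lam) := by
      have h1 : C2 * (A * P * T) / (1 + A) ≤ C2 * (P * T) := by
        rw [div_le_iff₀ (by positivity)]
        have h2 : 0 ≤ C2 * (P * T) := by positivity
        nlinarith
      have h3 : C2 * (P * T) * 1 ≤ C2 * (P * T) * (2 * lam) :=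
        mul_le_mul_of_nonneg_left (by linarith) (by positivity)
      linarith
    have e2 : 2 * T ≤ 2 * (P * T) * (2 * lam) := by
      have h1 : T * 1 ≤ T * P := mul_le_mul_of_nonneg_left hW1 hT0.le
      have h3 : 2 * (P * T) * 1 ≤ 2 * (P * T) * (2 * lam) :=
        mul_le_mul_of_nonneg_left (by linarith) (by positivity)
      linarith
    have e3 : r * P * T * (Real.log (1 + A) + 2 * Jr + C0) ≤
        r * (P * T) * (lam + (2 * Jr + C0) * (2 * lam)) := by
      have h1 : Real.log (1 + A) + 2 * Jr + C0 ≤ lam + (2 * Jr + C0) * (2 * lam) := by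
        have h2 : (2 * Jr + C0) * 1 ≤ (2 * Jr + C0) * (2 * lam) :=
          mul_le_mul_of_nonneg_left (by linarith) (by positivity)
        linarith
      have h3 := mul_le_mul_of_nonneg_left h1 (show 0 ≤ r * (P * T) by positivity)
      linarith
    have e4 := mul_le_mul_of_nonneg_left (add_le_add e3 (add_le_add e2 e1))
      (show 0 ≤ 2 * Real.pi by positivity)
    refine e4.trans (le_of_eq ?_)
    ring

end Pool.Agent.N748.OL.AVG
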