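import Pool.Agent.N748.OL.Stm
import Pool.Agent.N748.MG.TMB
import Pool.Agent.N748.MG.TMC

set_option autoImplicit false

/-!
# The central limit theorem on the critical line from the comparison with the values near it (helper324)
-/

namespace Pool.Agent.N748.OL.CLT

open Finset Filter MeasureTheory Topology Complex
open Pool.Agent.N748.MG Pool.Agent.N748.MO

theorem zh_cont : Continuous zh := by
  have h : Continuous (fun t : ℝ => riemannZeta (1 / 2 + t * I)) := by
    rw [continuous_iff_continuousAt]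
    intro t
    have hne : (1 / 2 + t * I : ℂ) ≠ 1 := by
      intro h
      have h2 := congrArg Complex.re h
      norm_num at h2
    exact ContinuousAt.comp (g := riemannZeta) (f := fun t : ℝ => (1 / 2 + t * I : ℂ))
      (differentiableAt_riemannZeta hne).continuousAt (by fun_prop)
  exact h.norm

/-! ### the normal distribution function -/

theorem pdf_le (y : ℝ) : ProbabilityTheory.gaussianPDF 0 1 y ≤ 1 := by
  unfold ProbabilityTheory.gaussianPDF
  rw [← ENNReal.ofReal_one]
  apply ENNReal.ofReal_le_ofReal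
  unfold ProbabilityTheory.gaussianPDFReal
  have h1 : (1 : ℝ) ≤ Real.sqrt (2 * Real.pi * ((1 : NNReal) : ℝ)) := by
    rw [Real.one_le_sqrt]
    have := Real.pi_gt_three
    push_cast
    linarith
  have h2 : (Real.sqrt (2 * Real.pi * ((1 : NNReal) : ℝ)))⁻¹ ≤ 1 := inv_le_one_of_one_le₀ h1
  have h3 : Real.exp (-(y - 0) ^ 2 / (2 * ((1 : NNReal) : ℝ))) ≤ 1 := by
    rw [Real.exp_le_one_iff]
    push_cast
    have := sq_nonneg (y - 0)
    linarith
  have h4 : 0 ≤ (Real.sqrt (2 * Real.pi * ((1 : NNReal) : ℝ)))⁻¹ := by positivity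
  exact mul_le_one₀ h2 (Real.exp_pos _).le h3

theorem gauss_Ioc (a b : ℝ) :
    ProbabilityTheory.gaussianReal 0 1 (Set.Ioc a b) ≤ ENNReal.ofReal (b - a) := by
  rw [ProbabilityTheory.gaussianReal_apply 0 one_ne_zero]
  calc ∫⁻ x in Set.Ioc a b, ProbabilityTheory.gaussianPDF 0 1 x ≤ ∫⁻ _ in Set.Ioc a b, 1 :=
        lintegral_mono fun y => pdf_le y
    _ = ENNReal.ofReal (b - a) := by rw [setLIntegral_one, Real.volume_Ioc]

theorem Phi_mono {x y : ℝ} (h : x ≤ y) : Phi x ≤ Phi y :=
  ENNReal.toReal_mono (measure_ne_top _ _) (measure_mono (Set.Iic_subset_Iic.2 h))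

theorem Phi_add (x : ℝ) {h : ℝ} (hh : 0 ≤ h) : Phi (x + h) ≤ Phi x + h := by
  unfold Phi
  have h1 : ProbabilityTheory.gaussianReal 0 1 (Set.Iic (x + h)) ≤
      ProbabilityTheory.gaussianReal 0 1 (Set.Iic x) + ENNReal.ofReal h := by
    have h2 : Set.Iic (x + h) = Set.Iic x ∪ Set.Ioc x (x + h) :=
      (Set.Iic_union_Ioc_eq_Iic (by linarith)).symm
    rw [h2]
    refine (measure_union_le _ _).trans (add_le_add le_rfl ?_)
    refine (gauss_Ioc x (x + h)).trans (le_of_eq ?_)
    congr 1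
    ring
  have h3 := ENNReal.toReal_mono (ENNReal.add_ne_top.2 ⟨measure_ne_top _ _, ENNReal.ofReal_ne_top⟩) h1
  rwa [ENNReal.toReal_add (measure_ne_top _ _) ENNReal.ofReal_ne_top, ENNReal.toReal_ofReal hh] at h3

theorem Phi_lip (x y : ℝ) : |Phi y - Phi x| ≤ |y - x| := by
  rcases le_total x y with h | h
  · have h1 := Phi_mono h
    have h2 := Phi_add x (h := y - x) (by linarith)
    rw [show x + (y - x) = y by ring] at h2
    rw [abs_of_nonneg (by linarith), abs_of_nonneg (by linarith)]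
    linarith
  · have h1 := Phi_mono h
    have h2 := Phi_add y (h := x - y) (by linarith)
    rw [show y + (x - y) = x by ring] at h2
    rw [abs_of_nonpos (by linarith), abs_of_nonpos (by linarith)]
    linarith

/-! ### comparison of the integrals -/

theorem le3 {f : ℝ → ℝ} {T : ℝ} (hf : ∀ t, 0 ≤ f t) (hi : IntegrableOn f (Set.Icc 0 T))
    {A E B : Set ℝ} (hE : MeasurableSet E) (hB : MeasurableSet B) (hE' : E ⊆ Set.Icc 0 T)
    (hB' : B ⊆ Set.Icc 0 T) (h : ∀ᵐ t : ℝ, t ∈ A → t ∈ E ∨ t ∈ B) :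
    ∫ t in A, f t ≤ (∫ t in E, f t) + ∫ t in B, f t := by
  have h1 : ∫ t in A, f t ≤ ∫ t in E ∪ B, f t :=
    setIntegral_mono_set (hi.mono_set (Set.union_subset hE' hB')) (Eventually.of_forall hf) h
  have h2 : ∫ t in E ∪ B, f t = (∫ t in E, f t) + ∫ t in B \ E, f t := by
    rw [← Set.union_sdiff_self, setIntegral_union Set.disjoint_sdiff_right (hB.diff hE)
      (hi.mono_set hE') (hi.mono_set (Set.sdiff_subset.trans hB'))]
  have h3 : ∫ t in B \ E, f t ≤ ∫ t in B, f t :=
    setIntegral_mono_set (hi.mono_set hB') (Eventually.of_forall hf)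
      (LE.le.eventuallyLE Set.sdiff_subset)
  linarith

/-! ### the scales -/

/-- `loglog T - log (1/(2 d)) = log (2 d log T)` -/
theorem scales {d : ℝ → ℝ} (hd : Ad d)
    (hq : Tendsto (fun T : ℝ => Real.log (2 + d T * Real.log T) / Real.sqrt (Real.log (Real.log T)))
      atTop (𝓝 0)) :
    (∀ᶠ T : ℝ in atTop, Real.log (1 / (2 * d T)) ≤ Real.log (Real.log T)) ∧
    (∀ᶠ T : ℝ in atTop, 1 ≤ d T * Real.log T) ∧
    Tendsto (fun T : ℝ => Real.log (Real.log T)) atTop atTop ∧
    Tendsto (fun T : ℝ => (Real.log (Real.log T) - Real.log (1 / (2 * d T))) /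
      Real.sqrt (Real.log (Real.log T) / 2)) atTop (𝓝 0) ∧
    Tendsto (fun T : ℝ => Real.sqrt (Real.log (Real.log T) / 2) -
      Real.sqrt (Real.log (1 / (2 * d T)) / 2)) atTop (𝓝 0) := by
  have hℓ : Tendsto (fun T : ℝ => Real.log (Real.log T)) atTop atTop :=
    Real.tendsto_log_atTop.comp Real.tendsto_log_atTop
  have hL := TMB.lam_tendsto hd
  have h1d : Tendsto (fun T : ℝ => Real.log (1 / d T)) atTop atTop := by
    refine tendsto_atTop_mono' atTop ?_ hL
    filter_upwards [hd.pos] with T hT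
    apply Real.log_le_log (by positivity)
    apply one_div_le_one_div_of_le hT
    linarith
  have hdl : Tendsto (fun T : ℝ => d T * Real.log T) atTop atTop := by
    refine tendsto_atTop_mono' atTop ?_ hd.tL
    filter_upwards [hd.pos, h1d.eventually_ge_atTop 1, eventually_ge_atTop 1] with T hT h2 h3
    refine div_le_self (mul_nonneg hT.le (Real.log_nonneg h3)) ?_
    nlinarith
  have hdl1 := hdl.eventually_ge_atTop 1
  -- the difference
  have hdiff : ∀ᶠ T : ℝ in atTop, 0 ≤ Real.log (Real.log T) - Real.log (1 / (2 * d T)) ∧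
      Real.log (Real.log T) - Real.log (1 / (2 * d T)) ≤
        2 * Real.log (2 + d T * Real.log T) := by
    filter_upwards [hd.pos, hdl1, eventually_gt_atTop 1] with T hT h2 h3
    have h4 : 0 < Real.log T := Real.log_pos h3
    have e : Real.log (Real.log T) - Real.log (1 / (2 * d T)) =
        Real.log (2 * (d T * Real.log T)) := by
      rw [LD.log_eq, sub_neg_eq_add, add_comm, ← Real.log_mul (by positivity) h4.ne']
      congr 1
      ring
    rw [e]
    constructor
    · apply Real.log_nonneg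
      linarith
    · have e2 : 2 * Real.log (2 + d T * Real.log T) = Real.log ((2 + d T * Real.log T) ^ 2) := by
        rw [Real.log_pow]
        norm_num
      rw [e2]
      apply Real.log_le_log (by positivity)
      nlinarith
  have hratio : Tendsto (fun T : ℝ => (Real.log (Real.log T) - Real.log (1 / (2 * d T))) /
      Real.sqrt (Real.log (Real.log T) / 2)) atTop (𝓝 0) := by
    have h5 := hq.const_mul (2 * Real.sqrt 2)
    rw [mul_zero] at h5
    refine squeeze_zero' (g := fun T : ℝ => 2 * Real.sqrt 2 *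
      (Real.log (2 + d T * Real.log T) / Real.sqrt (Real.log (Real.log T)))) ?_ ?_ h5
    · filter_upwards [hdiff] with T hT
      exact div_nonneg hT.1 (Real.sqrt_nonneg _)
    · filter_upwards [hdiff, hℓ.eventually_gt_atTop 0] with T hT h6
      have h7 : 0 < Real.sqrt (Real.log (Real.log T)) := Real.sqrt_pos.2 h6
      have h8 : Real.sqrt (Real.log (Real.log T) / 2) =
          Real.sqrt (Real.log (Real.log T)) / Real.sqrt 2 := Real.sqrt_div h6.le _
      have h9 : 0 < Real.sqrt 2 := Real.sqrt_pos.2 (by norm_num)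
      rw [h8, div_div_eq_mul_div, div_le_iff₀ h7]
      have e3 : 2 * Real.sqrt 2 * (Real.log (2 + d T * Real.log T) /
          Real.sqrt (Real.log (Real.log T))) * Real.sqrt (Real.log (Real.log T)) =
          2 * Real.log (2 + d T * Real.log T) * Real.sqrt 2 := by
        field_simp
      rw [e3]
      exact mul_le_mul_of_nonneg_right hT.2 h9.le
  refine ⟨?_, hdl1, hℓ, hratio, ?_⟩
  · filter_upwards [hdiff] with T hT
    linarith [hT.1]
  · refine squeeze_zero' (g := fun T : ℝ => (Real.log (Real.log T) - Real.log (1 / (2 * d T))) /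
      Real.sqrt (Real.log (Real.log T) / 2)) ?_ ?_ hratio
    · filter_upwards [hdiff] with T hT
      rw [sub_nonneg]
      apply Real.sqrt_le_sqrt
      linarith [hT.1]
    · filter_upwards [hdiff, hℓ.eventually_gt_atTop 0, hL.eventually_ge_atTop 0] with T hT h6 h7
      have h8 : 0 < Real.sqrt (Real.log (Real.log T) / 2) := Real.sqrt_pos.2 (by linarith)
      have h9 : 0 ≤ Real.sqrt (Real.log (1 / (2 * d T)) / 2) := Real.sqrt_nonneg _
      have h10 := Real.sq_sqrt (show 0 ≤ Real.log (Real.log T) / 2 by linarith)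
      have h11 := Real.sq_sqrt (show 0 ≤ Real.log (1 / (2 * d T)) / 2 by linarith)
      have h12 : Real.sqrt (Real.log (1 / (2 * d T)) / 2) ≤ Real.sqrt (Real.log (Real.log T) / 2) := by
        apply Real.sqrt_le_sqrt
        linarith [hT.1]
      rw [le_div_iff₀ h8]
      nlinarith [hT.1]

theorem main (g1 : S_CPR) (_g2 : S_TM1) (g3 : S_TM2) (_g4 : S_CON) : S_CLT := by
  intro c d hAdc k V hk hkV hq x
  have hd : Ad d := hAdc.toAd
  obtain ⟨hle, hdl1, hℓ, hrat, hdif⟩ := scales hd hq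
  have hL := TMB.lam_tendsto hd
  have hs : Tendsto (fun T : ℝ => Real.sqrt (Real.log (Real.log T) / 2)) atTop atTop :=
    Real.tendsto_sqrt_atTop.comp (hℓ.atTop_div_const (by norm_num))
  have hσ := TMB.sq_tendsto hd
  have hlt : ∀ᶠ T in atTop, d T < 1 / 2 := hd.t0.eventually_lt_const (by norm_num)
  rw [Metric.tendsto_atTop']
  intro tol htol
  obtain ⟨a, ha⟩ : ∃ a : ℝ, a = (aC k).re := ⟨_, rfl⟩
  rw [← ha]
  obtain ⟨ε, hε⟩ : ∃ ε : ℝ, ε = tol / (8 * (|a| + 1)) := ⟨_, rfl⟩
  have ha1 : 0 < |a| + 1 := by positivity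
  have hε0 : 0 < ε := by rw [hε]; positivity
  have hεa : |a| * (2 * ε) ≤ tol / 4 := by
    have e : (|a| + 1) * (2 * ε) = tol / 4 := by
      rw [hε]
      field_simp
      norm_num
    nlinarith
  -- the exceptional set
  have hE := g1 c d hAdc k V hk (fun T => ε * Real.sqrt (Real.log (Real.log T) / 2)) (by
    have h1 : Tendsto (fun T : ℝ => Real.log (2 + d T * Real.log T) /
        (ε * Real.sqrt (Real.log (Real.log T) / 2))) atTop (𝓝[>] 0) := by
      rw [tendsto_nhdsWithin_iff]
      constructor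
      · have h2 := hq.const_mul (Real.sqrt 2 / ε)
        rw [mul_zero] at h2
        refine h2.congr' ?_
        filter_upwards [hℓ.eventually_gt_atTop 0] with T hT
        rw [Real.sqrt_div hT.le]
        have h7 : 0 < Real.sqrt (Real.log (Real.log T)) := Real.sqrt_pos.2 hT
        have h9 : 0 < Real.sqrt 2 := Real.sqrt_pos.2 (by norm_num)
        field_simp
      · filter_upwards [hdl1, hs.eventually_gt_atTop 0] with T h1 h2
        have h3 : 0 < Real.log (2 + d T * Real.log T) := Real.log_pos (by linarith)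
        exact div_pos h3 (mul_pos hε0 h2)
    have h4 := h1.inv_tendsto_nhdsGT_zero
    refine h4.congr fun T => ?_
    rw [Pi.inv_apply, inv_div])
  have hU := g3 d hd k (x + 2 * ε) (by linarith)
  have hD := g3 d hd k (x - 2 * ε) (by linarith)
  rw [← ha] at hU hD
  have eE := hE.eventually (Metric.ball_mem_nhds 0 (show 0 < tol / 4 by positivity))
  have eU := hU.eventually (Metric.ball_mem_nhds _ (show 0 < tol / 4 by positivity))
  have eD := hD.eventually (Metric.ball_mem_nhds _ (show 0 < tol / 4 by positivity))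
  -- the inequalities between the scales
  have s1 : ∀ᶠ T : ℝ in atTop, k * ((Real.log (Real.log T) - Real.log (1 / (2 * d T))) /
      Real.sqrt (Real.log (Real.log T) / 2)) ≤ ε / 2 := by
    have := hrat.const_mul k
    rw [mul_zero] at this
    exact this.eventually_le_const (by positivity)
  have s2 : ∀ y : ℝ, ∀ᶠ T : ℝ in atTop, |y * (Real.sqrt (Real.log (Real.log T) / 2) -
      Real.sqrt (Real.log (1 / (2 * d T)) / 2))| ≤ ε / 2 := by
    intro y
    have := (hdif.const_mul y).abs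
    rw [mul_zero, abs_zero] at this
    exact this.eventually_le_const (by positivity)
  have s3 : ∀ᶠ T : ℝ in atTop, x - 2 * ε ≤
      2 * (V - k) * Real.sqrt (Real.log (1 / (2 * d T)) / 2) :=
    (hσ.const_mul_atTop (show 0 < 2 * (V - k) by linarith)).eventually_ge_atTop _
  have fin : ∀ᶠ T : ℝ in atTop, dist ((2 * d T) ^ (k ^ 2) * ((1 / T) *
    ∫ t in {t : ℝ | t ∈ GT V (d T) T ∧
      Real.log (zh t) ≤ k * Real.log (Real.log T) + x * Real.sqrt (Real.log (Real.log T) / 2)},
        mz (d T) t ^ (2 * k))) (a * Phi x) < tol := by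
    filter_upwards [eE, eU, eD, s1, s2 (x + 2 * ε), s2 (x - 2 * ε), s3, hle, hlt, hd.pos,
      eventually_ge_atTop 1, hs.eventually_ge_atTop 1, hL.eventually_ge_atTop 0] with
      T eE eU eD s1 s2 s2' s3 hle hlt hpos hT1 hs1 hL0
    obtain ⟨ℓ, hℓd⟩ : ∃ ℓ : ℝ, ℓ = Real.log (Real.log T) := ⟨_, rfl⟩
    obtain ⟨L, hLd⟩ : ∃ L : ℝ, L = Real.log (1 / (2 * d T)) := ⟨_, rfl⟩
    obtain ⟨s, hsd⟩ : ∃ s : ℝ, s = Real.sqrt (Real.log (Real.log T) / 2) := ⟨_, rfl⟩
    obtain ⟨σ, hσd⟩ : ∃ σ : ℝ, σ = Real.sqrt (Real.log (1 / (2 * d T)) / 2) := ⟨_, rfl⟩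
    rw [← hsd] at s1 s2 s2' eE hs1
    rw [← hσd] at s2 s2' s3 eU eD
    rw [← hℓd] at hle s1
    rw [← hLd] at s1 hle hL0
    rw [← hsd, ← hℓd]
    have hσ2 : σ ^ 2 = L / 2 := by
      rw [hσd, ← hLd]
      exact Real.sq_sqrt (by linarith)
    have hσ0 : 0 ≤ σ := by rw [hσd]; exact Real.sqrt_nonneg _
    have hs0 : 0 < s := by linarith
    have b1 : k * (ℓ - L) ≤ ε / 2 * s := by
      rw [← mul_div_assoc, div_le_iff₀ hs0] at s1
      exact s1
    have b2 := (abs_le.1 s2)
    have b3 := (abs_le.1 s2')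
    have b4 : ε / 2 ≤ ε / 2 * s := le_mul_of_one_le_right (by positivity) hs1
    have b5 : 0 ≤ k * (ℓ - L) := mul_nonneg (by linarith) (by linarith)
    -- upper inequality
    have up : k * ℓ + x * s + ε * s ≤ k * L + (x + 2 * ε) * σ := by
      nlinarith [b2.2]
    -- lower inequality
    have lo : k * L + (x - 2 * ε) * σ + ε * s ≤ k * ℓ + x * s := by
      nlinarith [b3.1]
    have lev : k * L + (x - 2 * ε) * σ ≤ V * L := by
      have : (x - 2 * ε) * σ ≤ 2 * (V - k) * σ * σ := mul_le_mul_of_nonneg_right s3 hσ0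
      nlinarith
    -- the sets
    obtain ⟨f, hf⟩ : ∃ f : ℝ → ℝ, f = fun t => mz (d T) t ^ (2 * k) := ⟨_, rfl⟩
    obtain ⟨A, hA⟩ : ∃ A : Set ℝ, A = {t : ℝ | t ∈ GT V (d T) T ∧ Real.log (zh t) ≤ k * ℓ + x * s} :=
      ⟨_, rfl⟩
    obtain ⟨E, hEd⟩ : ∃ E : Set ℝ, E = {t : ℝ | t ∈ GT V (d T) T ∧
        ε * s < |Real.log (zh t) - Real.log (mz (d T) t)|} := ⟨_, rfl⟩
    obtain ⟨B, hB⟩ : ∃ B : ℝ → Set ℝ, B = fun y => {t : ℝ | t ∈ Set.Icc 0 T ∧
        mz (d T) t ≤ (2 * d T) ^ (-k) * Real.exp (y * σ)} := ⟨_, rfl⟩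
    have hmz : Measurable (mz (d T)) := TMC.mz_meas hlt
    have hzl : Measurable (fun t => Real.log (zh t)) := Real.measurable_log.comp zh_cont.measurable
    have hml : Measurable (fun t => Real.log (mz (d T) t)) := Real.measurable_log.comp hmz
    have hGm : MeasurableSet (GT V (d T) T) :=
      measurableSet_Icc.inter (measurableSet_le hmz measurable_const)
    have hAm : MeasurableSet A := by
      rw [hA]
      exact hGm.inter (measurableSet_le hzl measurable_const)
    have hEm : MeasurableSet E := by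
      rw [hEd]
      exact hGm.inter (measurableSet_lt measurable_const (hzl.sub hml).abs)
    have hBm : ∀ y, MeasurableSet (B y) := by
      intro y
      rw [hB]
      exact measurableSet_Icc.inter (measurableSet_le hmz measurable_const)
    have hAs : A ⊆ Set.Icc 0 T := by rw [hA]; exact fun t ht => ht.1.1
    have hEs : E ⊆ Set.Icc 0 T := by rw [hEd]; exact fun t ht => ht.1.1
    have hBs : ∀ y, B y ⊆ Set.Icc 0 T := by intro y; rw [hB]; exact fun t ht => ht.1
    have hf0 : ∀ t, 0 ≤ f t := by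
      intro t
      rw [hf]
      exact Real.rpow_nonneg (norm_nonneg _) _
    have hfi : IntegrableOn f (Set.Icc 0 T) := by
      rw [hf]
      have hc : Continuous (fun t => mz (d T) t ^ (2 * k)) :=
        (TMC.zc hlt).norm.rpow_const fun t => Or.inr (by linarith)
      exact hc.continuousOn.integrableOn_Icc
    have hBeq : ∀ y t, mz (d T) t ≠ 0 → (mz (d T) t ≤ (2 * d T) ^ (-k) * Real.exp (y * σ) ↔
        Real.log (mz (d T) t) ≤ k * L + y * σ) := by
      intro y t ht
      have ht' : 0 < mz (d T) t := lt_of_le_of_ne (norm_nonneg _) (Ne.symm ht)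
      rw [TMC.level hpos, ← hLd, ← Real.exp_add, Real.log_le_iff_le_exp ht']
    have hGeq : ∀ t, mz (d T) t ≠ 0 → (mz (d T) t ≤ (2 * d T) ^ (-V) ↔
        Real.log (mz (d T) t) ≤ V * L) := by
      intro t ht
      have ht' : 0 < mz (d T) t := lt_of_le_of_ne (norm_nonneg _) (Ne.symm ht)
      rw [TMC.level hpos, ← hLd, Real.log_le_iff_le_exp ht']
    have i1 : ∫ t in A, f t ≤ (∫ t in E, f t) + ∫ t in B (x + 2 * ε), f t := by
      refine le3 hf0 hfi hEm (hBm _) hEs (hBs _) ?_
      filter_upwards [TMC.ae_ne hlt] with t ht h1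
      rw [hA] at h1
      obtain ⟨h2, h3⟩ := h1
      by_cases h4 : ε * s < |Real.log (zh t) - Real.log (mz (d T) t)|
      · left
        rw [hEd]
        exact ⟨h2, h4⟩
      · right
        rw [hB]
        refine ⟨h2.1, (hBeq _ t ht).2 ?_⟩
        have h5 := (abs_le.1 (not_lt.1 h4)).1
        linarith
    have i2 : ∫ t in B (x - 2 * ε), f t ≤ (∫ t in E, f t) + ∫ t in A, f t := by
      refine le3 hf0 hfi hEm hAm hEs hAs ?_
      filter_upwards [TMC.ae_ne hlt] with t ht h1
      rw [hB] at h1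
      obtain ⟨h2, h3⟩ := h1
      have h3' := (hBeq _ t ht).1 h3
      have h6 : t ∈ GT V (d T) T := ⟨h2, (hGeq t ht).2 (h3'.trans lev)⟩
      by_cases h4 : ε * s < |Real.log (zh t) - Real.log (mz (d T) t)|
      · left
        rw [hEd]
        exact ⟨h6, h4⟩
      · right
        rw [hA]
        refine ⟨h6, ?_⟩
        have h5 := (abs_le.1 (not_lt.1 h4)).2
        linarith
    -- normalisation
    obtain ⟨w, hw⟩ : ∃ w : ℝ, w = (2 * d T) ^ (k ^ 2) * (1 / T) := ⟨_, rfl⟩
    have hw0 : 0 ≤ w := by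
      rw [hw]
      positivity
    have hML : ∀ y, (2 * d T) ^ (k ^ 2) * ML k ((2 * d T) ^ (-k) * Real.exp (y * σ)) (d T) T =
        w * ∫ t in B y, f t := by
      intro y
      rw [hw, hB, hf]
      unfold ML
      ring
    rw [hML] at eU eD
    have hEe : (2 * d T) ^ (k ^ 2) * ((1 / T) * ∫ t in {t : ℝ | t ∈ GT V (d T) T ∧
        ε * s < |Real.log (zh t) - Real.log (mz (d T) t)|}, mz (d T) t ^ (2 * k)) =
        w * ∫ t in E, f t := by
      rw [hw, hEd, hf]
      ring
    rw [hEe] at eE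
    have hAe : (2 * d T) ^ (k ^ 2) * ((1 / T) * ∫ t in {t : ℝ | t ∈ GT V (d T) T ∧
        Real.log (zh t) ≤ k * ℓ + x * s}, mz (d T) t ^ (2 * k)) = w * ∫ t in A, f t := by
      rw [hw, hA, hf]
      ring
    rw [hAe]
    rw [Real.dist_eq] at eE eU eD
    rw [sub_zero] at eE
    have j1 := mul_le_mul_of_nonneg_left i1 hw0
    have j2 := mul_le_mul_of_nonneg_left i2 hw0
    rw [mul_add] at j1 j2
    have p1 : |a * Phi (x + 2 * ε) - a * Phi x| ≤ tol / 4 := by
      rw [← mul_sub, abs_mul]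
      refine le_trans (mul_le_mul_of_nonneg_left (Phi_lip x (x + 2 * ε)) (abs_nonneg a)) ?_
      rw [show x + 2 * ε - x = 2 * ε by ring, abs_of_pos (by linarith : 0 < 2 * ε)]
      exact hεa
    have p2 : |a * Phi (x - 2 * ε) - a * Phi x| ≤ tol / 4 := by
      rw [← mul_sub, abs_mul]
      refine le_trans (mul_le_mul_of_nonneg_left (Phi_lip x (x - 2 * ε)) (abs_nonneg a)) ?_
      rw [show x - 2 * ε - x = -(2 * ε) by ring, abs_neg, abs_of_pos (by linarith : 0 < 2 * ε)]
      exact hεa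
    rw [Real.dist_eq, abs_lt]
    obtain ⟨q1, q2⟩ := abs_lt.1 eE
    obtain ⟨q3, q4⟩ := abs_lt.1 eU
    obtain ⟨q5, q6⟩ := abs_lt.1 eD
    obtain ⟨q7, q8⟩ := abs_le.1 p1
    obtain ⟨q9, q10⟩ := abs_le.1 p2
    constructor <;> linarith
  obtain ⟨M, hM⟩ := eventually_atTop.1 fin
  exact ⟨M, fun T hT => hM T (le_of_lt hT)⟩

end Pool.Agent.N748.OL.CLT
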