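import Pool.Agent.N748.OL.Stm
import Pool.Agent.N748.MG.TMC

set_option autoImplicit false

/-!
# CPR: zeta on the line and near it (helper704)
-/

namespace Pool.Agent.N748.OL.CPR

open Finset Filter MeasureTheory Topology Complex
open Pool.Agent.N748.MG Pool.Agent.N748.MO

theorem zh_cont : Continuous zh := by
  have h : ∀ t : ℝ, (1 / 2 + t * I : ℂ) ≠ 1 := by
    intro t h'
    have := congrArg Complex.re h'
    simp at this
  rw [continuous_iff_continuousAt]
  intro t
  have h1 : ContinuousAt (fun t : ℝ => (1 / 2 + t * I : ℂ)) t := by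
    have : Continuous (fun t : ℝ => (1 / 2 + t * I : ℂ)) := by fun_prop
    exact this.continuousAt
  exact (ContinuousAt.comp (g := riemannZeta) (f := fun t : ℝ => (1 / 2 + t * I : ℂ))
    (differentiableAt_riemannZeta (h t)).continuousAt h1).norm

theorem mz_nn (δ t : ℝ) : 0 ≤ mz δ t := norm_nonneg _

/-- the two values are comparable -/
theorem cmp {a b K : ℝ} (ha : 0 < a) (hb : 0 < b) (hK : 1 ≤ K) (h : b ^ 2 / a ^ 2 + a ^ 2 / b ^ 2 ≤ K) :
    a ≤ Real.sqrt K * b ∧ b ≤ Real.sqrt K * a ∧ |Real.log a - Real.log b| ≤ Real.log K / 2 := by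
  have hK0 : 0 < K := by linarith
  have h1 : 0 ≤ b ^ 2 / a ^ 2 := by positivity
  have h2 : 0 ≤ a ^ 2 / b ^ 2 := by positivity
  have h3 : a ^ 2 ≤ K * b ^ 2 := by
    have : a ^ 2 / b ^ 2 ≤ K := by linarith
    rwa [div_le_iff₀ (by positivity)] at this
  have h4 : b ^ 2 ≤ K * a ^ 2 := by
    have : b ^ 2 / a ^ 2 ≤ K := by linarith
    rwa [div_le_iff₀ (by positivity)] at this
  have hs : Real.sqrt K ^ 2 = K := Real.sq_sqrt hK0.le
  have hs0 : 0 < Real.sqrt K := Real.sqrt_pos.2 hK0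
  have h5 : a ≤ Real.sqrt K * b := by
    apply le_of_sq_le_sq _ (by positivity)
    rw [mul_pow, hs]
    exact h3
  have h6 : b ≤ Real.sqrt K * a := by
    apply le_of_sq_le_sq _ (by positivity)
    rw [mul_pow, hs]
    exact h4
  refine ⟨h5, h6, ?_⟩
  have h7 := Real.log_le_log ha h5
  have h8 := Real.log_le_log hb h6
  rw [Real.log_mul hs0.ne' hb.ne', Real.log_sqrt hK0.le] at h7
  rw [Real.log_mul hs0.ne' ha.ne', Real.log_sqrt hK0.le] at h8
  rw [abs_le]
  constructor <;> linarith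

/-- the level sets are measurable -/
theorem GT_meas {V δ T : ℝ} (h1 : δ ≤ 1 / 16) : MeasurableSet (GT V δ T) := by
  have hz : Measurable (mz δ) := TMC.mz_meas (by linarith)
  exact measurableSet_Icc.inter (measurableSet_le hz measurable_const)

theorem core {δ T k V η K e1 e2 R1 A1 : ℝ} (h0 : 0 < δ) (h1 : δ ≤ 1 / 16) (hk : 0 < k)
    (hη : 0 < η) (hK : 1 ≤ K) (hK1 : Real.sqrt K * (2 * δ) ≤ 1) (hK2 : Real.log K ≤ η)
    (he1 : 0 ≤ e1) (he2 : 0 ≤ e2) (hR1 : 0 ≤ R1) (hA1 : 0 ≤ A1)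
    (hR : ∀ x : ℝ, |x| ≤ 1 → ∃ E : Set ℝ, MeasurableSet E ∧ E ⊆ Set.Icc 0 T ∧
      volume E ≤ ENNReal.ofReal e1 ∧
      (∀ t ∈ Set.Icc 0 T \ E, mz δ t ≠ 0 ∧ mz δ (t + δ * x) ≠ 0) ∧
      IntegrableOn (fun t => mz δ t ^ (2 * k) * (mz δ (t + δ * x) ^ 2 / mz δ t ^ 2 +
        mz δ t ^ 2 / mz δ (t + δ * x) ^ 2)) (Set.Icc 0 T \ E) ∧
      ∫ t in Set.Icc 0 T \ E, mz δ t ^ (2 * k) * (mz δ (t + δ * x) ^ 2 / mz δ t ^ 2 +
        mz δ t ^ 2 / mz δ (t + δ * x) ^ 2) ≤ R1)
    (hA : ∃ E : Set ℝ, MeasurableSet E ∧ E ⊆ Set.Icc 0 T ∧ volume E ≤ ENNReal.ofReal e2 ∧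
      ∫⁻ t in GT (V + 1) δ T \ E, ENNReal.ofReal (mz δ t ^ (2 * k)) *
        ∫⁻ x in Set.Icc (-1:ℝ) 1, ENNReal.ofReal |Real.log (zh (t + δ * x)) - Real.log (mz δ t)| ≤
        ENNReal.ofReal A1) :
    ∫⁻ t in {t : ℝ | t ∈ GT V δ T ∧ η < |Real.log (zh t) - Real.log (mz δ t)|},
      ENNReal.ofReal (mz δ t ^ (2 * k)) ≤
      ENNReal.ofReal (((2 * δ) ^ (-V)) ^ (2 * k) * e1 + R1 / K +
        K ^ k * (A1 / η + ((2 * δ) ^ (-(V + 1))) ^ (2 * k) * (e2 + 2 * δ))) := by
  have hz : Measurable (mz δ) := TMC.mz_meas (by linarith)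
  have hzh : Measurable zh := zh_cont.measurable
  obtain ⟨E, hE1, hE2, hE3, hE4⟩ := hA
  obtain ⟨f, hf⟩ : ∃ f : ℝ → ENNReal, f = fun t => ENNReal.ofReal (mz δ t ^ (2 * k)) := ⟨_, rfl⟩
  have hfm : Measurable f := by
    rw [hf]
    exact (hz.pow_const _).ennreal_ofReal
  obtain ⟨h, hh⟩ : ∃ h : ℝ → ℝ → ENNReal, h = fun t y =>
    ENNReal.ofReal |Real.log (zh (t + δ * y)) - Real.log (mz δ t)| := ⟨_, rfl⟩
  have hhm : Measurable (Function.uncurry h) := by
    rw [hh]
    have m1 : Measurable fun p : ℝ × ℝ => zh (p.1 + δ * p.2) :=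
      hzh.comp (measurable_fst.add (measurable_snd.const_mul δ))
    have m2 : Measurable fun p : ℝ × ℝ => mz δ p.1 := hz.comp measurable_fst
    have m3 : Measurable fun p : ℝ × ℝ => |Real.log (zh (p.1 + δ * p.2)) - Real.log (mz δ p.1)| :=
      ((Real.measurable_log.comp m1).sub (Real.measurable_log.comp m2)).abs
    exact m3.ennreal_ofReal
  obtain ⟨B, hB⟩ : ∃ B : Set ℝ, B = {t : ℝ | t ∈ GT V δ T ∧
    η < |Real.log (zh t) - Real.log (mz δ t)|} := ⟨_, rfl⟩
  have hBm : MeasurableSet B := by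
    rw [hB]
    have m3 : Measurable fun t : ℝ => |Real.log (zh t) - Real.log (mz δ t)| :=
      ((Real.measurable_log.comp hzh).sub (Real.measurable_log.comp hz)).abs
    exact (GT_meas h1).inter (measurableSet_lt measurable_const m3)
  obtain ⟨S, hS⟩ : ∃ S : Set ℝ, S = GT (V + 1) δ T \ E := ⟨_, rfl⟩
  have hSm : MeasurableSet S := by
    rw [hS]
    exact (GT_meas h1).diff hE1
  obtain ⟨M, hM⟩ : ∃ M : ℝ, M = ((2 * δ) ^ (-(V + 1))) ^ (2 * k) := ⟨_, rfl⟩
  have hM0 : 0 ≤ M := by rw [hM]; positivity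
  obtain ⟨M1, hM1⟩ : ∃ M1 : ℝ, M1 = ((2 * δ) ^ (-V)) ^ (2 * k) := ⟨_, rfl⟩
  have hM10 : 0 ≤ M1 := by rw [hM1]; positivity
  -- the bound for every shift
  have key : ∀ y ∈ Set.Icc (-1:ℝ) 1, ∫⁻ t in B, f t ≤
      ENNReal.ofReal (M1 * e1 + R1 / K) + ENNReal.ofReal (K ^ k) *
        (ENNReal.ofReal (2 / η) * (∫⁻ t in S, f t * h t y) + ENNReal.ofReal (M * (e2 + 2 * δ))) := by
    intro y hy
    obtain ⟨F, hF1, hF2, hF3, hF4, hF5, hF6⟩ := hR (-y) (by rw [abs_neg]; exact abs_le.2 hy)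
    obtain ⟨s, hs⟩ : ∃ s : ℝ, s = δ * (-y) := ⟨_, rfl⟩
    simp only [← hs] at hF4 hF5 hF6
    have hsb : |s| ≤ δ := by
      rw [hs, abs_mul, abs_neg, abs_of_pos h0]
      exact mul_le_of_le_one_right h0.le (abs_le.2 hy)
    rw [abs_le] at hsb
    obtain ⟨Rf, hRf⟩ : ∃ Rf : ℝ → ℝ, Rf = fun t => mz δ (t + s) ^ 2 / mz δ t ^ 2 +
      mz δ t ^ 2 / mz δ (t + s) ^ 2 := ⟨_, rfl⟩
    have hzs : Measurable fun t => mz δ (t + s) := hz.comp (measurable_id.add_const s)
    have hRfm : Measurable Rf := by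
      rw [hRf]
      exact ((hzs.pow_const 2).div (hz.pow_const 2)).add ((hz.pow_const 2).div (hzs.pow_const 2))
    have hRf0 : ∀ t, 0 ≤ Rf t := by
      intro t
      rw [hRf]
      positivity
    obtain ⟨P2, hP2⟩ : ∃ P2 : Set ℝ, P2 = {t | t ∈ Set.Icc 0 T \ F ∧ K < Rf t} := ⟨_, rfl⟩
    obtain ⟨P3, hP3⟩ : ∃ P3 : Set ℝ, P3 = {t | t ∈ B \ F ∧ Rf t ≤ K} := ⟨_, rfl⟩
    have hP2m : MeasurableSet P2 := by
      rw [hP2]
      exact (measurableSet_Icc.diff hF1).inter (measurableSet_lt measurable_const hRfm)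
    have hP3m : MeasurableSet P3 := by
      rw [hP3]
      exact (hBm.diff hF1).inter (measurableSet_le hRfm measurable_const)
    have hBT : ∀ t ∈ B, t ∈ Set.Icc 0 T ∧ mz δ t ≤ (2 * δ) ^ (-V) ∧
        η < |Real.log (zh t) - Real.log (mz δ t)| := by
      intro t ht
      rw [hB] at ht
      exact ⟨ht.1.1, ht.1.2, ht.2⟩
    have hcov : B ⊆ (B ∩ F) ∪ (P2 ∪ P3) := by
      intro t ht
      by_cases h2 : t ∈ F
      · exact Or.inl ⟨ht, h2⟩
      · refine Or.inr ?_
        by_cases h3 : K < Rf t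
        · left
          rw [hP2]
          exact ⟨⟨(hBT t ht).1, h2⟩, h3⟩
        · right
          rw [hP3]
          exact ⟨⟨ht, h2⟩, not_lt.1 h3⟩
    have b1 : ∫⁻ t in B ∩ F, f t ≤ ENNReal.ofReal (M1 * e1) := by
      calc ∫⁻ t in B ∩ F, f t ≤ ∫⁻ _t in B ∩ F, ENNReal.ofReal M1 := by
            refine setLIntegral_mono measurable_const fun t ht => ?_
            rw [hf, hM1]
            exact ENNReal.ofReal_le_ofReal (Real.rpow_le_rpow (mz_nn δ t) (hBT t ht.1).2.1
              (by positivity))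
        _ = ENNReal.ofReal M1 * volume (B ∩ F) := setLIntegral_const _ _
        _ ≤ ENNReal.ofReal M1 * ENNReal.ofReal e1 := by
            gcongr
            exact (measure_mono Set.inter_subset_right).trans hF3
        _ = _ := (ENNReal.ofReal_mul hM10).symm
    have b2 : ∫⁻ t in P2, f t ≤ ENNReal.ofReal (R1 / K) := by
      have hint : IntegrableOn (fun t => mz δ t ^ (2 * k) * Rf t / K) (Set.Icc 0 T \ F) := by
        rw [hRf]
        exact hF5.div_const K
      calc ∫⁻ t in P2, f t ≤ ∫⁻ t in P2, ENNReal.ofReal (mz δ t ^ (2 * k) * Rf t / K) := by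
            refine setLIntegral_mono' hP2m fun t ht => ?_
            rw [hf]
            refine ENNReal.ofReal_le_ofReal ?_
            rw [hP2] at ht
            rw [le_div_iff₀ (by linarith)]
            exact mul_le_mul_of_nonneg_left ht.2.le (Real.rpow_nonneg (mz_nn δ t) _)
        _ ≤ ∫⁻ t in Set.Icc 0 T \ F, ENNReal.ofReal (mz δ t ^ (2 * k) * Rf t / K) := by
            refine lintegral_mono_set fun t ht => ?_
            rw [hP2] at ht
            exact ht.1
        _ = ENNReal.ofReal (∫ t in Set.Icc 0 T \ F, mz δ t ^ (2 * k) * Rf t / K) := by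
            rw [ofReal_integral_eq_lintegral_ofReal hint]
            refine Eventually.of_forall fun t => ?_
            have := Real.rpow_nonneg (mz_nn δ t) (2 * k)
            have := hRf0 t
            change 0 ≤ mz δ t ^ (2 * k) * Rf t / K
            positivity
        _ ≤ _ := by
            refine ENNReal.ofReal_le_ofReal ?_
            rw [integral_div]
            rw [hRf]
            exact div_le_div_of_nonneg_right hF6 (by linarith)
    obtain ⟨Q, hQ⟩ : ∃ Q : Set ℝ, Q = {t | t ∈ Set.Icc (-δ) (T + δ) ∧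
      mz δ t ≤ (2 * δ) ^ (-(V + 1)) ∧ η / 2 < |Real.log (zh (t + δ * y)) - Real.log (mz δ t)|} :=
      ⟨_, rfl⟩
    have hQm : MeasurableSet Q := by
      rw [hQ]
      have m3 : Measurable fun t : ℝ => |Real.log (zh (t + δ * y)) - Real.log (mz δ t)| :=
        ((Real.measurable_log.comp (hzh.comp (measurable_id.add_const (δ * y)))).sub
          (Real.measurable_log.comp hz)).abs
      exact measurableSet_Icc.inter ((measurableSet_le hz measurable_const).inter
        (measurableSet_lt measurable_const m3))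
    have hpt : ∀ t ∈ P3, t + s ∈ Q ∧ f t ≤ ENNReal.ofReal (K ^ k) * f (t + s) := by
      intro t ht
      rw [hP3] at ht
      obtain ⟨⟨ht1, ht2⟩, ht3⟩ := ht
      obtain ⟨c1, c2, c3⟩ := hBT t ht1
      obtain ⟨n1, n2⟩ := hF4 t ⟨c1, ht2⟩
      have a0 : 0 < mz δ t := lt_of_le_of_ne (mz_nn δ t) (Ne.symm n1)
      have b0 : 0 < mz δ (t + s) := lt_of_le_of_ne (mz_nn δ _) (Ne.symm n2)
      have ht3' : mz δ (t + s) ^ 2 / mz δ t ^ 2 + mz δ t ^ 2 / mz δ (t + s) ^ 2 ≤ K := by
        rw [hRf] at ht3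
        exact ht3
      obtain ⟨q1, q2, q3⟩ := cmp a0 b0 hK ht3'
      have hKs : 0 ≤ Real.sqrt K := Real.sqrt_nonneg K
      constructor
      · rw [hQ]
        refine ⟨⟨by linarith [c1.1], by linarith [c1.2]⟩, ?_, ?_⟩
        · have e1' : (2 * δ) ^ (-V) = (2 * δ) * (2 * δ) ^ (-(V + 1)) := by
            rw [show -V = 1 + -(V + 1) by ring, Real.rpow_add (by positivity), Real.rpow_one]
          have hp : 0 ≤ (2 * δ) ^ (-(V + 1)) := by positivity
          calc mz δ (t + s) ≤ Real.sqrt K * mz δ t := q2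
            _ ≤ Real.sqrt K * (2 * δ) ^ (-V) := mul_le_mul_of_nonneg_left c2 hKs
            _ = (Real.sqrt K * (2 * δ)) * (2 * δ) ^ (-(V + 1)) := by rw [e1']; ring
            _ ≤ 1 * (2 * δ) ^ (-(V + 1)) := mul_le_mul_of_nonneg_right hK1 hp
            _ = _ := one_mul _
        · have e2' : t + s + δ * y = t := by rw [hs]; ring
          rw [e2']
          have h5 : |Real.log (zh t) - Real.log (mz δ t)| ≤
              |Real.log (zh t) - Real.log (mz δ (t + s))| +
                |Real.log (mz δ t) - Real.log (mz δ (t + s))| := by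
            have e3 : Real.log (zh t) - Real.log (mz δ t) =
                (Real.log (zh t) - Real.log (mz δ (t + s))) -
                  (Real.log (mz δ t) - Real.log (mz δ (t + s))) := by ring
            rw [e3]
            exact abs_sub _ _
          linarith
      · rw [hf]
        change ENNReal.ofReal (mz δ t ^ (2 * k)) ≤
          ENNReal.ofReal (K ^ k) * ENNReal.ofReal (mz δ (t + s) ^ (2 * k))
        rw [← ENNReal.ofReal_mul (by positivity)]
        refine ENNReal.ofReal_le_ofReal ?_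
        have e4 : Real.sqrt K ^ (2 * k) = K ^ k := by
          rw [Real.sqrt_eq_rpow, ← Real.rpow_mul (by linarith)]
          congr 1
          ring
        calc mz δ t ^ (2 * k) ≤ (Real.sqrt K * mz δ (t + s)) ^ (2 * k) :=
              Real.rpow_le_rpow a0.le q1 (by positivity)
          _ = K ^ k * mz δ (t + s) ^ (2 * k) := by rw [Real.mul_rpow hKs b0.le, e4]
    have b3 : ∫⁻ t in P3, f t ≤ ENNReal.ofReal (K ^ k) * ∫⁻ t in Q, f t := by
      calc ∫⁻ t in P3, f t = ∫⁻ t, P3.indicator f t := (lintegral_indicator hP3m f).symm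
        _ ≤ ∫⁻ t, ENNReal.ofReal (K ^ k) * Q.indicator f (t + s) := by
            refine lintegral_mono fun t => ?_
            by_cases ht : t ∈ P3
            · rw [Set.indicator_of_mem ht, Set.indicator_of_mem (hpt t ht).1]
              exact (hpt t ht).2
            · rw [Set.indicator_of_notMem ht]
              exact zero_le
        _ = ENNReal.ofReal (K ^ k) * ∫⁻ t, Q.indicator f (t + s) :=
            lintegral_const_mul' _ _ ENNReal.ofReal_ne_top
        _ = ENNReal.ofReal (K ^ k) * ∫⁻ t, Q.indicator f t := by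
            rw [lintegral_add_right_eq_self (fun t => Q.indicator f t) s]
        _ = _ := by rw [lintegral_indicator hQm]
    obtain ⟨W, hW⟩ : ∃ W : Set ℝ, W = {t | t ∈ E ∪ (Set.Icc (-δ) 0 ∪ Set.Icc T (T + δ)) ∧
      mz δ t ≤ (2 * δ) ^ (-(V + 1))} := ⟨_, rfl⟩
    have hQW : Q ⊆ (Q ∩ S) ∪ W := by
      intro t ht
      have ht' := ht
      rw [hQ] at ht'
      obtain ⟨c1, c2, c3⟩ := ht'
      by_cases hE : t ∈ E
      · right
        rw [hW]
        exact ⟨Or.inl hE, c2⟩
      · rcases lt_or_ge t 0 with h5 | h5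
        · right
          rw [hW]
          exact ⟨Or.inr (Or.inl ⟨c1.1, h5.le⟩), c2⟩
        · rcases lt_or_ge T t with h6 | h6
          · right
            rw [hW]
            exact ⟨Or.inr (Or.inr ⟨h6.le, c1.2⟩), c2⟩
          · left
            refine ⟨ht, ?_⟩
            rw [hS]
            exact ⟨⟨⟨h5, h6⟩, c2⟩, hE⟩
    have b4 : ∫⁻ t in Q ∩ S, f t ≤ ENNReal.ofReal (2 / η) * ∫⁻ t in S, f t * h t y := by
      calc ∫⁻ t in Q ∩ S, f t ≤ ∫⁻ t in Q ∩ S, ENNReal.ofReal (2 / η) * (f t * h t y) := by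
            refine setLIntegral_mono' (hQm.inter hSm) fun t ht => ?_
            have h5 := ht.1
            rw [hQ] at h5
            obtain ⟨c1, c2, c3⟩ := h5
            have h6 : (1 : ENNReal) ≤ ENNReal.ofReal (2 / η) * h t y := by
              rw [hh, ← ENNReal.ofReal_mul (by positivity), ← ENNReal.ofReal_one]
              refine ENNReal.ofReal_le_ofReal ?_
              have : (2 / η) * (η / 2) ≤
                  (2 / η) * |Real.log (zh (t + δ * y)) - Real.log (mz δ t)| :=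
                mul_le_mul_of_nonneg_left c3.le (by positivity)
              have e5 : (2 / η) * (η / 2) = 1 := by field_simp
              linarith
            calc f t = f t * 1 := (mul_one _).symm
              _ ≤ f t * (ENNReal.ofReal (2 / η) * h t y) := by gcongr
              _ = _ := by ring
        _ ≤ ∫⁻ t in S, ENNReal.ofReal (2 / η) * (f t * h t y) :=
            lintegral_mono_set Set.inter_subset_right
        _ = _ := lintegral_const_mul' _ _ ENNReal.ofReal_ne_top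
    have b5 : ∫⁻ t in W, f t ≤ ENNReal.ofReal (M * (e2 + 2 * δ)) := by
      calc ∫⁻ t in W, f t ≤ ∫⁻ _t in W, ENNReal.ofReal M := by
            refine setLIntegral_mono measurable_const fun t ht => ?_
            rw [hW] at ht
            rw [hf, hM]
            exact ENNReal.ofReal_le_ofReal (Real.rpow_le_rpow (mz_nn δ t) ht.2 (by positivity))
        _ = ENNReal.ofReal M * volume W := setLIntegral_const _ _
        _ ≤ ENNReal.ofReal M * (ENNReal.ofReal e2 + (ENNReal.ofReal δ + ENNReal.ofReal δ)) := by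
            gcongr
            have h5 : W ⊆ E ∪ (Set.Icc (-δ) 0 ∪ Set.Icc T (T + δ)) := by
              intro t ht
              rw [hW] at ht
              exact ht.1
            refine (measure_mono h5).trans ((measure_union_le _ _).trans ?_)
            refine add_le_add hE3 ((measure_union_le _ _).trans ?_)
            rw [Real.volume_Icc, Real.volume_Icc, zero_sub, neg_neg, add_sub_cancel_left]
        _ = _ := by
            rw [← ENNReal.ofReal_add h0.le h0.le, ← ENNReal.ofReal_add he2 (by positivity),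
              ← ENNReal.ofReal_mul hM0]
            congr 1
            ring
    have b6 : ∫⁻ t in Q, f t ≤ ENNReal.ofReal (2 / η) * (∫⁻ t in S, f t * h t y) +
        ENNReal.ofReal (M * (e2 + 2 * δ)) :=
      (lintegral_mono_set hQW).trans ((lintegral_union_le _ _ _).trans (add_le_add b4 b5))
    calc ∫⁻ t in B, f t ≤ ∫⁻ t in (B ∩ F) ∪ (P2 ∪ P3), f t := lintegral_mono_set hcov
      _ ≤ (∫⁻ t in B ∩ F, f t) + ((∫⁻ t in P2, f t) + (∫⁻ t in P3, f t)) :=
          (lintegral_union_le _ _ _).trans (add_le_add le_rfl (lintegral_union_le _ _ _))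
      _ ≤ ENNReal.ofReal (M1 * e1) + (ENNReal.ofReal (R1 / K) + ENNReal.ofReal (K ^ k) *
          (ENNReal.ofReal (2 / η) * (∫⁻ t in S, f t * h t y) +
            ENNReal.ofReal (M * (e2 + 2 * δ)))) :=
          add_le_add b1 (add_le_add b2 (b3.trans (mul_le_mul_right b6 _)))
      _ = _ := by
          rw [← add_assoc, ← ENNReal.ofReal_add (by positivity) (by positivity)]
  -- the mean over the shifts
  have hconst : ∫⁻ _y in Set.Icc (-1:ℝ) 1, (∫⁻ t in B, f t) = (∫⁻ t in B, f t) * 2 := by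
    rw [setLIntegral_const, Real.volume_Icc]
    norm_num
  have hav : (∫⁻ t in B, f t) * 2 ≤
      ∫⁻ y in Set.Icc (-1:ℝ) 1, (ENNReal.ofReal (M1 * e1 + R1 / K) + ENNReal.ofReal (K ^ k) *
        (ENNReal.ofReal (2 / η) * (∫⁻ t in S, f t * h t y) + ENNReal.ofReal (M * (e2 + 2 * δ)))) := by
    rw [← hconst]
    exact setLIntegral_mono' measurableSet_Icc key
  have hsw : ∫⁻ y in Set.Icc (-1:ℝ) 1, (∫⁻ t in S, f t * h t y) =
      ∫⁻ t in S, f t * ∫⁻ y in Set.Icc (-1:ℝ) 1, h t y := by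
    rw [lintegral_lintegral_swap]
    · refine lintegral_congr fun t => ?_
      rw [lintegral_const_mul']
      rw [hf]
      exact ENNReal.ofReal_ne_top
    · refine Measurable.aemeasurable ?_
      exact (hfm.comp measurable_snd).mul (hhm.comp measurable_swap)
  have hE5 : ∫⁻ t in S, f t * ∫⁻ y in Set.Icc (-1:ℝ) 1, h t y ≤ ENNReal.ofReal A1 := by
    rw [hS, hf, hh]
    exact hE4
  have hv : volume (Set.Icc (-1:ℝ) 1) = 2 := by
    rw [Real.volume_Icc]
    norm_num
  have hfin : (∫⁻ t in B, f t) * 2 ≤ ENNReal.ofReal (M1 * e1 + R1 / K +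
      K ^ k * (A1 / η + M * (e2 + 2 * δ))) * 2 := by
    refine hav.trans ?_
    rw [lintegral_add_left measurable_const, lintegral_const_mul' _ _ ENNReal.ofReal_ne_top,
      lintegral_add_right _ measurable_const, lintegral_const_mul' _ _ ENNReal.ofReal_ne_top, hsw,
      setLIntegral_const, setLIntegral_const, hv]
    have e2' : (2 : ENNReal) = ENNReal.ofReal 2 := by norm_num
    have hKk : 0 ≤ K ^ k := by positivity
    calc _ ≤ ENNReal.ofReal (M1 * e1 + R1 / K) * 2 + ENNReal.ofReal (K ^ k) *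
          (ENNReal.ofReal (2 / η) * ENNReal.ofReal A1 + ENNReal.ofReal (M * (e2 + 2 * δ)) * 2) := by
          gcongr
      _ = ENNReal.ofReal ((M1 * e1 + R1 / K +
          K ^ k * (A1 / η + M * (e2 + 2 * δ))) * 2) := by
          rw [e2', ← ENNReal.ofReal_mul (by positivity), ← ENNReal.ofReal_mul (by positivity),
            ← ENNReal.ofReal_mul (by positivity), ← ENNReal.ofReal_add (by positivity) (by positivity),
            ← ENNReal.ofReal_mul (by positivity), ← ENNReal.ofReal_add (by positivity) (by positivity)]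
          congr 1
          ring
      _ = _ := by rw [e2', ← ENNReal.ofReal_mul (by positivity)]
  rw [← hB, ← hM, ← hM1]
  have t1 : (2 : ENNReal) ≠ 0 := two_ne_zero
  have t2 : (2 : ENNReal) ≠ ⊤ := ENNReal.ofNat_ne_top
  have h3 := (ENNReal.mul_le_mul_iff_left t1 t2).1 hfin
  rw [hf] at h3
  exact h3

/-- the height is large compared with the distance to the line -/
theorem ad_log {d : ℝ → ℝ} (hd : Ad d) : ∀ᶠ T : ℝ in atTop, 1 ≤ d T * Real.log T := by
  filter_upwards [hd.tL.eventually_ge_atTop 1, hd.pos, hd.t0.eventually_lt_const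
    (show (0:ℝ) < 1 / 16 by norm_num)] with T h1 h2 h3
  have h4 : 1 ≤ Real.log (1 / d T) := by
    rw [Real.le_log_iff_exp_le (by positivity)]
    have h5 : (16:ℝ) ≤ 1 / d T := by
      rw [le_div_iff₀ h2]
      linarith
    have := Real.exp_one_lt_d9
    linarith
  have h5 : 1 ≤ Real.log (1 / d T) ^ 2 := one_le_pow₀ h4
  rw [le_div_iff₀ (by linarith)] at h1
  linarith

theorem M_bound {d : ℝ → ℝ} (hd : Ad d) (a : ℝ) :
    ∀ᶠ T : ℝ in atTop, (2 * d T) ^ a ≤ T ^ ((1:ℝ) / 8) := by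
  have h1 := (isLittleO_log_rpow_rpow_atTop |a| (show (0:ℝ) < 1 / 8 by norm_num)).bound
    (show (0:ℝ) < 1 by norm_num)
  filter_upwards [h1, ad_log hd, hd.pos, hd.t0.eventually_lt_const
    (show (0:ℝ) < 1 / 16 by norm_num), eventually_gt_atTop 1] with T h2 h3 h4 h5 h6
  have hlog : 0 < Real.log T := Real.log_pos h6
  have h7 : (2 * d T) ^ a ≤ (2 * d T) ^ (-|a|) :=
    Real.rpow_le_rpow_of_exponent_ge (by linarith) (by linarith) (neg_abs_le a)
  have h8 : (2 * d T) ^ (-|a|) ≤ Real.log T ^ |a| := by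
    rw [Real.rpow_neg (by linarith), ← Real.inv_rpow (by linarith)]
    refine Real.rpow_le_rpow (by positivity) ?_ (abs_nonneg a)
    rw [inv_le_comm₀ (by positivity) hlog, inv_eq_one_div, div_le_iff₀ hlog]
    linarith
  rw [Real.norm_of_nonneg (Real.rpow_nonneg hlog.le _), Real.norm_of_nonneg
    (Real.rpow_nonneg (by linarith) _), one_mul] at h2
  linarith

theorem main (g1 : S_AVG) (g2 : S_RAT) : S_CPR := by
  intro c d hd k V hk η hη
  have hk0 : 0 < k := by linarith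
  obtain ⟨D, hD⟩ : ∃ D : ℝ, D = 2 * k * |V| + 1 := ⟨_, rfl⟩
  have hD0 : 0 < D := by rw [hD]; positivity
  obtain ⟨C1, hC1, hR⟩ := g2 d hd.toAd k D hk0.le hD0
  obtain ⟨C2, hC2, hA⟩ := g1 c d hd k (V + 1) hk
  rw [tendsto_order]
  constructor
  · intro a ha
    filter_upwards [hd.pos, eventually_gt_atTop 0] with T h1 h2
    refine lt_of_lt_of_le ha ?_
    refine mul_nonneg (by positivity) (mul_nonneg (by positivity) ?_)
    exact integral_nonneg fun t => Real.rpow_nonneg (mz_nn _ t) _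
  intro ε hε
  obtain ⟨K, hK⟩ : ∃ K : ℝ, K = 1 + 4 * C1 / ε := ⟨_, rfl⟩
  have hK1 : 1 ≤ K := by
    rw [hK]
    have : 0 ≤ 4 * C1 / ε := by positivity
    linarith
  have hK2 : C1 / K ≤ ε / 4 := by
    rw [div_le_iff₀ (by linarith), hK]
    have : ε / 4 * (1 + 4 * C1 / ε) = ε / 4 + C1 := by field_simp
    rw [this]
    linarith
  have hlogK : 0 ≤ Real.log K := Real.log_nonneg hK1
  have hKk : 0 < K ^ k := by positivity
  have hl2 : 0 < Real.log 2 := Real.log_pos (by norm_num)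
  obtain ⟨q, hq⟩ : ∃ q : ℝ, q = (Real.log K + 1) / Real.log 2 := ⟨_, rfl⟩
  have hq0 : 0 < q := by rw [hq]; positivity
  -- the limit of the error
  have hlim : Tendsto (fun T : ℝ => 2 * d T + K ^ k * C2 * (η T / Real.log (2 + d T * Real.log T))⁻¹ +
      2 * K ^ k * T ^ (-((1:ℝ) / 8))) atTop (𝓝 (2 * 0 + K ^ k * C2 * 0 + 2 * K ^ k * 0)) := by
    refine Tendsto.add (Tendsto.add (hd.t0.const_mul 2) ?_) ?_
    · exact (hη.inv_tendsto_atTop).const_mul _
    · exact (tendsto_rpow_neg_atTop (by norm_num)).const_mul _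
  have hlim2 : Tendsto (fun T : ℝ => Real.sqrt K * (2 * d T)) atTop (𝓝 (Real.sqrt K * (2 * 0))) :=
    (hd.t0.const_mul 2).const_mul _
  filter_upwards [hR, hA, hd.pos, hd.t0.eventually_lt_const (show (0:ℝ) < 1 / 16 by norm_num),
    eventually_gt_atTop 1, ad_log hd.toAd, M_bound hd.toAd (-(V + 1) * (2 * k)),
    hη.eventually_ge_atTop q, hlim.eventually_lt_const (show _ < ε / 2 by
      simp only [mul_zero, add_zero]; positivity),
    hlim2.eventually_lt_const (show _ < (1:ℝ) by simp)] with T r1 r2 hδ0 hδ1 hT hdl hM hηq hl1 hl2'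
  have hT0 : 0 < T := by linarith
  obtain ⟨Λ, hΛ⟩ : ∃ Λ : ℝ, Λ = Real.log (2 + d T * Real.log T) := ⟨_, rfl⟩
  rw [← hΛ] at hηq hl1 r2
  have hΛ2 : Real.log 2 ≤ Λ := by
    rw [hΛ]
    exact Real.log_le_log (by norm_num) (by linarith)
  have hΛ0 : 0 < Λ := by linarith
  have hη1 : Real.log K + 1 ≤ η T := by
    rw [le_div_iff₀ hΛ0] at hηq
    have h1 : q * Real.log 2 ≤ q * Λ := mul_le_mul_of_nonneg_left hΛ2 hq0.le
    have h2 : q * Real.log 2 = Real.log K + 1 := by rw [hq]; field_simp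
    linarith
  have hη0 : 0 < η T := by linarith
  obtain ⟨P, hP⟩ : ∃ P : ℝ, P = (2 * d T) ^ (k ^ 2) := ⟨_, rfl⟩
  have hP0 : 0 < P := by rw [hP]; positivity
  have hP1 : P ≤ 1 := by
    rw [hP]
    exact Real.rpow_le_one (by linarith) (by linarith) (by positivity)
  have hPi : (2 * d T) ^ (-(k ^ 2)) = P⁻¹ := by rw [hP, Real.rpow_neg (by linarith)]
  have hcore := core (V := V) (T := T) hδ0 hδ1.le hk0 hη0 hK1 hl2'.le (by linarith)
    (e1 := d T ^ D * T) (e2 := T ^ ((3:ℝ) / 4)) (R1 := C1 * ((2 * d T) ^ (-(k ^ 2)) * T))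
    (A1 := C2 * (Λ * (2 * d T) ^ (-(k ^ 2)) * T)) (by positivity) (by positivity) (by positivity)
    (by positivity) r1 r2
  rw [hPi] at hcore
  obtain ⟨Bd, hBd⟩ : ∃ Bd : ℝ, Bd = ((2 * d T) ^ (-V)) ^ (2 * k) * (d T ^ D * T) +
      C1 * (P⁻¹ * T) / K + K ^ k * (C2 * (Λ * P⁻¹ * T) / η T +
        ((2 * d T) ^ (-(V + 1))) ^ (2 * k) * (T ^ ((3:ℝ) / 4) + 2 * d T)) := ⟨_, rfl⟩
  rw [← hBd] at hcore
  have hBd0 : 0 ≤ Bd := by rw [hBd]; positivity
  have hint : ∫ t in {t : ℝ | t ∈ GT V (d T) T ∧ η T < |Real.log (zh t) - Real.log (mz (d T) t)|},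
      mz (d T) t ^ (2 * k) ≤ Bd := by
    rw [integral_eq_lintegral_of_nonneg_ae
      (Eventually.of_forall fun t => Real.rpow_nonneg (mz_nn _ t) _)
      ((TMC.mz_meas (by linarith)).pow_const _).aestronglyMeasurable]
    exact ENNReal.toReal_le_of_le_ofReal hBd0 hcore
  have hmain : P * ((1 / T) * Bd) ≤ 2 * d T + C1 / K + K ^ k * C2 * (η T / Λ)⁻¹ +
      2 * K ^ k * T ^ (-((1:ℝ) / 8)) := by
    have s1 : P * ((1 / T) * (((2 * d T) ^ (-V)) ^ (2 * k) * (d T ^ D * T))) ≤ 2 * d T := by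
      have e1 : P * ((1 / T) * (((2 * d T) ^ (-V)) ^ (2 * k) * (d T ^ D * T))) =
          P * (((2 * d T) ^ (-V)) ^ (2 * k) * d T ^ D) := by
        field_simp
      have e2 : ((2 * d T) ^ (-V)) ^ (2 * k) ≤ (2 * d T) ^ (-(2 * k * |V|)) := by
        rw [← Real.rpow_mul (by linarith)]
        refine Real.rpow_le_rpow_of_exponent_ge (by linarith) (by linarith) ?_
        have := mul_le_mul_of_nonneg_left (le_abs_self V) (show 0 ≤ 2 * k by linarith)
        linarith
      have e3 : d T ^ D ≤ (2 * d T) ^ D := Real.rpow_le_rpow hδ0.le (by linarith) hD0.le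
      have e4 : (2 * d T) ^ (-(2 * k * |V|)) * (2 * d T) ^ D = 2 * d T := by
        rw [← Real.rpow_add (by linarith), hD]
        rw [show -(2 * k * |V|) + (2 * k * |V| + 1) = 1 by ring, Real.rpow_one]
      have e5 : ((2 * d T) ^ (-V)) ^ (2 * k) * d T ^ D ≤ 2 * d T := by
        exact (mul_le_mul e2 e3 (by positivity) (by positivity)).trans e4.le
      rw [e1]
      calc P * (((2 * d T) ^ (-V)) ^ (2 * k) * d T ^ D) ≤ 1 * (2 * d T) :=
            mul_le_mul hP1 e5 (by positivity) (by norm_num)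
        _ = _ := one_mul _
    have s2 : P * ((1 / T) * (C1 * (P⁻¹ * T) / K)) = C1 / K := by
      field_simp
    have s3 : P * ((1 / T) * (K ^ k * (C2 * (Λ * P⁻¹ * T) / η T))) =
        K ^ k * C2 * (η T / Λ)⁻¹ := by
      rw [inv_div]
      field_simp
    have s4 : P * ((1 / T) * (K ^ k * (((2 * d T) ^ (-(V + 1))) ^ (2 * k) *
        (T ^ ((3:ℝ) / 4) + 2 * d T)))) ≤ 2 * K ^ k * T ^ (-((1:ℝ) / 8)) := by
      rw [← Real.rpow_mul (by linarith)]
      have e1 : T ^ ((3:ℝ) / 4) + 2 * d T ≤ 2 * T ^ ((3:ℝ) / 4) := by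
        have : 1 ≤ T ^ ((3:ℝ) / 4) := Real.one_le_rpow hT.le (by norm_num)
        linarith
      have e2 : (2 * d T) ^ (-(V + 1) * (2 * k)) * (T ^ ((3:ℝ) / 4) + 2 * d T) ≤
          T ^ ((1:ℝ) / 8) * (2 * T ^ ((3:ℝ) / 4)) :=
        mul_le_mul hM e1 (by positivity) (by positivity)
      have e3 : T ^ ((1:ℝ) / 8) * T ^ ((3:ℝ) / 4) = T * T ^ (-((1:ℝ) / 8)) := by
        rw [← Real.rpow_add hT0]
        nth_rewrite 2 [← Real.rpow_one T]
        rw [← Real.rpow_add hT0]
        norm_num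
      have e4 : (1 / T) * (K ^ k * ((2 * d T) ^ (-(V + 1) * (2 * k)) *
          (T ^ ((3:ℝ) / 4) + 2 * d T))) ≤ 2 * K ^ k * T ^ (-((1:ℝ) / 8)) := by
        calc (1 / T) * (K ^ k * ((2 * d T) ^ (-(V + 1) * (2 * k)) *
              (T ^ ((3:ℝ) / 4) + 2 * d T))) ≤
              (1 / T) * (K ^ k * (T ^ ((1:ℝ) / 8) * (2 * T ^ ((3:ℝ) / 4)))) := by gcongr
          _ = (1 / T) * (2 * K ^ k * (T ^ ((1:ℝ) / 8) * T ^ ((3:ℝ) / 4))) := by ring
          _ = _ := by rw [e3]; field_simp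
      calc _ ≤ 1 * (2 * K ^ k * T ^ (-((1:ℝ) / 8))) :=
            mul_le_mul hP1 e4 (by positivity) (by norm_num)
        _ = _ := one_mul _
    have s5 : P * ((1 / T) * Bd) = P * ((1 / T) * (((2 * d T) ^ (-V)) ^ (2 * k) * (d T ^ D * T))) +
        P * ((1 / T) * (C1 * (P⁻¹ * T) / K)) + P * ((1 / T) * (K ^ k * (C2 * (Λ * P⁻¹ * T) / η T))) +
        P * ((1 / T) * (K ^ k * (((2 * d T) ^ (-(V + 1))) ^ (2 * k) *
        (T ^ ((3:ℝ) / 4) + 2 * d T)))) := by
      rw [hBd]
      ring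
    rw [s5, s2, s3]
    linarith
  have hle : (2 * d T) ^ (k ^ 2) * ((1 / T) * ∫ t in {t : ℝ | t ∈ GT V (d T) T ∧
      η T < |Real.log (zh t) - Real.log (mz (d T) t)|}, mz (d T) t ^ (2 * k)) ≤
      P * ((1 / T) * Bd) := by
    rw [← hP]
    have : (1 / T) * ∫ t in {t : ℝ | t ∈ GT V (d T) T ∧
        η T < |Real.log (zh t) - Real.log (mz (d T) t)|}, mz (d T) t ^ (2 * k) ≤ (1 / T) * Bd :=
      mul_le_mul_of_nonneg_left hint (by positivity)
    exact mul_le_mul_of_nonneg_left this hP0.le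
  linarith

end Pool.Agent.N748.OL.CPR
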