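import Pool.Agent.N748.OL.Stm
import Pool.Agent.N79.GM_1
import Pool.Agent.N34.GM_2
import Pool.Agent.N27.GM_3

set_option autoImplicit false

/-!
# Project OL, leaf PJZ (helper803): the Poisson-Jensen inequality for zeta
-/

namespace Pool.Agent.N748.OL.PJZ

open Complex Filter Topology Set MeasureTheory
open Pool.Agent.N748.MG Pool.Agent.N748.MO Pool.Agent.N748.OL
open Pool.Agent.N27.GM3

/-- the value of the auxiliary function at `δ` -/
theorem ff_at {δ t : ℝ} (h4 : δ ≤ 1 / 4) :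
    ff t ((δ : ℝ) : ℂ) = riemannZeta (pw δ t) * ((pw δ t - 1) / (pw δ t + 1)) := by
  have e1 : ((δ : ℂ) + (1 / 2 + t * I) : ℂ) = pw δ t := by
    unfold pw
    ring
  have e2 : pw δ t ≠ 1 := by
    intro h
    have h1 := congrArg Complex.re h
    unfold pw at h1
    simp at h1
    linarith
  unfold ff
  rw [e1, H_of_ne e2]
  ring

/-- the correction factor -/
theorem corr {δ t : ℝ} (h0 : 0 < δ) (h4 : δ ≤ 1 / 4) (ht : 10 ≤ t) :
    0 < ‖(pw δ t - 1) / (pw δ t + 1)‖ ∧ -(1 / t) ≤ Real.log ‖(pw δ t - 1) / (pw δ t + 1)‖ := by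
  have hn1 : ‖pw δ t - 1‖ ^ 2 = (1 / 2 - δ) ^ 2 + t ^ 2 := by
    rw [Complex.sq_norm, Complex.normSq_apply]
    unfold pw
    simp
    ring
  have hn2 : ‖pw δ t + 1‖ ^ 2 = (3 / 2 + δ) ^ 2 + t ^ 2 := by
    rw [Complex.sq_norm, Complex.normSq_apply]
    unfold pw
    simp
    ring
  have ht2 : (0 : ℝ) < t ^ 2 := by positivity
  have hp1 : 0 < ‖pw δ t - 1‖ := by
    have : 0 < ‖pw δ t - 1‖ ^ 2 := by rw [hn1]; positivity
    by_contra hc
    have h5 : ‖pw δ t - 1‖ = 0 := le_antisymm (not_lt.1 hc) (norm_nonneg _)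
    rw [h5] at this
    norm_num at this
  have hp2 : 0 < ‖pw δ t + 1‖ := by
    have : 0 < ‖pw δ t + 1‖ ^ 2 := by rw [hn2]; positivity
    by_contra hc
    have h5 : ‖pw δ t + 1‖ = 0 := le_antisymm (not_lt.1 hc) (norm_nonneg _)
    rw [h5] at this
    norm_num at this
  have hq : 0 < ‖(pw δ t - 1) / (pw δ t + 1)‖ := by
    rw [norm_div]
    exact div_pos hp1 hp2
  refine ⟨hq, ?_⟩
  obtain ⟨q, hqd⟩ : ∃ q : ℝ, q = ‖(pw δ t - 1) / (pw δ t + 1)‖ := ⟨_, rfl⟩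
  rw [← hqd] at hq ⊢
  have hq2 : q ^ 2 = ((1 / 2 - δ) ^ 2 + t ^ 2) / ((3 / 2 + δ) ^ 2 + t ^ 2) := by
    rw [hqd, norm_div, div_pow, hn1, hn2]
  have h6 := Real.one_sub_inv_le_log_of_pos (show (0 : ℝ) < q ^ 2 by positivity)
  have h7 : (q ^ 2)⁻¹ ≤ 1 + 3 / t ^ 2 := by
    rw [hq2, inv_div, div_le_iff₀ (by positivity)]
    have e : (1 + 3 / t ^ 2) * ((1 / 2 - δ) ^ 2 + t ^ 2) =
        (1 / 2 - δ) ^ 2 + t ^ 2 + 3 + 3 / t ^ 2 * (1 / 2 - δ) ^ 2 := by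
      field_simp
      ring
    rw [e]
    have e2 : 0 ≤ 3 / t ^ 2 * (1 / 2 - δ) ^ 2 := by positivity
    nlinarith
  have h8 : Real.log (q ^ 2) = 2 * Real.log q := by
    rw [Real.log_pow]
    norm_num
  have h9 : 3 / t ^ 2 ≤ 2 * (1 / t) := by
    rw [mul_one_div, div_le_div_iff₀ ht2 (by linarith)]
    nlinarith
  linarith

theorem main : S_PJZ := by
  refine ⟨1, one_pos, fun δ t h0 h4 ht hne => ?_⟩
  have hπ := Real.pi_pos
  have hmz : mz δ t = ‖riemannZeta (pw δ t)‖ := rfl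
  obtain ⟨hc0, hc1⟩ := corr h0 h4 ht
  have hz : ‖riemannZeta (pw δ t)‖ ≠ 0 := by
    rw [← hmz]
    exact hne
  have hffn : ‖ff t ((δ : ℝ) : ℂ)‖ = ‖riemannZeta (pw δ t)‖ * ‖(pw δ t - 1) / (pw δ t + 1)‖ := by
    rw [ff_at h4, norm_mul]
  have hff0 : ff t ((δ : ℝ) : ℂ) ≠ 0 := by
    intro h
    rw [h, norm_zero] at hffn
    exact (mul_ne_zero hz hc0.ne') hffn.symm
  have hPJ := (Pool.Agent.N34.GM2.main Pool.Agent.N79.GM1.main) (ff t) (Real.log (2 + 2 * t)) δ h0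
    (fun z hz => ff_an t hz) (fun z hz => ff_le (by linarith) hz) hff0
  obtain ⟨hint, hsum⟩ := hPJ
  have hPJS := hsum ∅ (by
    intro z hz
    exact absurd hz (Finset.notMem_empty _))
  rw [Finset.sum_empty, add_zero] at hPJS
  obtain ⟨G, hG⟩ : ∃ G : ℝ → ℝ, G = fun y =>
    Real.log ‖riemannZeta (1 / 2 + ((t + y : ℝ) : ℂ) * I)‖ / (δ ^ 2 + y ^ 2) := ⟨_, rfl⟩
  have hk : Integrable fun y : ℝ => (1 + y ^ 2)⁻¹ := integrable_inv_one_add_sq
  have hpos : ∀ y : ℝ, (0 : ℝ) < δ ^ 2 + y ^ 2 := fun y => by positivity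
  have hker : ∀ y : ℝ, (δ ^ 2 + y ^ 2)⁻¹ ≤ (δ ^ 2)⁻¹ * (1 + y ^ 2)⁻¹ := by
    intro y
    rw [← mul_inv]
    refine inv_anti₀ (by positivity) ?_
    have : δ ^ 2 ≤ 1 := by nlinarith
    nlinarith [sq_nonneg y, mul_nonneg (sub_nonneg.mpr this) (sq_nonneg y)]
  have hlog3 : 0 ≤ Real.log 3 := Real.log_nonneg (by norm_num)
  have hGi : Integrable G := by
    refine Integrable.mono' (g := fun y : ℝ =>
      ‖Real.log ‖ff t (y * I)‖ / (δ ^ 2 + y ^ 2)‖ + Real.log 3 * ((δ ^ 2)⁻¹ * (1 + y ^ 2)⁻¹))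
      (hint.norm.add ((hk.const_mul _).const_mul _)) ?_ ?_
    · rw [hG]
      exact ((zeta_line_meas t).div (by fun_prop)).aestronglyMeasurable
    · refine Filter.Eventually.of_forall fun y => ?_
      have h1 := hpos y
      have h2 := (log_line t y).2
      rw [hG]
      rw [Real.norm_eq_abs, abs_div, abs_of_pos h1, Real.norm_eq_abs, abs_div, abs_of_pos h1]
      calc |Real.log ‖riemannZeta (1 / 2 + ((t + y : ℝ) : ℂ) * I)‖| / (δ ^ 2 + y ^ 2)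
          ≤ (|Real.log ‖ff t (y * I)‖| + Real.log 3) / (δ ^ 2 + y ^ 2) :=
            div_le_div_of_nonneg_right h2 h1.le
        _ = |Real.log ‖ff t (y * I)‖| / (δ ^ 2 + y ^ 2) + Real.log 3 * (δ ^ 2 + y ^ 2)⁻¹ := by
            rw [add_div, div_eq_mul_inv (Real.log 3)]
        _ ≤ _ := add_le_add le_rfl (mul_le_mul_of_nonneg_left (hker y) hlog3)
  have hfun : (fun v : ℝ => PK δ v * Real.log (zh (t + v))) = fun v => δ / Real.pi * G v := by
    funext v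
    rw [hG]
    unfold PK zh
    have h1 := (hpos v).ne'
    simp only
    field_simp
  rw [hfun]
  refine ⟨hGi.const_mul _, ?_⟩
  have hle : ∫ y : ℝ, Real.log ‖ff t (y * I)‖ / (δ ^ 2 + y ^ 2) ≤ ∫ y, G y := by
    refine integral_mono hint hGi fun y => ?_
    rw [hG]
    exact div_le_div_of_nonneg_right (log_line t y).1 (hpos y).le
  have h5 : Real.log ‖ff t ((δ : ℝ) : ℂ)‖ = Real.log (mz δ t) +
      Real.log ‖(pw δ t - 1) / (pw δ t + 1)‖ := by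
    rw [hffn, Real.log_mul hz hc0.ne', hmz]
  rw [integral_const_mul]
  have h6 : δ / Real.pi * ∫ y : ℝ, Real.log ‖ff t (y * I)‖ / (δ ^ 2 + y ^ 2) ≤
      δ / Real.pi * ∫ y, G y := mul_le_mul_of_nonneg_left hle (by positivity)
  rw [h5] at hPJS
  linarith

end Pool.Agent.N748.OL.PJZ
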