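import Pool.Agent.N748.OL.Stm
import Pool.Agent.N748.MJ.SM

set_option autoImplicit false

/-! (RAT) the ratio of two values at small distance (helper618, for project OL of helper748) -/

namespace Pool.Agent.N748.OL.RAT

open Finset Filter MeasureTheory Topology Complex
open Pool.Agent.N748.MG Pool.Agent.N748.MJ Pool.Agent.N748.MJ.SM Pool.Agent.N748.OL

/-- the logarithm of zeta near 1 -/
lemma lz_near (hL : S_LZB) : ∃ r : ℝ, 0 < r ∧ r ≤ 1 / 16 ∧ ∀ δ u : ℝ, 0 < δ → δ ≤ r → |u| ≤ δ →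
    |(LZ (1 + 2 * δ) u).re - Real.log (1 / (2 * δ))| ≤ 2 := by
  have h1 := riemannZeta_residue_one
  rw [Metric.tendsto_nhdsWithin_nhds] at h1
  obtain ⟨r1, hr1, h2⟩ := h1 (1 / 2) (by norm_num)
  refine ⟨min (1 / 16) (r1 / 4), lt_min (by norm_num) (by positivity), min_le_left _ _, ?_⟩
  intro δ u hδ hδr hu
  have hδ1 : δ ≤ 1 / 16 := hδr.trans (min_le_left _ _)
  have hδ2 : δ ≤ r1 / 4 := hδr.trans (min_le_right _ _)
  obtain ⟨-, h3⟩ := hL δ hδ hδ1 u
  obtain ⟨s, hs⟩ : ∃ s : ℂ, s = ((1 + 2 * δ : ℝ) : ℂ) + u * I := ⟨_, rfl⟩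
  rw [← hs] at h3
  have hs1 : s - 1 = ((2 * δ : ℝ) : ℂ) + u * I := by
    rw [hs]
    push_cast
    ring
  have hre : (s - 1).re = 2 * δ := by
    rw [hs1]
    simp
  have hlow : 2 * δ ≤ ‖s - 1‖ := by
    have := Complex.abs_re_le_norm (s - 1)
    rw [hre, abs_of_pos (by positivity)] at this
    exact this
  have hup : ‖s - 1‖ ≤ 3 * δ := by
    rw [hs1]
    refine (norm_add_le _ _).trans ?_
    have q1 : ‖((2 * δ : ℝ) : ℂ)‖ = 2 * δ := by
      rw [Complex.norm_real, Real.norm_of_nonneg (by positivity)]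
    have q2 : ‖(u : ℂ) * I‖ = |u| := by
      rw [norm_mul, Complex.norm_I, mul_one, Complex.norm_real, Real.norm_eq_abs]
    rw [q1, q2]
    linarith
  have hne : s ≠ 1 := by
    intro h
    rw [h, sub_self, norm_zero] at hlow
    linarith
  have h4 := @h2 s (Set.mem_compl_singleton_iff.2 hne) (by rw [dist_eq_norm]; linarith)
  rw [dist_eq_norm] at h4
  obtain ⟨A, hA⟩ : ∃ A : ℝ, A = ‖(s - 1) * riemannZeta s‖ := ⟨_, rfl⟩
  have hA1 : 1 / 2 ≤ A := by
    have h5 := norm_sub_norm_le (1 : ℂ) ((s - 1) * riemannZeta s)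
    rw [norm_one, norm_sub_rev, ← hA] at h5
    linarith
  have hA2 : A ≤ 3 / 2 := by
    have h5 := norm_sub_norm_le ((s - 1) * riemannZeta s) (1 : ℂ)
    rw [norm_one, ← hA] at h5
    linarith
  have hB0 : 0 < ‖s - 1‖ := by linarith
  have hζ : (LZ (1 + 2 * δ) u).re = Real.log ‖riemannZeta s‖ := by
    rw [← h3, Complex.norm_exp, Real.log_exp]
  have hζ0 : riemannZeta s ≠ 0 := by
    rw [← h3]
    exact Complex.exp_ne_zero _
  have hlogA : Real.log A = Real.log ‖s - 1‖ + Real.log ‖riemannZeta s‖ := by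
    rw [hA, norm_mul, Real.log_mul hB0.ne' (norm_ne_zero_iff.2 hζ0)]
  have hlog2 : Real.log (1 / (2 * δ)) = -Real.log (2 * δ) := by
    rw [one_div, Real.log_inv]
  have hAu : Real.log A ≤ 1 / 2 := by
    have := Real.log_le_sub_one_of_pos (show 0 < A by linarith)
    linarith
  have hAl : -1 ≤ Real.log A := by
    have h5 := Real.log_le_sub_one_of_pos (show 0 < A⁻¹ by positivity)
    rw [Real.log_inv] at h5
    have h6 : A⁻¹ ≤ 2 := by
      rw [inv_le_comm₀ (by linarith) (by norm_num)]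
      linarith
    linarith
  have hBl : Real.log (2 * δ) ≤ Real.log ‖s - 1‖ := Real.log_le_log (by positivity) hlow
  have hBu : Real.log ‖s - 1‖ ≤ Real.log (2 * δ) + 1 / 2 := by
    have h5 : ‖s - 1‖ / (2 * δ) ≤ 3 / 2 := by
      rw [div_le_iff₀ (by positivity)]
      linarith
    have h6 := Real.log_le_sub_one_of_pos (show 0 < ‖s - 1‖ / (2 * δ) by positivity)
    rw [Real.log_div hB0.ne' (by positivity)] at h6
    linarith
  rw [hζ, hlog2, abs_le]
  constructor <;> linarith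

/-- the main term for two shifts -/
lemma Lr_two (k h : Fin 2 → ℝ) (δ L : ℝ)
    (hθ : ∀ j l, |(LZ (1 + 2 * δ) (h j - h l)).re - L| ≤ 2) :
    Lr k h δ ≤ (k 0 + k 1) ^ 2 * L + 2 * (|k 0| + |k 1|) ^ 2 := by
  have h1 : ∀ j l : Fin 2, k j * k l * (LZ (1 + 2 * δ) (h j - h l)).re ≤
      k j * k l * L + 2 * (|k j| * |k l|) := by
    intro j l
    have h2 : k j * k l * ((LZ (1 + 2 * δ) (h j - h l)).re - L) ≤ |k j| * |k l| * 2 := by
      refine (le_abs_self _).trans ?_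
      rw [abs_mul, abs_mul]
      exact mul_le_mul_of_nonneg_left (hθ j l) (by positivity)
    linarith [mul_sub (k j * k l) (LZ (1 + 2 * δ) (h j - h l)).re L]
  unfold Lr
  simp only [Fin.sum_univ_two]
  have e1 : (k 0 + k 1) ^ 2 * L = k 0 * k 0 * L + k 0 * k 1 * L + (k 1 * k 0 * L + k 1 * k 1 * L) := by
    ring
  have e2 : 2 * (|k 0| + |k 1|) ^ 2 = 2 * (|k 0| * |k 0|) + 2 * (|k 0| * |k 1|) +
      (2 * (|k 1| * |k 0|) + 2 * (|k 1| * |k 1|)) := by ring
  rw [e1, e2]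
  linarith [h1 0 0, h1 0 1, h1 1 0, h1 1 1]

/-- integrability and the upper bound -/
lemma bound {k h : Fin 2 → ℝ} {δ T a c C B : ℝ} {N : Set ℝ} (hT : 0 < T) (hc : 0 < c) (ha : c ≤ a)
    (haC : a ≤ C) (hB : Real.exp (Lr k h δ) ≤ B)
    (H : |Real.exp (-(Lr k h δ)) * (∫ t in N, G k h δ t) - T * a| ≤ c / 2 * T) :
    IntegrableOn (fun t => G k h δ t) N ∧ ∫ t in N, G k h δ t ≤ B * ((C + c / 2) * T) := by
  constructor
  · by_contra hcon
    have h0 : ∫ t in N, G k h δ t = 0 := integral_undef hcon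
    rw [h0, mul_zero, zero_sub, abs_neg] at H
    have h1 := le_abs_self (T * a)
    nlinarith
  · have h1 := (abs_le.1 H).2
    have h2 : Real.exp (-(Lr k h δ)) * (∫ t in N, G k h δ t) ≤ (C + c / 2) * T := by nlinarith
    have h3 : ∫ t in N, G k h δ t = Real.exp (Lr k h δ) *
        (Real.exp (-(Lr k h δ)) * (∫ t in N, G k h δ t)) := by
      rw [← mul_assoc, ← Real.exp_add, add_neg_cancel, Real.exp_zero, one_mul]
    have h4 : 0 ≤ Real.exp (-(Lr k h δ)) * (∫ t in N, G k h δ t) :=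
      mul_nonneg (Real.exp_pos _).le (integral_nonneg fun t => G_nn _ h δ t)
    rw [h3]
    exact mul_le_mul hB h2 h4 ((Real.exp_pos _).le.trans hB)

lemma rp {A B k : ℝ} (hA : 0 < A) (hB : 0 < B) :
    A ^ (2 * k) * (B ^ 2 / A ^ 2 + A ^ 2 / B ^ 2) =
      A ^ (2 * (k - 1)) * B ^ (2 * (1 : ℝ)) + A ^ (2 * (k + 1)) * B ^ (2 * (-1 : ℝ)) := by
  have e1 : A ^ (2 * (k - 1)) = A ^ (2 * k) / A ^ 2 := by
    have : 2 * (k - 1) = 2 * k - (2 : ℕ) := by push_cast; ring
    rw [this, Real.rpow_sub hA, Real.rpow_natCast]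
  have e2 : A ^ (2 * (k + 1)) = A ^ (2 * k) * A ^ 2 := by
    have : 2 * (k + 1) = 2 * k + (2 : ℕ) := by push_cast; ring
    rw [this, Real.rpow_add hA, Real.rpow_natCast]
  have e3 : B ^ (2 * (1 : ℝ)) = B ^ 2 := by
    have : 2 * (1 : ℝ) = (2 : ℕ) := by norm_num
    rw [this, Real.rpow_natCast]
  have e4 : B ^ (2 * (-1 : ℝ)) = (B ^ 2)⁻¹ := by
    have : 2 * (-1 : ℝ) = -((2 : ℕ) : ℝ) := by norm_num
    rw [this, Real.rpow_neg hB.le, Real.rpow_natCast]
  rw [e1, e2, e3, e4]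
  ring

theorem main (g1 : S_JM) (g3 : S_POSV) (g5 : S_LZB) : S_RAT := by
  intro d hd k D hk hD
  obtain ⟨c, C, hc, hC, hcC⟩ := g3 2 (k + 2) (by positivity)
  obtain ⟨r, hr0, hr1, hr⟩ := lz_near g5
  refine ⟨2 * (Real.exp (2 * (k + 2) ^ 2) * (C + c / 2)), by positivity, ?_⟩
  have f1 := (g1 2 (k + 2) D (by positivity) hD (c / 2) (by positivity)).app hd
  have f2 := (Ev.of_le hr0).app hd
  filter_upwards [f1, f2, hd.pos, eventually_ge_atTop 1] with T f1 f2 hδ hT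
  intro x hx
  obtain ⟨δ, hδe⟩ : ∃ δ : ℝ, δ = d T := ⟨_, rfl⟩
  rw [← hδe] at f1 f2 hδ ⊢
  have hT0 : 0 < T := by linarith
  have hδx : |δ * x| ≤ δ := by
    rw [abs_mul, abs_of_pos hδ]
    nlinarith
  obtain ⟨h, hh⟩ : ∃ h : Fin 2 → ℝ, h = ![0, δ * x] := ⟨_, rfl⟩
  have hh0 : h 0 = 0 := by rw [hh]; rfl
  have hh1 : h 1 = δ * x := by rw [hh]; rfl
  have hT1 : (1 : ℝ) ≤ T ^ ((1 : ℝ) / 2) := Real.one_le_rpow hT (by norm_num)
  have hb : ∀ j, |h j| ≤ T ^ ((1 : ℝ) / 2) := by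
    intro j
    fin_cases j
    · show |h 0| ≤ _
      rw [hh0, abs_zero]
      linarith
    · show |h 1| ≤ _
      rw [hh1]
      linarith
  obtain ⟨N, n1, n2, n3, n4, n5⟩ := f1 h hb
  have hdiff : Set.Icc 0 T \ (Set.Icc 0 T \ N) = N := Set.sdiff_sdiff_cancel_left n2
  refine ⟨Set.Icc 0 T \ N, measurableSet_Icc.diff n1, Set.sdiff_subset, n3, ?_, ?_⟩
  · rw [hdiff]
    intro t ht
    have m0 := n4 t ht 0
    have m1 := n4 t ht 1
    rw [hh0, add_zero] at m0
    rw [hh1] at m1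
    exact ⟨norm_ne_zero_iff.2 m0, norm_ne_zero_iff.2 m1⟩
  rw [hdiff]
  -- the logarithm
  have hθ : ∀ j l, |(LZ (1 + 2 * δ) (h j - h l)).re - Real.log (1 / (2 * δ))| ≤ 2 := by
    intro j l
    refine hr δ _ hδ f2 ?_
    fin_cases j <;> fin_cases l
    · show |h 0 - h 0| ≤ δ
      rw [sub_self, abs_zero]
      exact hδ.le
    · show |h 0 - h 1| ≤ δ
      rw [hh0, hh1, zero_sub, abs_neg]
      exact hδx
    · show |h 1 - h 0| ≤ δ
      rw [hh0, hh1, sub_zero]
      exact hδx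
    · show |h 1 - h 1| ≤ δ
      rw [sub_self, abs_zero]
      exact hδ.le
  have h2δ : 0 < 2 * δ := by positivity
  obtain ⟨hCu, hcl⟩ := hcC h
  have key : ∀ k' : Fin 2 → ℝ, (∀ j, |k' j| ≤ k + 2) → k' 0 + k' 1 = k →
      |k' 0| + |k' 1| ≤ k + 2 →
      IntegrableOn (fun t => G k' h δ t) N ∧
        ∫ t in N, G k' h δ t ≤ ((2 * δ) ^ (-(k ^ 2)) * Real.exp (2 * (k + 2) ^ 2)) *
          ((C + c / 2) * T) := by
    intro k' hk' hsum habs
    obtain ⟨a, ha1, ha2⟩ := hcl k' hk'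
    have hn : ∀ j, ‖cc k' j‖ ≤ k + 2 := by
      intro j
      unfold cc
      rw [Complex.norm_real, Real.norm_eq_abs]
      exact hk' j
    have ha3 : a ≤ C := by
      have h1 := hCu (cc k') (cc k') hn hn
      have h2 : aV (cc k') (cc k') h = a := ha2
      rw [h2, Complex.norm_real, Real.norm_of_nonneg (hc.le.trans ha1)] at h1
      exact h1
    have hform : |Real.exp (-(Lr k' h δ)) * (∫ t in N, G k' h δ t) - T * a| ≤ c / 2 * T := by
      refine real_form hT0 (hc.le.trans ha1) ha2 ?_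
      exact n5 (cc k') (fun _ => 0) hn (fun j => by simp; linarith)
    refine bound hT0 hc ha1 ha3 ?_ hform
    have h1 := Lr_two k' h δ _ hθ
    rw [hsum] at h1
    have h2 : 2 * (|k' 0| + |k' 1|) ^ 2 ≤ 2 * (k + 2) ^ 2 := by
      have : 0 ≤ |k' 0| + |k' 1| := by positivity
      nlinarith
    have h3 : (2 * δ) ^ (-(k ^ 2)) = Real.exp (k ^ 2 * Real.log (1 / (2 * δ))) := by
      rw [Real.rpow_def_of_pos h2δ, one_div, Real.log_inv]
      congr 1
      ring
    rw [h3, ← Real.exp_add]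
    exact Real.exp_le_exp.2 (by linarith)
  have ka := key ![k - 1, 1] (by
      intro j
      fin_cases j
      · show |k - 1| ≤ k + 2
        rw [abs_le]
        constructor <;> linarith
      · show |(1 : ℝ)| ≤ k + 2
        rw [abs_one]
        linarith) (by
      show k - 1 + 1 = k
      ring) (by
      show |k - 1| + |(1 : ℝ)| ≤ k + 2
      have : |k - 1| ≤ k + 1 := by
        rw [abs_le]
        constructor <;> linarith
      rw [abs_one]
      linarith)
  have kb := key ![k + 1, -1] (by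
      intro j
      fin_cases j
      · show |k + 1| ≤ k + 2
        rw [abs_le]
        constructor <;> linarith
      · show |(-1 : ℝ)| ≤ k + 2
        rw [abs_neg, abs_one]
        linarith) (by
      show k + 1 + -1 = k
      ring) (by
      show |k + 1| + |(-1 : ℝ)| ≤ k + 2
      have : |k + 1| ≤ k + 1 := by
        rw [abs_le]
        constructor <;> linarith
      rw [abs_neg, abs_one]
      linarith)
  have heq : Set.EqOn (fun t => mz δ t ^ (2 * k) * (mz δ (t + δ * x) ^ 2 / mz δ t ^ 2 +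
      mz δ t ^ 2 / mz δ (t + δ * x) ^ 2))
      (fun t => G ![k - 1, 1] h δ t + G ![k + 1, -1] h δ t) N := by
    intro t ht
    have m0 := n4 t ht 0
    have m1 := n4 t ht 1
    rw [hh0, add_zero] at m0
    rw [hh1] at m1
    have hA : 0 < mz δ t := norm_pos_iff.2 m0
    have hB : 0 < mz δ (t + δ * x) := norm_pos_iff.2 m1
    show mz δ t ^ (2 * k) * (mz δ (t + δ * x) ^ 2 / mz δ t ^ 2 +
      mz δ t ^ 2 / mz δ (t + δ * x) ^ 2) = G ![k - 1, 1] h δ t + G ![k + 1, -1] h δ t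
    rw [rp hA hB]
    unfold G
    simp only [Fin.prod_univ_two, hh0, hh1, add_zero]
    rfl
  constructor
  · exact (ka.1.add kb.1).congr_fun heq.symm n1
  · rw [setIntegral_congr_fun n1 heq, integral_add ka.1 kb.1]
    refine (add_le_add ka.2 kb.2).trans (le_of_eq ?_)
    ring

end Pool.Agent.N748.OL.RAT

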