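import Pool.Agent.N748.OL.Stm
import Pool.Agent.N748.MO.OCM
import Pool.Agent.N748.MO.UNS
import Pool.Agent.N748.MO.FIN

set_option autoImplicit false

/-! (SH2) the shifted second moment on the critical line with a weight near it (helper262, for
project OL of helper748). -/

namespace Pool.Agent.N748.OL.SH2

open Finset Filter MeasureTheory Topology Complex
open Pool.Agent.N748.MG Pool.Agent.N748.MO Pool.Agent.N748.OL
open Pool.Agent.N748.MO.OCM (FS_pos cf q_bound AS_norm cf_norm)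
open Pool.Agent.N748.MG.CM (AS_cont rpow_eq)

/-! ### the coefficients -/

noncomputable def lr (s : ℝ) (m : ℕ) : ℝ := ∏ i ∈ range m, (s + i) / ((i : ℝ) + 1)

noncomputable def dr (s : ℝ) (n : ℕ) : ℝ := ∏ p ∈ n.primeFactors, lr s (n.factorization p)

noncomputable def cr (s δ : ℝ) (n : ℕ) : ℝ := dr s n * (n:ℝ) ^ (-δ)

lemma lr_eq (s : ℝ) (m : ℕ) : lC (s:ℂ) m = ((lr s m : ℝ) : ℂ) := by
  unfold lC lr
  push_cast
  rfl

lemma lr_nn {s : ℝ} (hs : 0 ≤ s) (m : ℕ) : 0 ≤ lr s m :=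
  Finset.prod_nonneg fun i _ => by positivity

lemma dr_eq (s : ℝ) (n : ℕ) : dS (s:ℂ) n = ((dr s n : ℝ) : ℂ) := by
  unfold dS dr
  rw [Complex.ofReal_prod]
  exact Finset.prod_congr rfl fun p _ => lr_eq s _

lemma dr_nn {s : ℝ} (hs : 0 ≤ s) (n : ℕ) : 0 ≤ dr s n :=
  Finset.prod_nonneg fun _ _ => lr_nn hs _

lemma cr_nn {s : ℝ} (hs : 0 ≤ s) (δ : ℝ) (n : ℕ) : 0 ≤ cr s δ n :=
  mul_nonneg (dr_nn hs n) (by positivity)

lemma cr_eq (s δ : ℝ) (n : ℕ) : cf (s:ℂ) δ n = ((cr s δ n : ℝ) : ℂ) := by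
  unfold cf cr
  rw [dr_eq, Complex.ofReal_mul, Complex.ofReal_cpow (Nat.cast_nonneg n)]
  push_cast
  rfl

noncomputable def SS (s δ : ℝ) (F : Finset ℕ) : ℝ :=
  ∑ h ∈ F, ∑ l ∈ F, cr s δ h * cr s δ l / (Nat.lcm h l : ℝ)

lemma SS_nn {s : ℝ} (hs : 0 ≤ s) (δ : ℝ) (F : Finset ℕ) : 0 ≤ SS s δ F :=
  Finset.sum_nonneg fun h _ => Finset.sum_nonneg fun l _ =>
    div_nonneg (mul_nonneg (cr_nn hs δ h) (cr_nn hs δ l)) (Nat.cast_nonneg _)

lemma TD_eq (s δ : ℝ) (h l : ℕ) :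
    TD (s:ℂ) δ 0 h l = ((cr s δ h * cr s δ l / (Nat.lcm h l : ℝ) : ℝ) : ℂ) := by
  have h1 := cr_eq s δ h
  have h2 := cr_eq s δ l
  unfold cf at h1 h2
  unfold TD
  rw [add_zero, mul_zero, Complex.cpow_zero, mul_one]
  rw [Complex.ofReal_div, Complex.ofReal_mul, ← h1, ← h2]
  push_cast
  ring

lemma sum_TD (s δ : ℝ) (F : Finset ℕ) :
    ∑ h ∈ F, ∑ l ∈ F, TD (s:ℂ) δ 0 h l = ((SS s δ F : ℝ) : ℂ) := by
  unfold SS
  rw [Complex.ofReal_sum]
  refine Finset.sum_congr rfl fun h _ => ?_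
  rw [Complex.ofReal_sum]
  exact Finset.sum_congr rfl fun l _ => TD_eq s δ h l

lemma SS_bound {s δ M : ℝ} (hs : 0 ≤ s) (hδ : 0 < δ) (F : Finset ℕ)
    (h : ‖((2 * δ : ℝ) : ℂ) ^ ((s:ℂ) ^ 2 + 2 * (s:ℂ)) * (∑ h ∈ F, ∑ l ∈ F, TD (s:ℂ) δ 0 h l) -
      4 ^ (s:ℂ) * aC ((s:ℂ) + 1)‖ ≤ 1) (hM : ‖(4:ℂ) ^ (s:ℂ) * aC ((s:ℂ) + 1)‖ ≤ M) :
    SS s δ F ≤ (M + 1) * (2 * δ) ^ (-(s ^ 2 + 2 * s)) := by
  have h2 : (0:ℝ) < 2 * δ := by positivity
  have e1 : ((2 * δ : ℝ) : ℂ) ^ ((s:ℂ) ^ 2 + 2 * (s:ℂ)) = (((2 * δ) ^ (s ^ 2 + 2 * s) : ℝ) : ℂ) := by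
    rw [Complex.ofReal_cpow h2.le]
    push_cast
    rfl
  rw [e1, sum_TD, ← Complex.ofReal_mul] at h
  have h3 : ‖(((2 * δ) ^ (s ^ 2 + 2 * s) * SS s δ F : ℝ) : ℂ)‖ ≤ M + 1 := by
    have h4 := norm_le_norm_add_norm_sub' (((2 * δ) ^ (s ^ 2 + 2 * s) * SS s δ F : ℝ) : ℂ)
      ((4:ℂ) ^ (s:ℂ) * aC ((s:ℂ) + 1))
    linarith
  have hp : 0 < (2 * δ) ^ (s ^ 2 + 2 * s) := Real.rpow_pos_of_pos h2 _
  rw [Complex.norm_real, Real.norm_of_nonneg (mul_nonneg hp.le (SS_nn hs δ F))] at h3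
  rw [Real.rpow_neg h2.le, ← div_eq_mul_inv, le_div_iff₀ hp]
  linarith

/-! ### one window -/

lemma a_norm {s : ℝ} (hs : 0 ≤ s) (δ v : ℝ) {n : ℕ} (hn : 1 ≤ n) :
    ‖cf (s:ℂ) δ n * (n:ℂ) ^ ((v:ℂ) * I)‖ = cr s δ n := by
  rw [norm_mul, cr_eq, Complex.norm_real, Real.norm_of_nonneg (cr_nn hs δ n),
    Complex.norm_natCast_cpow_of_pos (by omega)]
  simp

lemma AS_shift (s : ℂ) (y : ℝ) (K : ℕ) (δ v u : ℝ) :
    AS s y K (pw δ (u - v)) = ∑ n ∈ FS y K, (cf s δ n * (n:ℂ) ^ ((v:ℂ) * I)) *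
      (n:ℂ) ^ (-(1 / 2 + u * I : ℂ)) := by
  unfold AS cf
  refine Finset.sum_congr rfl fun n hn => ?_
  have hn0 : (n:ℂ) ≠ 0 := by
    have := FS_pos hn
    exact_mod_cast (by omega : n ≠ 0)
  rw [mul_assoc, mul_assoc, ← Complex.cpow_add _ _ hn0, ← Complex.cpow_add _ _ hn0]
  congr 2
  unfold pw
  push_cast
  ring

lemma lg_bound {X : ℝ} {κ h l : ℕ} (hX : 0 < X) (hκ : 1 ≤ κ) (hL : 4 ≤ Real.log X) (hh : 1 ≤ h)
    (hl : 1 ≤ l) (hh2 : (h:ℝ) ≤ X ^ ((1:ℝ) / 2)) (hl2 : (l:ℝ) ≤ X ^ ((1:ℝ) / 2)) :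
    |Real.log (X / (2 * Real.pi * κ) * (Nat.gcd h l : ℝ) ^ 2 / ((h:ℝ) * l)) +
      ((harmonic κ : ℝ) + Real.eulerMascheroniConstant)| ≤ 2 * Real.log X := by
  have hh0 : (0:ℝ) < h := by exact_mod_cast hh
  have hl0 : (0:ℝ) < l := by exact_mod_cast hl
  have hg : 0 < Nat.gcd h l := Nat.gcd_pos_of_pos_left l hh
  have hg0 : (0:ℝ) < (Nat.gcd h l : ℝ) := by exact_mod_cast hg
  have hg1 : (1:ℝ) ≤ (Nat.gcd h l : ℝ) := by exact_mod_cast hg
  have hgh : (Nat.gcd h l : ℝ) ≤ h := by exact_mod_cast Nat.gcd_le_left l hh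
  have hgl : (Nat.gcd h l : ℝ) ≤ l := by exact_mod_cast Nat.gcd_le_right h hl
  have hκ0 : (0:ℝ) < κ := by exact_mod_cast hκ
  have e1 : Real.log (X / (2 * Real.pi * κ) * (Nat.gcd h l : ℝ) ^ 2 / ((h:ℝ) * l)) =
      Real.log (X / (2 * Real.pi * κ)) + Real.log ((Nat.gcd h l : ℝ) ^ 2 / ((h:ℝ) * l)) := by
    rw [mul_div_assoc, Real.log_mul (by positivity) (by positivity)]
  have b1 : Real.log ((Nat.gcd h l : ℝ) ^ 2 / ((h:ℝ) * l)) ≤ 0 := by
    apply Real.log_nonpos (by positivity)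
    rw [div_le_one (by positivity), sq]
    exact mul_le_mul hgh hgl hg0.le hh0.le
  have b2 : -Real.log X ≤ Real.log ((Nat.gcd h l : ℝ) ^ 2 / ((h:ℝ) * l)) := by
    rw [Real.log_div (by positivity) (by positivity), Real.log_mul hh0.ne' hl0.ne']
    have c1 : 0 ≤ Real.log ((Nat.gcd h l : ℝ) ^ 2) := Real.log_nonneg (one_le_pow₀ hg1)
    have c2 := Real.log_le_log hh0 hh2
    have c3 := Real.log_le_log hl0 hl2
    rw [Real.log_rpow hX] at c2 c3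
    linarith
  have q := q_bound X κ hX hκ
  rw [abs_le] at q
  rw [e1, abs_le]
  constructor <;> linarith

lemma win {X δ y s v η M e C4 : ℝ} {K κ : ℕ} (hs : 0 ≤ s) (hX : 0 < X) (hκ : 1 ≤ κ)
    (hL : 4 ≤ Real.log X) (he : 0 ≤ e) (hM : 0 < M) (hδ : 0 ≤ δ)
    (hlen : ∀ n ∈ FS y K, 1 ≤ n ∧ (n:ℝ) ≤ X ^ ((1:ℝ) / 2)) (hMb : ∀ n ∈ FS y K, cr s δ n ≤ M)
    (i2 : IntegrableOn (fun t => wt κ X t * zh t ^ 2) (Set.Ioi 0))
    (hts : ∀ F : Finset ℕ, (∀ n ∈ F, 1 ≤ n ∧ (n:ℝ) ≤ X ^ ((1:ℝ) / 2)) → ∀ (a b : ℕ → ℂ) (M : ℝ), 0 < M →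
      (∀ n ∈ F, ‖a n‖ ≤ M) → (∀ n ∈ F, ‖b n‖ ≤ M) →
      ‖(∫ t in Set.Ioi (0:ℝ), ((wt κ X t * zh t ^ 2 : ℝ) : ℂ) *
        ((∑ n ∈ F, a n * (n:ℂ) ^ (-(1 / 2 + t * I : ℂ))) *
        (starRingEnd ℂ) (∑ n ∈ F, b n * (n:ℂ) ^ (-(1 / 2 + t * I : ℂ))))) -
      ∑ h ∈ F, ∑ l ∈ F, a h * (starRingEnd ℂ) (b l) * ((1 / (Nat.lcm h l : ℝ) *
        (Real.log (X / (2 * Real.pi * κ) * (Nat.gcd h l : ℝ) ^ 2 / ((h:ℝ) * l)) +
          ((harmonic κ : ℝ) + Real.eulerMascheroniConstant)) : ℝ) : ℂ)‖ ≤ M ^ 2 * X ^ (-η))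
    (b2 : ∫ t in Set.Ioi (0:ℝ), wt κ X t * zh t ^ 2 ≤ C4 * Real.log X ^ 5) :
    IntegrableOn (fun u => wt κ X u * ((‖AS (s:ℂ) y K (pw δ (u - v))‖ ^ 2 + e) * zh u ^ 2))
      (Set.Ioi 0) ∧
    ∫ u in Set.Ioi (0:ℝ), wt κ X u * ((‖AS (s:ℂ) y K (pw δ (u - v))‖ ^ 2 + e) * zh u ^ 2) ≤
      2 * Real.log X * SS s δ (FS y K) + M ^ 2 * X ^ (-η) + e * (C4 * Real.log X ^ 5) := by
  obtain ⟨P, hP⟩ : ∃ P : ℝ → ℂ, P = fun u => AS (s:ℂ) y K (pw δ (u - v)) := ⟨_, rfl⟩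
  have hPu : ∀ u, AS (s:ℂ) y K (pw δ (u - v)) = P u := fun u => by rw [hP]
  have hPc : Continuous P := by
    rw [hP]
    exact (AS_cont (s:ℂ) y K δ).comp (continuous_id.sub continuous_const)
  simp only [hPu]
  have hPb : ∀ u, ‖P u‖ ≤ ∑ n ∈ FS y K, ‖dS (s:ℂ) n‖ := by
    intro u
    rw [hP]
    exact AS_norm (s:ℂ) y K δ hδ _
  have i3 : IntegrableOn (fun u => (wt κ X u * zh u ^ 2) * ‖P u‖ ^ 2) (Set.Ioi 0) := by
    refine Integrable.mul_bdd (c := (∑ n ∈ FS y K, ‖dS (s:ℂ) n‖) ^ 2) i2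
      (hPc.norm.pow 2).aestronglyMeasurable (Eventually.of_forall fun u => ?_)
    rw [norm_pow, norm_norm]
    exact pow_le_pow_left₀ (norm_nonneg _) (hPb u) 2
  have heq : (fun u => wt κ X u * ((‖P u‖ ^ 2 + e) * zh u ^ 2)) =
      fun u => (wt κ X u * zh u ^ 2) * ‖P u‖ ^ 2 + e * (wt κ X u * zh u ^ 2) := by
    funext u
    ring
  rw [heq]
  refine ⟨i3.add (i2.const_mul e), ?_⟩
  rw [integral_add i3 (i2.const_mul e), integral_const_mul]
  refine add_le_add ?_ (mul_le_mul_of_nonneg_left b2 he)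
  have h := hts (FS y K) hlen (fun n => cf (s:ℂ) δ n * (n:ℂ) ^ ((v:ℂ) * I))
    (fun n => cf (s:ℂ) δ n * (n:ℂ) ^ ((v:ℂ) * I)) M hM
    (fun n hn => by rw [a_norm hs δ v (hlen n hn).1]; exact hMb n hn)
    (fun n hn => by rw [a_norm hs δ v (hlen n hn).1]; exact hMb n hn)
  have e1 : ∀ t : ℝ, ((wt κ X t * zh t ^ 2 : ℝ) : ℂ) *
      ((∑ n ∈ FS y K, (cf (s:ℂ) δ n * (n:ℂ) ^ ((v:ℂ) * I)) * (n:ℂ) ^ (-(1 / 2 + t * I : ℂ))) *
      (starRingEnd ℂ) (∑ n ∈ FS y K, (cf (s:ℂ) δ n * (n:ℂ) ^ ((v:ℂ) * I)) *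
        (n:ℂ) ^ (-(1 / 2 + t * I : ℂ)))) = (((wt κ X t * zh t ^ 2) * ‖P t‖ ^ 2 : ℝ) : ℂ) := by
    intro t
    rw [← AS_shift, hPu, Complex.mul_conj, Complex.normSq_eq_norm_sq]
    push_cast
    rfl
  have e2 : (∫ t in Set.Ioi (0:ℝ), ((wt κ X t * zh t ^ 2 : ℝ) : ℂ) *
      ((∑ n ∈ FS y K, (cf (s:ℂ) δ n * (n:ℂ) ^ ((v:ℂ) * I)) * (n:ℂ) ^ (-(1 / 2 + t * I : ℂ))) *
      (starRingEnd ℂ) (∑ n ∈ FS y K, (cf (s:ℂ) δ n * (n:ℂ) ^ ((v:ℂ) * I)) *
        (n:ℂ) ^ (-(1 / 2 + t * I : ℂ))))) =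
      ((∫ t in Set.Ioi (0:ℝ), (wt κ X t * zh t ^ 2) * ‖P t‖ ^ 2 : ℝ) : ℂ) := by
    exact (integral_congr_ae (Eventually.of_forall fun t => e1 t)).trans integral_complex_ofReal
  rw [e2] at h
  obtain ⟨Z, hZ⟩ : ∃ Z : ℂ, Z = ∑ h ∈ FS y K, ∑ l ∈ FS y K,
      (cf (s:ℂ) δ h * (h:ℂ) ^ ((v:ℂ) * I)) * (starRingEnd ℂ) (cf (s:ℂ) δ l * (l:ℂ) ^ ((v:ℂ) * I)) *
      ((1 / (Nat.lcm h l : ℝ) *
        (Real.log (X / (2 * Real.pi * κ) * (Nat.gcd h l : ℝ) ^ 2 / ((h:ℝ) * l)) +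
          ((harmonic κ : ℝ) + Real.eulerMascheroniConstant)) : ℝ) : ℂ) := ⟨_, rfl⟩
  rw [← hZ] at h
  have hZn : ‖Z‖ ≤ 2 * Real.log X * SS s δ (FS y K) := by
    rw [hZ]
    unfold SS
    rw [Finset.mul_sum]
    refine (norm_sum_le _ _).trans (Finset.sum_le_sum fun h hh => ?_)
    rw [Finset.mul_sum]
    refine (norm_sum_le _ _).trans (Finset.sum_le_sum fun l hl => ?_)
    obtain ⟨p1, p2⟩ := hlen h hh
    obtain ⟨q1, q2⟩ := hlen l hl
    rw [norm_mul, norm_mul, RCLike.norm_conj, a_norm hs δ v p1, a_norm hs δ v q1, Complex.norm_real,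
      norm_mul, Real.norm_eq_abs, Real.norm_eq_abs, abs_of_nonneg (by positivity : (0:ℝ) ≤ 1 / (Nat.lcm h l : ℝ))]
    have h1 := lg_bound hX hκ hL p1 q1 p2 q2
    have h2 : 0 ≤ cr s δ h * cr s δ l * (1 / (Nat.lcm h l : ℝ)) :=
      mul_nonneg (mul_nonneg (cr_nn hs δ h) (cr_nn hs δ l)) (by positivity)
    have h3 := mul_le_mul_of_nonneg_left h1 h2
    calc _ = cr s δ h * cr s δ l * (1 / (Nat.lcm h l : ℝ)) *
          |Real.log (X / (2 * Real.pi * κ) * (Nat.gcd h l : ℝ) ^ 2 / ((h:ℝ) * l)) +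
            ((harmonic κ : ℝ) + Real.eulerMascheroniConstant)| := by ring
      _ ≤ cr s δ h * cr s δ l * (1 / (Nat.lcm h l : ℝ)) * (2 * Real.log X) := h3
      _ = _ := by ring
  have h4 := norm_le_norm_add_norm_sub'
    ((∫ t in Set.Ioi (0:ℝ), (wt κ X t * zh t ^ 2) * ‖P t‖ ^ 2 : ℝ) : ℂ) Z
  have h5 : (∫ t in Set.Ioi (0:ℝ), (wt κ X t * zh t ^ 2) * ‖P t‖ ^ 2) ≤
      ‖((∫ t in Set.Ioi (0:ℝ), (wt κ X t * zh t ^ 2) * ‖P t‖ ^ 2 : ℝ) : ℂ)‖ := by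
    rw [Complex.norm_real]
    exact Real.le_norm_self _
  linarith

/-! ### the shift -/

lemma wt_shift {κ : ℕ} {X t v : ℝ} (hX : 0 < X) (ht : 0 < t) (hv : |v| ≤ t / 2)
    (h : (κ:ℝ) * (2 * (|v| / t) + |v| / X) ≤ 1 / 2) : wt κ X t ≤ 2 * wt κ X (t + v) := by
  obtain ⟨x, hx⟩ : ∃ x, x = |v| / t := ⟨_, rfl⟩
  have hx0 : 0 ≤ x := by rw [hx]; positivity
  have hx1 : x ≤ 1 / 2 := by
    rw [hx, div_le_iff₀ ht]
    linarith
  have hvt : |v| = x * t := by rw [hx]; field_simp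
  have htv : t * (1 - x) ≤ t + v := by
    have := neg_abs_le v
    nlinarith
  have htv0 : 0 ≤ t + v := le_trans (mul_nonneg ht.le (by linarith)) htv
  have hex : 1 ≤ (1 - x) * Real.exp (2 * x) := by
    have h1 := Real.add_one_le_exp (2 * x)
    have h2 : (1 - x) * (2 * x + 1) ≤ (1 - x) * Real.exp (2 * x) :=
      mul_le_mul_of_nonneg_left h1 (by linarith)
    nlinarith
  have h1 : t ≤ (t + v) * Real.exp (2 * x) := by
    calc t = t * 1 := (mul_one t).symm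
      _ ≤ t * ((1 - x) * Real.exp (2 * x)) := mul_le_mul_of_nonneg_left hex ht.le
      _ = t * (1 - x) * Real.exp (2 * x) := by ring
      _ ≤ _ := mul_le_mul_of_nonneg_right htv (Real.exp_pos _).le
  have h2 : t ^ κ ≤ (t + v) ^ κ * Real.exp (κ * (2 * x)) := by
    calc t ^ κ ≤ ((t + v) * Real.exp (2 * x)) ^ κ := pow_le_pow_left₀ ht.le h1 κ
      _ = _ := by rw [mul_pow, ← Real.exp_nat_mul]
  have h3 : Real.exp (-((κ:ℝ) / X * t)) ≤
      Real.exp (-((κ:ℝ) / X * (t + v))) * Real.exp (κ * (|v| / X)) := by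
    rw [← Real.exp_add]
    apply Real.exp_le_exp.2
    have h4 : (κ:ℝ) / X * v ≤ κ * (|v| / X) := by
      calc (κ:ℝ) / X * v ≤ (κ:ℝ) / X * |v| := mul_le_mul_of_nonneg_left (le_abs_self v) (by positivity)
        _ = _ := by ring
    linarith
  have h5 : Real.exp (κ * (2 * x)) * Real.exp (κ * (|v| / X)) ≤ 2 := by
    rw [← Real.exp_add]
    have h6 : (κ:ℝ) * (2 * x) + κ * (|v| / X) ≤ 1 / 2 := by
      rw [hx]
      linarith
    have h7 := Real.exp_bound_div_one_sub_of_interval (x := 1 / 2) (by norm_num) (by norm_num)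
    have h8 := Real.exp_le_exp.2 h6
    norm_num at h7
    linarith
  unfold wt
  have hA : 0 ≤ ((κ:ℝ) / X) ^ (κ + 1) := by positivity
  have hB : 0 ≤ (t + v) ^ κ := by positivity
  have hf : (0:ℝ) < (κ.factorial : ℝ) := by exact_mod_cast Nat.factorial_pos κ
  rw [← mul_div_assoc]
  apply div_le_div_of_nonneg_right _ hf.le
  calc ((κ:ℝ) / X) ^ (κ + 1) * t ^ κ * Real.exp (-((κ:ℝ) / X * t)) ≤
      ((κ:ℝ) / X) ^ (κ + 1) * ((t + v) ^ κ * Real.exp (κ * (2 * x))) *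
        (Real.exp (-((κ:ℝ) / X * (t + v))) * Real.exp (κ * (|v| / X))) := by
        apply mul_le_mul _ h3 (Real.exp_pos _).le (by positivity)
        exact mul_le_mul_of_nonneg_left h2 hA
    _ = (((κ:ℝ) / X) ^ (κ + 1) * (t + v) ^ κ * Real.exp (-((κ:ℝ) / X * (t + v)))) *
        (Real.exp (κ * (2 * x)) * Real.exp (κ * (|v| / X))) := by ring
    _ ≤ (((κ:ℝ) / X) ^ (κ + 1) * (t + v) ^ κ * Real.exp (-((κ:ℝ) / X * (t + v)))) * 2 :=
        mul_le_mul_of_nonneg_left h5 (by positivity)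
    _ = _ := by ring

/-- the main function -/
noncomputable def GG (s δ y : ℝ) (K : ℕ) (e v t : ℝ) : ℝ :=
  (‖AS (s:ℂ) y K (pw δ t)‖ ^ 2 + e) * zh (t + v) ^ 2

lemma GG_cont (s δ y : ℝ) (K : ℕ) (e v : ℝ) : Continuous (GG s δ y K e v) := by
  unfold GG
  exact (((AS_cont (s:ℂ) y K δ).norm.pow 2).add continuous_const).mul
    ((FIN.zh_cont.comp (continuous_id.add continuous_const)).pow 2)

lemma GG_nn {s δ y : ℝ} {K : ℕ} {e v : ℝ} (he : 0 ≤ e) (t : ℝ) : 0 ≤ GG s δ y K e v t := by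
  unfold GG
  positivity

lemma wt_contt (κ : ℕ) (X : ℝ) : Continuous (wt κ X) := by
  unfold wt
  fun_prop

lemma tr {X δ y s v e a b : ℝ} {K κ : ℕ} (ha : 0 < a) (hab : a ≤ b) (hX : 0 < X) (hav : 0 ≤ a + v)
    (he : 0 ≤ e) (hsh : ∀ t ∈ Set.Ioc a b, wt κ X t ≤ 2 * wt κ X (t + v))
    (hi : IntegrableOn (fun u => wt κ X u * ((‖AS (s:ℂ) y K (pw δ (u - v))‖ ^ 2 + e) * zh u ^ 2))
      (Set.Ioi 0)) :
    ∫ t in Set.Ioi (0:ℝ), wt κ X t * (Set.Ioc a b).indicator (GG s δ y K e v) t ≤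
      2 * ∫ u in Set.Ioi (0:ℝ), wt κ X u * ((‖AS (s:ℂ) y K (pw δ (u - v))‖ ^ 2 + e) * zh u ^ 2) := by
  obtain ⟨Φ, hΦ⟩ : ∃ Φ : ℝ → ℝ, Φ = fun u => wt κ X u * ((‖AS (s:ℂ) y K (pw δ (u - v))‖ ^ 2 + e) *
    zh u ^ 2) := ⟨_, rfl⟩
  rw [← hΦ] at hi ⊢
  have hΦc : Continuous Φ := by
    rw [hΦ]
    exact (wt_contt κ X).mul (((((AS_cont (s:ℂ) y K δ).comp
      (continuous_id.sub continuous_const)).norm.pow 2).add continuous_const).mul
      (FIN.zh_cont.pow 2))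
  have hΦn : ∀ u ∈ Set.Ioi (0:ℝ), 0 ≤ Φ u := by
    intro u hu
    rw [hΦ]
    exact mul_nonneg (UNS.wt_nonneg κ hX hu) (by positivity)
  have hΦt : ∀ t, Φ (t + v) = wt κ X (t + v) * GG s δ y K e v t := by
    intro t
    rw [hΦ]
    show wt κ X (t + v) * ((‖AS (s:ℂ) y K (pw δ (t + v - v))‖ ^ 2 + e) * zh (t + v) ^ 2) = _
    rw [add_sub_cancel_right]
    rfl
  have e1 : (fun t => wt κ X t * (Set.Ioc a b).indicator (GG s δ y K e v) t) =
      (Set.Ioc a b).indicator (fun t => wt κ X t * GG s δ y K e v t) := by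
    funext t
    by_cases h : t ∈ Set.Ioc a b
    · rw [Set.indicator_of_mem h, Set.indicator_of_mem h]
    · rw [Set.indicator_of_notMem h, Set.indicator_of_notMem h, mul_zero]
  rw [e1, setIntegral_indicator measurableSet_Ioc]
  have e2 : Set.Ioi (0:ℝ) ∩ Set.Ioc a b = Set.Ioc a b := by
    rw [Set.inter_eq_right]
    intro t ht
    exact ha.trans ht.1
  rw [e2]
  have k1 : IntegrableOn (fun t => wt κ X t * GG s δ y K e v t) (Set.Ioc a b) :=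
    (((wt_contt κ X).mul (GG_cont s δ y K e v)).integrableOn_Icc (a := a) (b := b)).mono_set
      Set.Ioc_subset_Icc_self
  have k2 : IntegrableOn (fun t => 2 * Φ (t + v)) (Set.Ioc a b) :=
    ((continuous_const.mul (hΦc.comp (continuous_id.add continuous_const))).integrableOn_Icc
      (a := a) (b := b)).mono_set Set.Ioc_subset_Icc_self
  have h1 : ∫ t in Set.Ioc a b, wt κ X t * GG s δ y K e v t ≤ ∫ t in Set.Ioc a b, 2 * Φ (t + v) := by
    refine setIntegral_mono_on k1 k2 measurableSet_Ioc fun t ht => ?_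
    rw [hΦt, ← mul_assoc]
    exact mul_le_mul_of_nonneg_right (hsh t ht) (GG_nn he t)
  refine h1.trans ?_
  rw [integral_const_mul]
  refine mul_le_mul_of_nonneg_left ?_ (by norm_num)
  rw [← intervalIntegral.integral_of_le hab, intervalIntegral.integral_comp_add_right Φ v,
    intervalIntegral.integral_of_le (by linarith)]
  refine setIntegral_mono_set hi ?_ ?_
  · exact (ae_restrict_iff' measurableSet_Ioi).2 (Eventually.of_forall hΦn)
  · exact Eventually.of_forall fun u hu => lt_of_le_of_lt hav hu.1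

/-- the integral over an interval -/
lemma whole {δ y s v e a b B : ℝ} {K κ : ℕ} (hκ : 1 ≤ κ) (ha : 0 < a) (hab : a ≤ b) (he : 0 ≤ e)
    (hck : UNS.ck κ ≤ 1)
    (hB : ∀ X ∈ Set.Icc a b,
      ∫ t in Set.Ioi (0:ℝ), wt κ X t * (Set.Ioc a b).indicator (GG s δ y K e v) t ≤ B) :
    ∫ t in Set.Ioc a b, GG s δ y K e v t ≤ 3 * (b * B) := by
  have hb : 0 < b := ha.trans_le hab
  obtain ⟨F, hF⟩ : ∃ F : ℝ → ℝ, F = (Set.Ioc a b).indicator (GG s δ y K e v) := ⟨_, rfl⟩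
  rw [← hF] at hB
  have hGi : IntegrableOn (GG s δ y K e v) (Set.Ioc a b) :=
    ((GG_cont s δ y K e v).integrableOn_Icc (a := a) (b := b)).mono_set Set.Ioc_subset_Icc_self
  have hF0 : ∀ t, 0 ≤ F t := by
    intro t
    rw [hF]
    exact Set.indicator_nonneg (fun t _ => GG_nn he t) t
  have hFm : Measurable F := by
    rw [hF]
    exact (GG_cont s δ y K e v).measurable.indicator measurableSet_Ioc
  have hFi : IntegrableOn F (Set.Ioc a b) := by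
    rw [hF]
    exact ((integrable_indicator_iff measurableSet_Ioc).2 hGi).integrableOn
  have hwi : ∀ X : ℝ, IntegrableOn (fun t => wt κ X t * F t) (Set.Ioi 0) := by
    intro X
    have e1 : (fun t => wt κ X t * F t) =
        (Set.Ioc a b).indicator (fun t => wt κ X t * GG s δ y K e v t) := by
      funext t
      rw [hF]
      by_cases h : t ∈ Set.Ioc a b
      · rw [Set.indicator_of_mem h, Set.indicator_of_mem h]
      · rw [Set.indicator_of_notMem h, Set.indicator_of_notMem h, mul_zero]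
    rw [e1]
    refine Integrable.integrableOn ?_
    rw [integrable_indicator_iff measurableSet_Ioc]
    exact (((wt_contt κ X).mul (GG_cont s δ y K e v)).integrableOn_Icc (a := a) (b := b)).mono_set
      Set.Ioc_subset_Icc_self
  obtain ⟨k1, k2⟩ := UNS.key hκ ha hab F hF0 hFm hFi (hwi a) (hwi b)
  have e3 : ∫ t in Set.Ioc a b, F t = ∫ t in Set.Ioc a b, GG s δ y K e v t := by
    rw [hF]
    exact setIntegral_congr_fun measurableSet_Ioc fun t ht => Set.indicator_of_mem ht _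
  rw [e3] at k2
  have hJa := hB a ⟨le_rfl, hab⟩
  have hJb := hB b ⟨hab, le_rfl⟩
  have hJ0 : ∀ X, 0 < X → 0 ≤ ∫ t in Set.Ioi (0:ℝ), wt κ X t * F t := fun X hX =>
    setIntegral_nonneg measurableSet_Ioi fun t ht => mul_nonneg (UNS.wt_nonneg κ hX ht) (hF0 t)
  have hB0 : 0 ≤ B := (hJ0 a ha).trans hJa
  have k3 : ∫ X in Set.Ioc a b, ∫ t in Set.Ioi (0:ℝ), wt κ X t * F t ≤ b * B := by
    have h1 : ∫ X in Set.Ioc a b, ∫ t in Set.Ioi (0:ℝ), wt κ X t * F t ≤ ∫ _X in Set.Ioc a b, B := by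
      refine setIntegral_mono_on k1 (integrableOn_const (by simp)) measurableSet_Ioc fun X hX => ?_
      exact hB X ⟨hX.1.le, hX.2⟩
    refine h1.trans ?_
    rw [setIntegral_const, smul_eq_mul, Real.volume_real_Ioc_of_le hab]
    exact mul_le_mul_of_nonneg_right (by linarith) hB0
  have k4 : UNS.ck κ * (a * (∫ t in Set.Ioi (0:ℝ), wt κ a t * F t) +
      b * ∫ t in Set.Ioi (0:ℝ), wt κ b t * F t) ≤ 2 * (b * B) := by
    have h1 : a * (∫ t in Set.Ioi (0:ℝ), wt κ a t * F t) ≤ b * B :=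
      mul_le_mul hab hJa (hJ0 a ha) hb.le
    have h2 : b * (∫ t in Set.Ioi (0:ℝ), wt κ b t * F t) ≤ b * B :=
      mul_le_mul_of_nonneg_left hJb hb.le
    have h3 : 0 ≤ b * B := mul_nonneg hb.le hB0
    calc _ ≤ UNS.ck κ * (2 * (b * B)) := mul_le_mul_of_nonneg_left (by linarith) (UNS.ck_nonneg κ)
      _ ≤ 1 * (2 * (b * B)) := mul_le_mul_of_nonneg_right hck (by linarith)
      _ = _ := one_mul _
  have k5 := (abs_le.1 k2).1
  linarith

/-! ### the exceptional set -/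

lemma bad {T v lam m : ℝ} (hT : 1000 ≤ T) (hv : |v| ≤ T ^ ((1:ℝ) / 4)) (hFT : S_FT) (E : Set ℝ)
    (hE : MeasurableSet E) (hE2 : E ⊆ Set.Icc (T ^ ((1:ℝ) / 2)) T) (hlam : 0 < lam) (hm : 0 ≤ m)
    (hEm : volume E ≤ ENNReal.ofReal m) :
    ∫ t in E, zh (t + v) ^ 2 ≤ lam / 2 * (2 * T * Real.log (2 * T) ^ 4) + m / (2 * lam) := by
  have hT0 : 0 < T := by linarith
  have h14 : T ^ ((1:ℝ) / 4) ≤ T ^ ((1:ℝ) / 2) :=
    Real.rpow_le_rpow_of_exponent_le (by linarith) (by norm_num)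
  have h12 : T ^ ((1:ℝ) / 2) ≤ T := by
    calc T ^ ((1:ℝ) / 2) ≤ T ^ (1:ℝ) := Real.rpow_le_rpow_of_exponent_le (by linarith) (by norm_num)
      _ = T := Real.rpow_one T
  obtain ⟨v1, v2⟩ := abs_le.1 hv
  have hc4 : Continuous fun t => zh (t + v) ^ 4 :=
    (FIN.zh_cont.comp (continuous_id.add continuous_const)).pow 4
  have hc2 : Continuous fun t => zh (t + v) ^ 2 :=
    (FIN.zh_cont.comp (continuous_id.add continuous_const)).pow 2
  have hfin : volume E ≠ ⊤ := (hEm.trans_lt ENNReal.ofReal_lt_top).ne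
  have hE3 : E ⊆ Set.Icc (-v) (2 * T - v) := fun t ht => by
    obtain ⟨a1, a2⟩ := hE2 ht
    exact ⟨by linarith, by linarith⟩
  have i4 : IntegrableOn (fun t => zh (t + v) ^ 4) (Set.Icc (-v) (2 * T - v)) := hc4.integrableOn_Icc
  have i2 : IntegrableOn (fun t => zh (t + v) ^ 2) E := hc2.integrableOn_Icc.mono_set hE3
  have i0 : IntegrableOn (fun _ : ℝ => 1 / (2 * lam)) E := integrableOn_const hfin
  have h1 : ∫ t in E, zh (t + v) ^ 2 ≤ ∫ t in E, (lam / 2 * zh (t + v) ^ 4 + 1 / (2 * lam)) := by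
    refine setIntegral_mono_on i2 (((i4.mono_set hE3).const_mul _).add i0) hE fun t _ => ?_
    have : lam / 2 * zh (t + v) ^ 4 + 1 / (2 * lam) - zh (t + v) ^ 2 =
        (lam * zh (t + v) ^ 2 - 1) ^ 2 / (2 * lam) := by
      field_simp
      ring
    have h : 0 ≤ (lam * zh (t + v) ^ 2 - 1) ^ 2 / (2 * lam) := by positivity
    linarith
  refine h1.trans ?_
  rw [integral_add ((i4.mono_set hE3).const_mul _) i0, integral_const_mul]
  apply add_le_add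
  · refine mul_le_mul_of_nonneg_left ?_ (by positivity)
    have h2 : ∫ t in E, zh (t + v) ^ 4 ≤ ∫ t in Set.Icc (-v) (2 * T - v), zh (t + v) ^ 4 := by
      refine setIntegral_mono_set i4 ?_ (Eventually.of_forall fun u hu => hE3 hu)
      exact Eventually.of_forall fun t => by
        simp only [Pi.zero_apply]
        positivity
    refine h2.trans ?_
    rw [integral_Icc_eq_integral_Ioc, ← intervalIntegral.integral_of_le (by linarith),
      intervalIntegral.integral_comp_add_right (fun u => zh u ^ 4) v, neg_add_cancel, sub_add_cancel]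
    exact hFT (2 * T) (by linarith)
  · rw [setIntegral_const, smul_eq_mul, div_eq_mul_one_div m]
    refine mul_le_mul_of_nonneg_right ?_ (by positivity)
    exact ENNReal.toReal_le_of_le_ofReal hm hEm


/-- numerical estimate for the exceptional set -/
lemma num {T L P1 lg m : ℝ} (hT : 0 < T) (hL : 0 < L) (hP : 0 < P1) (hlg : 0 ≤ lg) (hlg2 : lg ≤ 2 * L)
    (hm : m * (P1 * P1 * L ^ 4) ≤ 2 * T) :
    P1 * ((1 / (P1 * L ^ 4)) / 2 * (2 * T * lg ^ 4) + m / (2 * (1 / (P1 * L ^ 4)))) ≤ 17 * T := by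
  have h1 : lg ^ 4 ≤ (2 * L) ^ 4 := pow_le_pow_left₀ hlg hlg2 4
  have h2 : P1 * ((1 / (P1 * L ^ 4)) / 2 * (2 * T * lg ^ 4) + m / (2 * (1 / (P1 * L ^ 4)))) =
      T * lg ^ 4 / L ^ 4 + m * (P1 * P1 * L ^ 4) / 2 := by
    field_simp
  rw [h2]
  have h3 : T * lg ^ 4 / L ^ 4 ≤ 16 * T := by
    rw [div_le_iff₀ (by positivity)]
    calc T * lg ^ 4 ≤ T * (2 * L) ^ 4 := mul_le_mul_of_nonneg_left h1 hT.le
      _ = 16 * T * L ^ 4 := by ring
  linarith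

/-- the final comparison -/
lemma fin {T L δ Q MB C4 S k s I1 I2 B : ℝ} (hT : 0 < T) (hL : 1 ≤ L) (hδ : 0 < δ) (hQ1 : 1 ≤ Q)
    (hQ : Q = (2 * δ) ^ (-(s ^ 2 + 2 * s))) (hs : s = k - 1) (hC4 : 0 < C4)
    (hS : S ≤ (MB + 1) * Q) (h1 : I1 ≤ 17 * T) (h2 : I2 ≤ 3 * (T * B))
    (hB : B = 2 * (2 * L * S + 1 + C4)) :
    I1 + I2 ≤ 2 * (17 + 3 * (4 * (MB + 1) + 2 + 2 * C4)) * (δ * L * (2 * δ) ^ (-(k ^ 2)) * T) := by
  have e1 : (2 * δ) ^ (-(k ^ 2)) = Q * (2 * δ)⁻¹ := by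
    rw [hQ, ← Real.rpow_neg_one (2 * δ), ← Real.rpow_add (by positivity)]
    congr 1
    rw [hs]
    ring
  have e2 : δ * L * (2 * δ) ^ (-(k ^ 2)) * T = L * Q * T / 2 := by
    rw [e1]
    field_simp
  rw [e2]
  have hLQ : 1 ≤ L * Q := one_le_mul_of_one_le_of_one_le hL hQ1
  have hT1 : T ≤ L * Q * T := le_mul_of_one_le_left hT.le hLQ
  have hLS : L * S * T ≤ (MB + 1) * (L * Q * T) := by
    calc L * S * T ≤ L * ((MB + 1) * Q) * T :=
          mul_le_mul_of_nonneg_right (mul_le_mul_of_nonneg_left hS (by linarith)) hT.le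
      _ = _ := by ring
  have hC : C4 * T ≤ C4 * (L * Q * T) := mul_le_mul_of_nonneg_left hT1 hC4.le
  have h3 : 3 * (T * B) = 12 * (L * S * T) + 6 * T + 6 * (C4 * T) := by
    rw [hB]
    ring
  have h4 : 2 * (17 + 3 * (4 * (MB + 1) + 2 + 2 * C4)) * (L * Q * T / 2) =
      17 * (L * Q * T) + 12 * ((MB + 1) * (L * Q * T)) + 6 * (L * Q * T) + 6 * (C4 * (L * Q * T)) := by
    ring
  rw [h4]
  linarith

lemma qf {q L : ℝ} {κ : ℕ} (hL : 10 ≤ L) (h : 18 * L ^ 2 ≤ q) (hκ : (κ:ℝ) ≤ 2 * L ^ 2 + 1) :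
    2 ≤ q ∧ 6 * (κ:ℝ) ≤ q := by
  have h1 : 100 ≤ L ^ 2 := by nlinarith
  constructor <;> linarith

lemma qv {q a v : ℝ} (hq : 2 ≤ q) (hv : -q ≤ v) (ha : q * q ≤ a) : 0 ≤ a + v := by
  have h1 : q * 1 ≤ q * q := mul_le_mul_of_nonneg_left (by linarith) (by linarith)
  linarith

lemma sh {κ : ℕ} {q X t v : ℝ} (hq : 2 ≤ q) (hκ : 6 * (κ:ℝ) ≤ q) (hv : |v| ≤ q) (hX : q * q ≤ X)
    (ht : q * q ≤ t) : wt κ X t ≤ 2 * wt κ X (t + v) := by
  have hq0 : 0 < q := by linarith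
  have hqq : 2 * q ≤ q * q := mul_le_mul_of_nonneg_right hq hq0.le
  have ht0 : 0 < t := by linarith
  have hX0 : 0 < X := by linarith
  have hv0 := abs_nonneg v
  refine wt_shift hX0 ht0 (by linarith) ?_
  have h1 : |v| / t ≤ 1 / q := by
    rw [div_le_div_iff₀ ht0 hq0, one_mul]
    exact (mul_le_mul_of_nonneg_right hv hq0.le).trans ht
  have h2 : |v| / X ≤ 1 / q := by
    rw [div_le_div_iff₀ hX0 hq0, one_mul]
    exact (mul_le_mul_of_nonneg_right hv hq0.le).trans hX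
  have h3 : (κ:ℝ) * (2 * (|v| / t) + |v| / X) ≤ κ * (3 * (1 / q)) :=
    mul_le_mul_of_nonneg_left (by linarith) (Nat.cast_nonneg κ)
  refine h3.trans ?_
  rw [mul_one_div, ← mul_div_assoc, div_le_iff₀ hq0]
  linarith

theorem main (g1 : S_NIC) (g2 : S_CMP) (g3 : S_SIZ) (g4 : S_TSX) (_g5 : S_WTB) (g6 : S_W4) (g7 : S_DGF)
    (g8 : S_FT) : S_SH2 := by
  intro c d hd k V hk
  obtain ⟨s, hs⟩ : ∃ s, s = k - 1 := ⟨_, rfl⟩
  have hs0 : 0 ≤ s := by rw [hs]; linarith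
  have hsn : ‖(s:ℂ)‖ ≤ s := by rw [Complex.norm_real, Real.norm_of_nonneg hs0]
  have hc := hd.cpos
  obtain ⟨C0, hC00, hC0⟩ := g3 s hs0
  obtain ⟨Cc, hCc0, hCc⟩ := g2 s hs0
  obtain ⟨η, hη, hTSX⟩ := g4
  obtain ⟨C4, hC40, hC4⟩ := g6
  obtain ⟨MB, hMB0, hMB⟩ := OCM.aC_bound s
  obtain ⟨CD, δD, hCD0, hδD0, hCD⟩ := g7 s 1 hs0 one_pos
  obtain ⟨B0, hB0⟩ : ∃ B0, B0 = 2 * s * |V| := ⟨_, rfl⟩
  have hB00 : 0 ≤ B0 := by rw [hB0]; positivity
  obtain ⟨A0, hA0⟩ : ∃ A0, A0 = B0 + B0 + 4 := ⟨_, rfl⟩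
  have hA00 : 0 < A0 := by rw [hA0]; positivity
  obtain ⟨D1, hD1⟩ : ∃ D1, D1 = A0 / c := ⟨_, rfl⟩
  have hD10 : 0 < D1 := by rw [hD1]; positivity
  obtain ⟨ca, hca, hN'⟩ := g1 D1 hD10
  obtain ⟨E, hE⟩ : ∃ E, E = 5 / c := ⟨_, rfl⟩
  have hE0 : 0 < E := by rw [hE]; positivity
  obtain ⟨B, hB⟩ : ∃ B, B = Cc * (ca + 3) := ⟨_, rfl⟩
  have hBp : 0 < B := by rw [hB]; positivity
  obtain ⟨A, hA⟩ : ∃ A, A = B + E := ⟨_, rfl⟩
  have hAp : 0 < A := by rw [hA]; positivity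
  obtain ⟨C, hCd⟩ : ∃ C, C = 5 * (A + B) + CD + 4 * C0 / η + 4 := ⟨_, rfl⟩
  have hC0e : 0 < 4 * C0 / η := by positivity
  have hCA : 5 * (A + B) ≤ C := by rw [hCd]; linarith
  have hCCD : CD ≤ C := by rw [hCd]; linarith
  have hCC0 : 4 * C0 / η ≤ C := by rw [hCd]; linarith
  have hCC4 : 4 ≤ C := by rw [hCd]; linarith
  have hCp : 0 < C := by linarith
  have hEv := ((hN' C hCp).and (Ev.of_le hδD0)).and Ev.linv
  obtain ⟨X1, hX1⟩ := eventually_atTop.mp (hTSX.and hC4)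
  have ev6 : ∀ᶠ T : ℝ in atTop, X1 ≤ T ^ ((1:ℝ) / 2) :=
    (tendsto_rpow_atTop (by norm_num)).eventually_ge_atTop X1
  have ev7 : ∀ᶠ T : ℝ in atTop, Real.log T ^ A0 ≤ T ^ ((1:ℝ) / 2) := by
    have h2 := (isLittleO_log_rpow_rpow_atTop A0 (by norm_num : (0:ℝ) < 1 / 2)).bound one_pos
    filter_upwards [h2, eventually_ge_atTop 1] with T h3 h4
    rw [Real.norm_of_nonneg (Real.rpow_nonneg (Real.log_nonneg h4) _),
      Real.norm_of_nonneg (by positivity), one_mul] at h3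
    exact h3
  have ev8 : ∀ᶠ T : ℝ in atTop, A0 * Real.log (Real.log T) ≤ 1 / 10 * Real.log T := by
    have h1 := (FIN.loglog.const_mul A0).eventually_le_const (u := 1 / 10) (by simp)
    filter_upwards [h1, Real.tendsto_log_atTop.eventually_gt_atTop 0] with T h2 h3
    rw [← mul_div_assoc, div_le_iff₀ h3] at h2
    exact h2
  have ev9 : ∀ᶠ T : ℝ in atTop, UNS.ck (kp T) ≤ 1 :=
    (UNS.ck_tendsto.comp UNS.kp_tendsto).eventually_le_const one_pos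
  have ev10 : ∀ᶠ T : ℝ in atTop, 18 * Real.log T ^ 2 ≤ T ^ ((1:ℝ) / 4) := by
    have h2 := (isLittleO_log_rpow_rpow_atTop 2 (by norm_num : (0:ℝ) < 1 / 4)).bound
      (by norm_num : (0:ℝ) < 1 / 18)
    filter_upwards [h2, eventually_ge_atTop 1] with T h3 h4
    rw [Real.norm_of_nonneg (Real.rpow_nonneg (Real.log_nonneg h4) _),
      Real.norm_of_nonneg (by positivity), Real.rpow_two] at h3
    linarith
  refine ⟨2 * (17 + 3 * (4 * (MB + 1) + 2 + 2 * C4)), by positivity, ?_⟩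
  filter_upwards [hEv.app hd.toAd, hd.pos, hd.t0.eventually_le_const (by norm_num : (0:ℝ) < 1 / 16),
    hd.le, Real.tendsto_log_atTop.eventually_ge_atTop 10, eventually_ge_atTop 1000, ev6, ev7, ev8, ev9,
    ev10] with T hT1 hδ hδ16 hδc hL10 hT1000 hTX1 hTA hTll hck hT18
  intro v hv
  obtain ⟨⟨⟨y, K, N, hy, hy1, hK1, hKX, hvs, hNm, hNX, hNv, hNt⟩, hδD⟩, hlinv⟩ := hT1
  obtain ⟨δ, hδd⟩ : ∃ δ, δ = d T := ⟨_, rfl⟩
  rw [← hδd] at hδ hδ16 hδc hy1 hK1 hvs hNv hNt hδD hlinv ⊢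
  have hT0 : 0 < T := by linarith
  obtain ⟨L, hL⟩ : ∃ L, L = Real.log T := ⟨_, rfl⟩
  rw [← hL] at hL10 hKX hlinv hTA hTll hδc hT18 ⊢
  have hL0 : 0 < L := by linarith
  have hL1 : 1 ≤ L := by linarith
  have hδ1' : δ ≤ 1 := by linarith
  obtain ⟨l, hl⟩ : ∃ l, l = Real.log (1 / δ) := ⟨_, rfl⟩
  have hl1 : 1 ≤ l := by rw [hl]; exact log_inv_ge hδ hδ16
  have hl0 : 0 < l := by linarith
  rw [← hl] at hy1 hK1 hvs hNt
  have hrp : ∀ a : ℝ, δ ^ a = Real.exp (-(a * l)) := fun a => by rw [hl]; exact rpow_eq hδ a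
  have hly : 0 < Real.log y := Real.log_pos (by linarith)
  have hKly : 0 ≤ (K + 1) * Real.log y := by positivity
  -- powers of the logarithm
  have hδp : ∀ a : ℝ, 0 ≤ a → δ ^ (a / c) * L ^ a ≤ 1 := by
    intro a ha
    have h1 : δ ^ (a / c) ≤ (L ^ (-c)) ^ (a / c) := Real.rpow_le_rpow hδ.le hδc (by positivity)
    have h2 : (L ^ (-c)) ^ (a / c) = L ^ (-a) := by
      rw [← Real.rpow_mul hL0.le]
      congr 1
      field_simp
    rw [h2] at h1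
    calc δ ^ (a / c) * L ^ a ≤ L ^ (-a) * L ^ a := mul_le_mul_of_nonneg_right h1 (by positivity)
      _ = 1 := by rw [← Real.rpow_add hL0, neg_add_cancel, Real.rpow_zero]
  have he5 : δ ^ E * L ^ 5 ≤ 1 := by
    have := hδp 5 (by norm_num)
    rw [← hE] at this
    exact_mod_cast this
  -- pointwise comparison
  have hexpE : ∀ x : ℝ, x = Cc * (ca * l + 2 * l + 1) → Real.exp x ≤ Real.exp (B * l) := by
    intro x hx
    rw [hx, hB, mul_assoc]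
    apply Real.exp_le_exp.2
    apply mul_le_mul_of_nonneg_left _ hCc0.le
    rw [add_mul]
    linarith
  have hK45 : ((4 : ℝ) / 5) ^ K ≤ Real.exp (-((A + B) * l)) := by
    have g1 : (4 : ℝ) / 5 ≤ Real.exp (-(1 / 5)) := by
      have := Real.add_one_le_exp (-(1 / 5 : ℝ))
      linarith
    calc ((4 : ℝ) / 5) ^ K ≤ Real.exp (-(1 / 5)) ^ K := pow_le_pow_left₀ (by norm_num) g1 K
      _ = Real.exp (-(K / 5)) := by
        rw [← Real.exp_nat_mul]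
        congr 1
        ring
      _ ≤ _ := by
        apply Real.exp_le_exp.2
        have := mul_le_mul_of_nonneg_right hCA hl0.le
        linarith
  have hpt : ∀ t ∈ N, mz δ t ^ (2 * s) ≤ ‖AS (s:ℂ) y K (pw δ t)‖ ^ 2 + δ ^ E := by
    intro t ht
    obtain ⟨g1, g2⟩ := hNt t ht
    have hre : 1 / 2 ≤ (pw δ t).re := by
      unfold pw
      simp
      linarith
    have k1 : ‖riemannZeta (pw δ t) * AS (-1) y K (pw δ t) - 1‖ ≤ δ ^ A :=
      g2.trans (Real.rpow_le_rpow_of_exponent_ge hδ hδ1' (by linarith))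
    have k2 : (4 / 5 : ℝ) ^ K * Real.exp (Cc * (ca * l + 2 * l + 1)) ≤ δ ^ A := by
      rw [hrp]
      calc _ ≤ Real.exp (-((A + B) * l)) * Real.exp (B * l) :=
            mul_le_mul hK45 (hexpE _ rfl) (Real.exp_pos _).le (Real.exp_pos _).le
        _ = Real.exp (-(A * l)) := by
          rw [← Real.exp_add]
          congr 1
          ring
    have k3 : δ ^ A * Real.exp (Cc * (ca * l + 2 * l + 1)) ≤ δ ^ E := by
      rw [hrp, hrp]
      calc _ ≤ Real.exp (-(A * l)) * Real.exp (B * l) :=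
            mul_le_mul_of_nonneg_left (hexpE _ rfl) (Real.exp_pos _).le
        _ = _ := by
          rw [← Real.exp_add, hA]
          congr 1
          ring
    have k4 : δ ^ E ≤ 1 := Real.rpow_le_one hδ.le hδ1' hE0.le
    have k5 := (hCc y K (pw δ t) (ca * l) (2 * l) (δ ^ A) hy hre g1 hvs (Real.rpow_pos_of_pos hδ _) k1 k2
      (k3.trans k4) (s:ℂ) hsn).trans k3
    rw [Complex.conj_ofReal, Complex.mul_conj, Complex.normSq_eq_norm_sq] at k5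
    have e1 : ((‖riemannZeta (pw δ t)‖ : ℝ) : ℂ) ^ (2 * (s:ℂ)) = ((mz δ t ^ (2 * s) : ℝ) : ℂ) := by
      unfold mz
      rw [Complex.ofReal_cpow (norm_nonneg _)]
      push_cast
      rfl
    rw [e1, ← Complex.ofReal_sub, Complex.norm_real, Real.norm_eq_abs] at k5
    have := (abs_le.1 k5).2
    linarith
  -- the scales
  obtain ⟨κ, hκd⟩ : ∃ κ, κ = kp T := ⟨_, rfl⟩
  obtain ⟨kb1, kb2⟩ := FIN.kp_bd T
  rw [← hκd] at hck kb1 kb2
  rw [← hL] at kb1 kb2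
  have hκ1 : 1 ≤ κ := by
    have h1 : 1 ≤ L ^ 2 := one_le_pow₀ hL1
    have h2 : (1:ℝ) ≤ κ := by linarith
    exact_mod_cast h2
  have hLA : 1 ≤ L ^ A0 := Real.one_le_rpow hL1 hA00.le
  have hLA0 : 0 < L ^ A0 := by linarith
  obtain ⟨a, ha⟩ : ∃ a, a = T / L ^ A0 := ⟨_, rfl⟩
  have ha0 : 0 < a := by rw [ha]; positivity
  have haT : a ≤ T := by
    rw [ha]
    exact div_le_self hT0.le hLA
  obtain ⟨q, hq⟩ : ∃ q, q = T ^ ((1:ℝ) / 4) := ⟨_, rfl⟩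
  have hq0 : 0 < q := by rw [hq]; positivity
  have hqq : T ^ ((1:ℝ) / 2) = q * q := by
    rw [hq, ← Real.rpow_add hT0]
    norm_num
  have hqT : T = q * q * (q * q) := by
    rw [← hqq, ← Real.rpow_add hT0]
    norm_num
  rw [← hq] at hv hT18
  rw [hqq] at hTX1 hTA ⊢
  have hqa : q * q ≤ a := by
    rw [ha, le_div_iff₀ hLA0]
    calc q * q * L ^ A0 ≤ q * q * (q * q) := mul_le_mul_of_nonneg_left hTA (by positivity)
      _ = T := hqT.symm
  obtain ⟨hq2, hκq⟩ := qf hL10 hT18 kb2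
  have hloga : 9 / 10 * L ≤ Real.log a := by
    rw [ha, Real.log_div hT0.ne' hLA0.ne', Real.log_rpow hL0, ← hL]
    linarith
  -- sizes
  have hM0 : 0 < T ^ (η / 4) := Real.rpow_pos_of_pos hT0 _
  have hMb : ∀ n ∈ FS y K, cr s δ n ≤ T ^ (η / 4) := by
    intro n hn
    have h1 := cf_norm (s := (s:ℂ)) hδ.le hn
    rw [cr_eq, Complex.norm_real, Real.norm_of_nonneg (cr_nn hs0 δ n)] at h1
    refine h1.trans (((hC0 y hy K).2 (s:ℂ) hsn).trans ?_)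
    rw [Real.rpow_def_of_pos hT0, ← hL]
    apply Real.exp_le_exp.2
    have k1 : 4 * C0 / η * ((K + 1) * Real.log y) ≤ L :=
      (mul_le_mul_of_nonneg_right hCC0 hKly).trans hKX
    have k2 : C0 * ((K + 1) * Real.log y) = η / 4 * (4 * C0 / η * ((K + 1) * Real.log y)) := by
      field_simp
    rw [k2]
    have := mul_le_mul_of_nonneg_left k1 (by positivity : 0 ≤ η / 4)
    linarith
  have hKl4 : 4 * ((K + 1) * Real.log y) ≤ L := (mul_le_mul_of_nonneg_right hCC4 hKly).trans hKX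
  have hdgf := (hCD δ hδ hδD y K hy
    ((mul_le_mul_of_nonneg_right hCCD (by rw [← hl]; exact hl0.le)).trans (by rw [← hl]; exact hy1))
    ((mul_le_mul_of_nonneg_right hCCD (by rw [← hl]; exact hl0.le)).trans (by rw [← hl]; exact hK1))
    (s:ℂ) hsn).1
  have hSb := SS_bound hs0 hδ (FS y K) hdgf (hMB (s:ℂ) hsn)
  obtain ⟨Q, hQ⟩ : ∃ Q, Q = (2 * δ) ^ (-(s ^ 2 + 2 * s)) := ⟨_, rfl⟩
  rw [← hQ] at hSb
  have hQ1 : 1 ≤ Q := by
    rw [hQ]
    exact Real.one_le_rpow_of_pos_of_le_one_of_nonpos (by positivity) (by linarith)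
      (by have := sq_nonneg s; linarith)
  have heE : 0 ≤ δ ^ E := (Real.rpow_pos_of_pos hδ _).le
  have hS0 : 0 ≤ SS s δ (FS y K) := SS_nn hs0 δ _
  obtain ⟨v1, v2⟩ := abs_le.1 hv
  -- the windows
  have hwin : ∀ X ∈ Set.Icc a T,
      ∫ t in Set.Ioi (0:ℝ), wt κ X t * (Set.Ioc a T).indicator (GG s δ y K (δ ^ E) v) t ≤
        2 * (2 * L * SS s δ (FS y K) + 1 + C4) := by
    intro X hX
    have hXq : q * q ≤ X := hqa.trans hX.1
    have hX0 : 0 < X := ha0.trans_le hX.1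
    have hlX1 : 9 / 10 * L ≤ Real.log X := hloga.trans (Real.log_le_log ha0 hX.1)
    have hlX2 : Real.log X ≤ L := by
      rw [hL]
      exact Real.log_le_log hX0 hX.2
    have hRg : Rg κ X := by
      rw [hκd]
      refine FIN.rg_of ?_ hT0 ?_ ?_ hX0
      · rw [← hL]; linarith
      · rw [← hL]; exact hlX1
      · linarith [hX.2]
    obtain ⟨hts, hw4⟩ := hX1 X (hTX1.trans hXq)
    obtain ⟨i4, i2, b4, b2, b2t⟩ := hw4 κ hRg
    have hlen : ∀ n ∈ FS y K, 1 ≤ n ∧ (n:ℝ) ≤ X ^ ((1:ℝ) / 2) := by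
      intro n hn
      obtain ⟨a1, a2⟩ := (hC0 y hy K).1 n hn
      refine ⟨a1, a2.trans ?_⟩
      rw [Real.rpow_def_of_pos hX0]
      apply Real.exp_le_exp.2
      linarith
    obtain ⟨w1, w2⟩ := win (v := v) (η := η) (M := T ^ (η / 4)) (e := δ ^ E) (C4 := C4) hs0 hX0 hκ1
      (by linarith) heE hM0 hδ.le hlen hMb i2 (hts κ hRg) b2
    have hMX : (T ^ (η / 4)) ^ 2 * X ^ (-η) ≤ 1 := by
      have h1 : X ^ (-η) ≤ (q * q) ^ (-η) :=
        Real.rpow_le_rpow_of_nonpos (by positivity) hXq (by linarith)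
      have h2 : (T ^ (η / 4)) ^ 2 = (q * q) ^ η := by
        rw [← hqq, ← Real.rpow_mul hT0.le, ← Real.rpow_natCast, ← Real.rpow_mul hT0.le]
        congr 1
        push_cast
        ring
      rw [h2]
      calc (q * q) ^ η * X ^ (-η) ≤ (q * q) ^ η * (q * q) ^ (-η) :=
            mul_le_mul_of_nonneg_left h1 (by positivity)
        _ = 1 := by
          rw [← Real.rpow_add (by positivity), add_neg_cancel, Real.rpow_zero]
    have he5' : δ ^ E * (C4 * Real.log X ^ 5) ≤ C4 := by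
      have h1 : Real.log X ^ 5 ≤ L ^ 5 := pow_le_pow_left₀ (by linarith) hlX2 5
      calc δ ^ E * (C4 * Real.log X ^ 5) ≤ δ ^ E * (C4 * L ^ 5) :=
            mul_le_mul_of_nonneg_left (mul_le_mul_of_nonneg_left h1 hC40.le) heE
        _ = C4 * (δ ^ E * L ^ 5) := by ring
        _ ≤ C4 * 1 := mul_le_mul_of_nonneg_left he5 hC40.le
        _ = C4 := mul_one _
    have hlS : 2 * Real.log X * SS s δ (FS y K) ≤ 2 * L * SS s δ (FS y K) :=
      mul_le_mul_of_nonneg_right (by linarith) hS0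
    have hsh : ∀ t ∈ Set.Ioc a T, wt κ X t ≤ 2 * wt κ X (t + v) := fun t ht =>
      sh hq2 hκq hv hXq (hqa.trans ht.1.le)
    have htr := tr ha0 haT hX0 (qv hq2 v1 hqa) heE hsh w1
    linarith
  have hwh := whole (δ := δ) (y := y) (s := s) (v := v) (K := K) hκ1 ha0 haT heE hck hwin
  -- the exceptional set
  obtain ⟨ES, hES⟩ : ∃ ES : Set ℝ, ES = Set.Icc (T ^ ((1:ℝ) / 2)) T ∩ (Set.Iic a ∪ Nᶜ) := ⟨_, rfl⟩
  have hESm : MeasurableSet ES := by
    rw [hES]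
    exact measurableSet_Icc.inter (measurableSet_Iic.union hNm.compl)
  have hES2 : ES ⊆ Set.Icc (T ^ ((1:ℝ) / 2)) T := by
    rw [hES]
    exact Set.inter_subset_left
  have hm0 : 0 ≤ a + δ ^ D1 * T := by positivity
  have hESv : volume ES ≤ ENNReal.ofReal (a + δ ^ D1 * T) := by
    have h1 : ES ⊆ Set.Icc 0 a ∪ (Set.Icc 0 T \ N) := by
      rw [hES, hqq]
      rintro t ⟨ht1, ht2⟩
      have ht0 : 0 ≤ t := le_trans (by positivity) ht1.1
      rcases ht2 with h | h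
      · exact Or.inl ⟨ht0, h⟩
      · exact Or.inr ⟨⟨ht0, ht1.2⟩, h⟩
    refine (measure_mono h1).trans ((measure_union_le _ _).trans ?_)
    rw [Real.volume_Icc, sub_zero, ENNReal.ofReal_add ha0.le (by positivity)]
    exact add_le_add le_rfl hNv
  have hP1 : 0 < L ^ B0 := Real.rpow_pos_of_pos hL0 _
  have hLAe : L ^ A0 = L ^ B0 * L ^ B0 * L ^ 4 := by
    rw [hA0, Real.rpow_add hL0, Real.rpow_add hL0]
    congr 1
    exact_mod_cast Real.rpow_natCast L 4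
  have hlam : 0 < 1 / (L ^ B0 * L ^ 4) := by positivity
  have hbad := bad hT1000 (by rw [← hq]; exact hv) g8 ES hESm hES2 hlam hm0 hESv
  have hlg2 : Real.log (2 * T) ≤ 2 * L := by
    rw [Real.log_mul (by norm_num) hT0.ne', ← hL]
    have := Real.log_two_lt_d9
    linarith
  have hmm : (a + δ ^ D1 * T) * (L ^ B0 * L ^ B0 * L ^ 4) ≤ 2 * T := by
    rw [← hLAe, add_mul]
    have h1 : a * L ^ A0 = T := by
      rw [ha]
      field_simp
    have h2 : δ ^ D1 * T * L ^ A0 ≤ T := by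
      have h3 := hδp A0 hA00.le
      rw [← hD1] at h3
      calc δ ^ D1 * T * L ^ A0 = T * (δ ^ D1 * L ^ A0) := by ring
        _ ≤ T * 1 := mul_le_mul_of_nonneg_left h3 hT0.le
        _ = T := mul_one T
    linarith
  have hnum := num hT0 hL0 hP1 (Real.log_nonneg (by linarith)) hlg2 hmm
  -- the pointwise bound
  have hzc : Continuous fun t => zh (t + v) ^ 2 :=
    (FIN.zh_cont.comp (continuous_id.add continuous_const)).pow 2
  obtain ⟨f1, hf1⟩ : ∃ f1 : ℝ → ℝ, f1 = ES.indicator (fun t => L ^ B0 * zh (t + v) ^ 2) := ⟨_, rfl⟩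
  obtain ⟨f2, hf2⟩ : ∃ f2 : ℝ → ℝ, f2 = (Set.Ioc a T).indicator (GG s δ y K (δ ^ E) v) := ⟨_, rfl⟩
  have if1 : Integrable f1 := by
    rw [hf1, integrable_indicator_iff hESm]
    exact ((continuous_const.mul hzc).integrableOn_Icc.mono_set hES2)
  have if2 : Integrable f2 := by
    rw [hf2, integrable_indicator_iff measurableSet_Ioc]
    exact ((GG_cont s δ y K (δ ^ E) v).integrableOn_Icc (a := a) (b := T)).mono_set
      Set.Ioc_subset_Icc_self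
  have hf10 : ∀ t, 0 ≤ f1 t := by
    intro t
    rw [hf1]
    exact Set.indicator_nonneg (fun t _ => by positivity) t
  have hf20 : ∀ t, 0 ≤ f2 t := by
    intro t
    rw [hf2]
    exact Set.indicator_nonneg (fun t _ => GG_nn heE t) t
  have hδL : (2 * δ)⁻¹ ≤ L := by
    have h1 : (2 * δ)⁻¹ ≤ 1 / δ := by
      rw [one_div]
      exact inv_anti₀ hδ (by linarith)
    exact h1.trans hlinv
  have hGTm : MeasurableSet (GT V δ T) := by
    have h1 : Measurable (mz δ) := TMC.mz_meas (by linarith)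
    exact measurableSet_Icc.inter (measurableSet_le h1 measurable_const)
  have hpw : ∀ t ∈ GT V δ T ∩ Set.Ici (q * q),
      mz δ t ^ (2 * k - 2) * zh (t + v) ^ 2 ≤ f1 t + f2 t := by
    rintro t ⟨⟨⟨ht0, htT⟩, htm⟩, htq⟩
    have e2s : 2 * k - 2 = 2 * s := by rw [hs]; ring
    rw [e2s]
    have hz0 : 0 ≤ zh (t + v) ^ 2 := by positivity
    by_cases hte : t ∈ ES
    · have h1 : f1 t = L ^ B0 * zh (t + v) ^ 2 := by
        rw [hf1, Set.indicator_of_mem hte]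
      have h2 : mz δ t ^ (2 * s) ≤ L ^ B0 := by
        have h2δ : 0 < 2 * δ := by positivity
        calc mz δ t ^ (2 * s) ≤ ((2 * δ) ^ (-V)) ^ (2 * s) :=
              Real.rpow_le_rpow (norm_nonneg _) htm (by positivity)
          _ = (2 * δ) ^ (-V * (2 * s)) := by rw [← Real.rpow_mul h2δ.le]
          _ ≤ (2 * δ) ^ (-B0) := by
              apply Real.rpow_le_rpow_of_exponent_ge h2δ (by linarith)
              rw [hB0]
              have := mul_le_mul_of_nonneg_left (le_abs_self V) (by positivity : 0 ≤ 2 * s)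
              linarith
          _ = ((2 * δ)⁻¹) ^ B0 := by rw [Real.rpow_neg h2δ.le, Real.inv_rpow h2δ.le]
          _ ≤ L ^ B0 := Real.rpow_le_rpow (by positivity) hδL hB00
      have h3 := mul_le_mul_of_nonneg_right h2 hz0
      rw [h1]
      linarith [hf20 t]
    · have hta : a < t ∧ t ∈ N := by
        rw [hES, hqq] at hte
        by_contra hcon
        apply hte
        refine ⟨⟨htq, htT⟩, ?_⟩
        by_cases h : t ≤ a
        · exact Or.inl h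
        · right
          intro hN
          exact hcon ⟨not_le.1 h, hN⟩
      have h1 : f2 t = GG s δ y K (δ ^ E) v t := by
        rw [hf2, Set.indicator_of_mem (show t ∈ Set.Ioc a T from ⟨hta.1, htT⟩)]
      have h3 := mul_le_mul_of_nonneg_right (hpt t hta.2) hz0
      rw [h1]
      unfold GG
      linarith [hf10 t]
  have hSm : MeasurableSet (GT V δ T ∩ Set.Ici (q * q)) := hGTm.inter measurableSet_Ici
  have hI : ∫ t in GT V δ T ∩ Set.Ici (q * q), mz δ t ^ (2 * k - 2) * zh (t + v) ^ 2 ≤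
      (∫ t, f1 t) + ∫ t, f2 t := by
    have h1 : ∫ t in GT V δ T ∩ Set.Ici (q * q), mz δ t ^ (2 * k - 2) * zh (t + v) ^ 2 ≤
        ∫ t in GT V δ T ∩ Set.Ici (q * q), (f1 t + f2 t) := by
      refine integral_mono_of_nonneg ?_ (if1.add if2).integrableOn ?_
      · exact Eventually.of_forall fun t => mul_nonneg (Real.rpow_nonneg (norm_nonneg _) _) (by positivity)
      · exact (ae_restrict_iff' hSm).2 (Eventually.of_forall hpw)
    refine h1.trans ?_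
    rw [← integral_add if1 if2]
    exact setIntegral_le_integral (if1.add if2)
      (Eventually.of_forall fun t => add_nonneg (hf10 t) (hf20 t))
  have hI1 : ∫ t, f1 t ≤ 17 * T := by
    rw [hf1, integral_indicator hESm, integral_const_mul]
    exact (mul_le_mul_of_nonneg_left hbad hP1.le).trans hnum
  have hI2 : ∫ t, f2 t ≤ 3 * (T * (2 * (2 * L * SS s δ (FS y K) + 1 + C4))) := by
    rw [hf2, integral_indicator measurableSet_Ioc]
    exact hwh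
  exact hI.trans (fin hT0 hL1 hδ hQ1 hQ hs hC40 hSb hI1 hI2 rfl)

end Pool.Agent.N748.OL.SH2
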