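import Pool.Agent.N748.MO.Main
import Pool.Agent.N748.MJ.Fin
import Pool.Agent.N748.OL.PJZ
import Pool.Agent.N748.OL.SH2
import Pool.Agent.N748.OL.RAT
import Pool.Agent.N748.OL.AVG
import Pool.Agent.N748.OL.CPR
import Pool.Agent.N748.OL.CLT

set_option autoImplicit false

/-! The size of zeta on the critical line in the moment measures of zeta near it: the theorems. -/

namespace Pool.Agent.N748.OL

open Pool.Agent.N748.MG Pool.Agent.N748.MO Pool.Agent.N748.MJ

theorem sh2F : S_SH2 :=
  SH2.main (NIC.main Inp.zm2 Inp.xsa Inp.mea) (CMP.main EUL.main) SIZ.main TSX.main WTB.main w4F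
    (DGF.main DGT.main DE1.main DE2.main DE3.main) FT.main

theorem ratF : S_RAT := RAT.main jmF posF LZB.main

theorem avgF : S_AVG := AVG.main PJZ.main sh2F tm1F Pool.Agent.N748.MG.conF

theorem cprF : S_CPR := CPR.main avgF ratF

theorem cltF : S_CLT := CLT.main cprF tm1F tm2F Pool.Agent.N748.MG.conF

end Pool.Agent.N748.OL
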