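import Pool.Agent.N748.MO.Stm
import Pool.Agent.N748.MJ.Stm

set_option autoImplicit false

/-!
# The size of zeta on the critical line in the moment measures of zeta near it: statements (over Mathlib only)
-/

namespace Pool.Agent.N748.OL

open Finset Filter MeasureTheory Topology Complex
open Pool.Agent.N748.MG Pool.Agent.N748.MO

/-- the Poisson kernel -/
noncomputable def PK (δ v : ℝ) : ℝ := δ / (Real.pi * (δ ^ 2 + v ^ 2))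

/-- the heights in `[0, T]` with `|zeta| ≤ (2 δ)^(-V)` -/
def GT (V δ T : ℝ) : Set ℝ := {t : ℝ | t ∈ Set.Icc 0 T ∧ mz δ t ≤ (2 * δ) ^ (-V)}

/-- (PJZ) the Poisson-Jensen inequality for zeta -/
def S_PJZ : Prop := ∃ C : ℝ, 0 < C ∧ ∀ δ t : ℝ, 0 < δ → δ ≤ 1 / 4 → 10 ≤ t → mz δ t ≠ 0 →
  Integrable (fun v : ℝ => PK δ v * Real.log (zh (t + v))) ∧
    Real.log (mz δ t) ≤ (∫ v : ℝ, PK δ v * Real.log (zh (t + v))) + C / t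

/-- (SH2) the second moment on the critical line, shifted, with the weight `|zeta|^(2k-2)` near the line -/
def S_SH2 : Prop := ∀ (c : ℝ) (d : ℝ → ℝ), Adc c d → ∀ k V : ℝ, 1 ≤ k → ∃ C : ℝ, 0 < C ∧ ∀ᶠ T : ℝ in atTop,
  ∀ v : ℝ, |v| ≤ T ^ ((1:ℝ) / 4) →
  ∫ t in GT V (d T) T ∩ Set.Ici (T ^ ((1:ℝ) / 2)), mz (d T) t ^ (2 * k - 2) * zh (t + v) ^ 2 ≤
    C * (d T * Real.log T * (2 * d T) ^ (-(k ^ 2)) * T)

/-- (RAT) the ratio of two values at distance at most `δ` -/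
def S_RAT : Prop := ∀ d : ℝ → ℝ, Ad d → ∀ k D : ℝ, 0 ≤ k → 0 < D → ∃ C : ℝ, 0 < C ∧ ∀ᶠ T : ℝ in atTop,
  ∀ x : ℝ, |x| ≤ 1 → ∃ E : Set ℝ, MeasurableSet E ∧ E ⊆ Set.Icc 0 T ∧ volume E ≤ ENNReal.ofReal (d T ^ D * T) ∧
    (∀ t ∈ Set.Icc 0 T \ E, mz (d T) t ≠ 0 ∧ mz (d T) (t + d T * x) ≠ 0) ∧
    IntegrableOn (fun t => mz (d T) t ^ (2 * k) * (mz (d T) (t + d T * x) ^ 2 / mz (d T) t ^ 2 +
      mz (d T) t ^ 2 / mz (d T) (t + d T * x) ^ 2)) (Set.Icc 0 T \ E) ∧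
    ∫ t in Set.Icc 0 T \ E, mz (d T) t ^ (2 * k) * (mz (d T) (t + d T * x) ^ 2 / mz (d T) t ^ 2 +
      mz (d T) t ^ 2 / mz (d T) (t + d T * x) ^ 2) ≤ C * ((2 * d T) ^ (-(k ^ 2)) * T)

/-- (AVG) the mean over the Poisson kernel -/
def S_AVG : Prop := ∀ (c : ℝ) (d : ℝ → ℝ), Adc c d → ∀ k V : ℝ, 1 ≤ k → ∃ C : ℝ, 0 < C ∧ ∀ᶠ T : ℝ in atTop,
  ∃ E : Set ℝ, MeasurableSet E ∧ E ⊆ Set.Icc 0 T ∧ volume E ≤ ENNReal.ofReal (T ^ ((3:ℝ) / 4)) ∧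
    ∫⁻ t in GT V (d T) T \ E, ENNReal.ofReal (mz (d T) t ^ (2 * k)) *
      ∫⁻ x in Set.Icc (-1:ℝ) 1, ENNReal.ofReal |Real.log (zh (t + d T * x)) - Real.log (mz (d T) t)| ≤
    ENNReal.ofReal (C * (Real.log (2 + d T * Real.log T) * (2 * d T) ^ (-(k ^ 2)) * T))

/-- (CPR) zeta on the line and near it -/
def S_CPR : Prop := ∀ (c : ℝ) (d : ℝ → ℝ), Adc c d → ∀ k V : ℝ, 1 ≤ k → ∀ η : ℝ → ℝ,
  Tendsto (fun T : ℝ => η T / Real.log (2 + d T * Real.log T)) atTop atTop →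
  Tendsto (fun T : ℝ => (2 * d T) ^ (k ^ 2) * ((1 / T) *
    ∫ t in {t : ℝ | t ∈ GT V (d T) T ∧ η T < |Real.log (zh t) - Real.log (mz (d T) t)|}, mz (d T) t ^ (2 * k))) atTop (𝓝 0)

/-- (CLT) the central limit theorem on the critical line -/
def S_CLT : Prop := ∀ (c : ℝ) (d : ℝ → ℝ), Adc c d → ∀ k V : ℝ, 1 ≤ k → k < V →
  Tendsto (fun T : ℝ => Real.log (2 + d T * Real.log T) / Real.sqrt (Real.log (Real.log T))) atTop (𝓝 0) → ∀ x : ℝ,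
  Tendsto (fun T : ℝ => (2 * d T) ^ (k ^ 2) * ((1 / T) *
    ∫ t in {t : ℝ | t ∈ GT V (d T) T ∧
      Real.log (zh t) ≤ k * Real.log (Real.log T) + x * Real.sqrt (Real.log (Real.log T) / 2)}, mz (d T) t ^ (2 * k))) atTop
    (𝓝 ((aC k).re * Phi x))

end Pool.Agent.N748.OL
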